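import Mathlib
import Pool.Agent.Helper49.FTestDefs

/-! Fourier inversion on a cell of side `2π` for continuous functions supported well inside the cell
(a statement of helper49, for MP_f1c2ec_an). -/

set_option autoImplicit false

namespace Pool.Agent.Helper49.FA

open MeasureTheory Set Filter Topology Complex
open scoped ContDiff ComplexConjugate

private theorem hasSum_coe_two_pi_pos : (0 : ℝ) < 2 * Real.pi := by positivity

/-- the lower corner of the scaled cell -/
noncomputable def cornerA {ι : Type*} (c : ι → ℝ) (i : ι) : ℝ := (c i - Real.pi) / (2 * Real.pi)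

/-- the function on the torus -/
noncomputable def torusFun {ι : Type*} (c : ι → ℝ) (G : (ι → ℝ) → ℂ) (t : UnitAddTorus ι) : ℂ :=
  G fun i => 2 * Real.pi * (AddCircle.equivIoc 1 (cornerA c i) (t i) : ℝ)

theorem cornerA_lt {ι : Type*} (c : ι → ℝ) (i : ι) (x : ℝ) :
    cornerA c i < x ↔ c i - Real.pi < 2 * Real.pi * x := by
  rw [cornerA, div_lt_iff₀ hasSum_coe_two_pi_pos, mul_comm x]

theorem le_cornerA {ι : Type*} (c : ι → ℝ) (i : ι) (x : ℝ) :
    x ≤ cornerA c i + 1 ↔ 2 * Real.pi * x ≤ c i + Real.pi := by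
  have h : cornerA c i + 1 = (c i + Real.pi) / (2 * Real.pi) := by
    rw [cornerA]; field_simp; ring
  rw [h, le_div_iff₀ hasSum_coe_two_pi_pos, mul_comm x]

theorem torusFun_coe {ι : Type*} (c : ι → ℝ) (G : (ι → ℝ) → ℂ) {x : ι → ℝ}
    (hx : ∀ i, x i ∈ Ioc (cornerA c i) (cornerA c i + 1)) :
    torusFun c G (fun i => (x i : UnitAddCircle)) = G ((2 * Real.pi) • x) := by
  unfold torusFun
  congr 1
  funext i
  have : (AddCircle.equivIoc 1 (cornerA c i) (x i : UnitAddCircle) : ℝ) = x i :=
    AddCircle.equivIoc_coe_of_mem (p := (1:ℝ)) (a := cornerA c i) (hx i)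
  rw [this]; rfl

theorem continuous_torusFun {ι : Type*} [Fintype ι] (c : ι → ℝ) {G : (ι → ℝ) → ℂ} (hG : Continuous G)
    {r : ℝ} (hr : r < Real.pi) (hs : ∀ y, r < ‖y - c‖ → G y = 0) : Continuous (torusFun c G) := by
  rw [continuous_iff_continuousAt]
  intro t
  by_cases h : ∃ j, t j = ((cornerA c j : ℝ) : UnitAddCircle)
  · obtain ⟨j, hj⟩ := h
    -- the compact set of points where the `j`-th coordinate is well inside
    let K : Set UnitAddCircle :=
      (fun x : ℝ => (x : UnitAddCircle)) '' Icc ((c j - r) / (2 * Real.pi)) ((c j + r) / (2 * Real.pi))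
    have hK : IsClosed K := by
      apply IsCompact.isClosed
      exact isCompact_Icc.image (AddCircle.continuous_mk' 1)
    have hnot : t j ∉ K := by
      rintro ⟨x, hx, hxt⟩
      have h1 : x ∈ Ioc (cornerA c j) (cornerA c j + 1) := by
        constructor
        · rw [cornerA_lt]
          have := (div_le_iff₀ hasSum_coe_two_pi_pos).1 hx.1
          linarith
        · rw [le_cornerA]
          have := (le_div_iff₀ hasSum_coe_two_pi_pos).1 hx.2
          linarith
      have h2 : (cornerA c j + 1) ∈ Ioc (cornerA c j) (cornerA c j + 1) := ⟨by linarith, le_refl _⟩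
      have h3 : ((cornerA c j + 1 : ℝ) : UnitAddCircle) = (x : UnitAddCircle) := by
        have h0 : (x : UnitAddCircle) = t j := hxt
        rw [h0, hj]
        exact AddCircle.coe_add_period 1 _
      have h4 : cornerA c j + 1 = x := by
        have e1 : (AddCircle.equivIoc 1 (cornerA c j) ((cornerA c j + 1 : ℝ) : UnitAddCircle) : ℝ)
            = cornerA c j + 1 := AddCircle.equivIoc_coe_of_mem (p := (1:ℝ)) (a := cornerA c j) h2
        have e2 : (AddCircle.equivIoc 1 (cornerA c j) (x : UnitAddCircle) : ℝ) = x :=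
          AddCircle.equivIoc_coe_of_mem (p := (1:ℝ)) (a := cornerA c j) h1
        rw [← e1, h3, e2]
      have h5 := (le_div_iff₀ hasSum_coe_two_pi_pos).1 hx.2
      rw [← h4] at h5
      have h6 : (cornerA c j + 1) * (2 * Real.pi) = c j + Real.pi := by
        rw [cornerA]; field_simp; ring
      rw [h6] at h5
      linarith
    have hzero : ∀ᶠ s in 𝓝 t, torusFun c G s = 0 := by
      have hopen : IsOpen {s : UnitAddTorus ι | s j ∉ K} :=
        (hK.isOpen_compl).preimage (f := fun s : UnitAddTorus ι => s j) (continuous_apply j)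
      filter_upwards [hopen.mem_nhds hnot] with s hsK
      apply hs
      refine lt_of_lt_of_le ?_ (norm_le_pi_norm _ j)
      rw [Pi.sub_apply, Real.norm_eq_abs]
      by_contra hcon
      push Not at hcon
      rw [abs_le] at hcon
      apply hsK
      refine ⟨(AddCircle.equivIoc 1 (cornerA c j) (s j) : ℝ), ⟨?_, ?_⟩, AddCircle.coe_equivIoc⟩
      · rw [div_le_iff₀ hasSum_coe_two_pi_pos]; linarith [hcon.1]
      · rw [le_div_iff₀ hasSum_coe_two_pi_pos]; linarith [hcon.2]
    have h0 : torusFun c G t = 0 := hzero.self_of_nhds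
    rw [ContinuousAt, h0]
    exact tendsto_const_nhds.congr' (hzero.mono fun s hs => hs.symm)
  · push Not at h
    unfold torusFun
    apply hG.continuousAt.comp (f := fun s : UnitAddTorus ι =>
      fun i => 2 * Real.pi * (AddCircle.equivIoc 1 (cornerA c i) (s i) : ℝ))
    rw [continuousAt_pi]
    intro i
    apply continuousAt_const.mul
    apply continuous_subtype_val.continuousAt.comp
    exact (AddCircle.continuousAt_equivIoc 1 (cornerA c i) (h i)).comp
      (f := fun s : UnitAddTorus ι => s i) (continuous_apply i).continuousAt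

theorem mFourier_coe_eq_chr {ι : Type*} [Fintype ι] (n : ι → ℤ) (x : ι → ℝ) :
    UnitAddTorus.mFourier n (fun i => (x i : UnitAddCircle)) = chr n ((2 * Real.pi) • x) := by
  rw [chr_eq_prod]
  change ∏ i, fourier (n i) (x i : UnitAddCircle) = _
  apply Finset.prod_congr rfl
  intro i _
  rw [fourier_coe_apply]
  congr 1
  simp only [Pi.smul_apply, smul_eq_mul]
  push_cast
  ring

theorem mFourierCoeff_torusFun {ι : Type*} [Fintype ι] (c : ι → ℝ) {G : (ι → ℝ) → ℂ}
    {r : ℝ} (hr : r < Real.pi) (hs : ∀ y, r < ‖y - c‖ → G y = 0) (n : ι → ℤ) :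
    (2 * Real.pi : ℂ) ^ Fintype.card ι * UnitAddTorus.mFourierCoeff (torusFun c G) n = fc G n := by
  rw [UnitAddTorus.mFourierCoeff_eq_integral _ n (cornerA c)]
  have hmeas : MeasurableSet {x : ι → ℝ | ∀ i, x i ∈ Ioc (cornerA c i) (cornerA c i + 1)} :=
    MeasurableSet.univ_pi' fun i => measurableSet_Ioc
  have h1 : ∫ x in {x : ι → ℝ | ∀ i, x i ∈ Ioc (cornerA c i) (cornerA c i + 1)},
      UnitAddTorus.mFourier (-n) (fun i => (x i : UnitAddCircle)) •
        torusFun c G (fun i => (x i : UnitAddCircle))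
      = ∫ x in {x : ι → ℝ | ∀ i, x i ∈ Ioc (cornerA c i) (cornerA c i + 1)},
        (fun y => G y * chr (-n) y) ((2 * Real.pi) • x) := by
    apply setIntegral_congr_fun hmeas
    intro x hx
    simp only
    rw [torusFun_coe c G hx, mFourier_coe_eq_chr, smul_eq_mul, mul_comm]
  rw [h1, setIntegral_eq_integral_of_forall_compl_eq_zero, Measure.integral_comp_smul volume (fun y => G y * chr (-n) y), Module.finrank_fintype_fun_eq_card]
  · rw [fc, abs_of_pos (by positivity), real_smul]
    push_cast
    rw [← mul_assoc, mul_inv_cancel₀, one_mul]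
    exact pow_ne_zero _ (by simp [Real.pi_ne_zero])
  · intro x hx
    simp only
    rw [hs, zero_mul]
    by_contra hcon
    push Not at hcon
    apply hx
    intro i
    have h2 := (norm_le_pi_norm ((2 * Real.pi) • x - c) i).trans hcon
    rw [Pi.sub_apply, Pi.smul_apply, smul_eq_mul, Real.norm_eq_abs, abs_le] at h2
    rw [mem_Ioc, cornerA_lt, le_cornerA]
    constructor <;> linarith [h2.1, h2.2]

theorem fourier_cell {ι : Type*} [Fintype ι] (c : ι → ℝ) {G : (ι → ℝ) → ℂ} (hG : Continuous G) {r : ℝ}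
    (hr : r < Real.pi) (hs : ∀ y, r < ‖y - c‖ → G y = 0) (hsum : Summable (fc G)) {y : ι → ℝ}
    (hy : ‖y - c‖ < Real.pi) :
    HasSum (fun l => fc G l * chr l y) ((2 * Real.pi : ℂ) ^ Fintype.card ι * G y) := by
  have hne : (2 * Real.pi : ℂ) ^ Fintype.card ι ≠ 0 :=
    pow_ne_zero _ (by simp [Real.pi_ne_zero])
  let F : C(UnitAddTorus ι, ℂ) := ⟨torusFun c G, continuous_torusFun c hG hr hs⟩
  have hco : ∀ n, fc G n = (2 * Real.pi : ℂ) ^ Fintype.card ι * UnitAddTorus.mFourierCoeff F n :=
    fun n => (mFourierCoeff_torusFun c hr hs n).symm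
  have hsum' : Summable (UnitAddTorus.mFourierCoeff F) := by
    have : (fun n => (2 * Real.pi : ℂ) ^ Fintype.card ι * UnitAddTorus.mFourierCoeff F n) = fc G := by
      funext n; exact (hco n).symm
    rw [← this] at hsum
    exact (summable_mul_left_iff hne).1 hsum
  have key := UnitAddTorus.hasSum_mFourier_series_apply_of_summable hsum'
    (fun i => (((2 * Real.pi)⁻¹ • y) i : UnitAddCircle))
  have hin : ∀ i, ((2 * Real.pi)⁻¹ • y) i ∈ Ioc (cornerA c i) (cornerA c i + 1) := by
    intro i
    have h2 := (norm_le_pi_norm (y - c) i).trans_lt hy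
    rw [Pi.sub_apply, Real.norm_eq_abs, abs_lt] at h2
    have h3 : 2 * Real.pi * ((2 * Real.pi)⁻¹ • y) i = y i := by
      rw [Pi.smul_apply, smul_eq_mul, ← mul_assoc, mul_inv_cancel₀ hasSum_coe_two_pi_pos.ne', one_mul]
    rw [mem_Ioc, cornerA_lt, le_cornerA, h3]
    constructor <;> linarith [h2.1, h2.2]
  have hscale : (2 * Real.pi) • ((2 * Real.pi)⁻¹ • y) = y := by
    rw [smul_smul, mul_inv_cancel₀ hasSum_coe_two_pi_pos.ne', one_smul]
  have hF : F (fun i => (((2 * Real.pi)⁻¹ • y) i : UnitAddCircle)) = G y := by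
    change torusFun c G _ = _
    rw [torusFun_coe c G hin, hscale]
  rw [hF] at key
  have key2 := key.mul_left ((2 * Real.pi : ℂ) ^ Fintype.card ι)
  refine key2.congr_fun ?_
  intro l
  rw [hco l, mFourier_coe_eq_chr, hscale, smul_eq_mul, mul_assoc]

end Pool.Agent.Helper49.FA
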