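import Mathlib
import Pool.Agent.Helper36.Ses.Common

/-!
# Complete addition laws on `y² z = x³ + z³` (part O2)
-/

namespace Seshadri

section Laws

/-- First complete addition law (exceptional when `P - Q` has order two). -/
def lawB {R : Type} [CommRing R] (p q : Fin 3 → R) : Fin 3 → R :=
  ![(p 0 * q 1 + q 0 * p 1) * (p 1 * q 1 - 3 * (p 2 * q 2)) -
      3 * ((p 1 * q 2 + q 1 * p 2) * (p 0 * q 2 + q 0 * p 2)),
    (p 1 * q 1 + 3 * (p 2 * q 2)) * (p 1 * q 1 - 3 * (p 2 * q 2)) +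
      9 * (p 0 * q 0 * (p 0 * q 2 + q 0 * p 2)),
    (p 1 * q 2 + q 1 * p 2) * (p 1 * q 1 + 3 * (p 2 * q 2)) +
      3 * (p 0 * q 0 * (p 0 * q 1 + q 0 * p 1))]

/-- Second complete addition law (exceptional when `P = Q`). -/
def lawA {R : Type} [CommRing R] (p q : Fin 3 → R) : Fin 3 → R :=
  ![(p 0 * q 1 - q 0 * p 1) * (p 1 * q 2 + q 1 * p 2) + (p 0 * q 2 - q 0 * p 2) * (p 1 * q 1) -
      3 * ((p 0 * q 2 - q 0 * p 2) * (p 2 * q 2)),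
    -(3 * (p 0 * q 0 * (p 0 * q 1 - q 0 * p 1))) - p 1 * q 1 * (p 1 * q 2 - q 1 * p 2) +
      3 * ((p 1 * q 2 - q 1 * p 2) * (p 2 * q 2)),
    3 * (p 0 * q 0 * (p 0 * q 2 - q 0 * p 2)) - (p 1 * q 2 - q 1 * p 2) * (p 1 * q 2 + q 1 * p 2)]

lemma lawB_smul {K : Type} [Field K] (s t : K) (p q : Fin 3 → K) :
    lawB (s • p) (t • q) = (s ^ 2 * t ^ 2) • lawB p q := by
  funext j
  fin_cases j <;> simp [lawB] <;> ring

lemma lawA_smul {K : Type} [Field K] (s t : K) (p q : Fin 3 → K) :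
    lawA (s • p) (t • q) = (s ^ 2 * t ^ 2) • lawA p q := by
  funext j
  fin_cases j <;> simp [lawA] <;> ring

lemma lawB_map {R S : Type} [CommRing R] [CommRing S] (f : R →+* S) (p q : Fin 3 → R) :
    (fun j => f (lawB p q j)) = lawB (fun j => f (p j)) (fun j => f (q j)) := by
  have e3 : f 3 = 3 := map_ofNat f 3
  have e9 : f 9 = 9 := map_ofNat f 9
  funext j
  fin_cases j <;> simp [lawB, e3, e9]

lemma lawA_map {R S : Type} [CommRing R] [CommRing S] (f : R →+* S) (p q : Fin 3 → R) :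
    (fun j => f (lawA p q j)) = lawA (fun j => f (p j)) (fun j => f (q j)) := by
  have e3 : f 3 = 3 := map_ofNat f 3
  funext j
  fin_cases j <;> simp [lawA, e3]

section

variable {K : Type} [Field K]

lemma genB_x {x₁ y₁ x₂ y₂ l : K} (h₁ : y₁ ^ 2 = x₁ ^ 3 + 1)
    (hl1 : l * (x₁ - x₂) = y₁ - y₂)
    (hl2 : l * (y₁ + y₂) = x₁ ^ 2 + x₁ * x₂ + x₂ ^ 2) :
    (x₁ * y₂ + x₂ * y₁) * (y₁ * y₂ - 3) - 3 * ((y₁ + y₂) * (x₁ + x₂)) =
    ((y₁ + y₂) * (y₁ * y₂ + 3) + 3 * (x₁ * x₂ * (x₁ * y₂ + x₂ * y₁))) * (l ^ 2 - x₁ - x₂) := by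
  grobner

lemma genB_y {x₁ y₁ x₂ y₂ l : K} (h₁ : y₁ ^ 2 = x₁ ^ 3 + 1)
    (hl1 : l * (x₁ - x₂) = y₁ - y₂)
    (hl2 : l * (y₁ + y₂) = x₁ ^ 2 + x₁ * x₂ + x₂ ^ 2) :
    (y₁ * y₂ + 3) * (y₁ * y₂ - 3) + 9 * (x₁ * x₂ * (x₁ + x₂)) =
    ((y₁ + y₂) * (y₁ * y₂ + 3) + 3 * (x₁ * x₂ * (x₁ * y₂ + x₂ * y₁))) *
      (-(l * (l ^ 2 - x₁ - x₂ - x₁) + y₁)) := by
  grobner

lemma genA_x {x₁ y₁ x₂ y₂ l : K} (h₁ : y₁ ^ 2 = x₁ ^ 3 + 1)
    (hl1 : l * (x₁ - x₂) = y₁ - y₂)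
    (hl2 : l * (y₁ + y₂) = x₁ ^ 2 + x₁ * x₂ + x₂ ^ 2) :
    (x₁ * y₂ - x₂ * y₁) * (y₁ + y₂) + (x₁ - x₂) * (y₁ * y₂) - 3 * (x₁ - x₂) =
    (3 * (x₁ * x₂ * (x₁ - x₂)) - (y₁ - y₂) * (y₁ + y₂)) * (l ^ 2 - x₁ - x₂) := by
  grobner

lemma genA_y {x₁ y₁ x₂ y₂ l : K} (h₁ : y₁ ^ 2 = x₁ ^ 3 + 1)
    (hl1 : l * (x₁ - x₂) = y₁ - y₂)
    (hl2 : l * (y₁ + y₂) = x₁ ^ 2 + x₁ * x₂ + x₂ ^ 2) :
    -(3 * (x₁ * x₂ * (x₁ * y₂ - x₂ * y₁))) - y₁ * y₂ * (y₁ - y₂) + 3 * (y₁ - y₂) =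
    (3 * (x₁ * x₂ * (x₁ - x₂)) - (y₁ - y₂) * (y₁ + y₂)) *
      (-(l * (l ^ 2 - x₁ - x₂ - x₁) + y₁)) := by
  grobner

variable [CharP K 7]

omit [CharP K 7] in
lemma vec_zero : Pt.vec (0 : Pt K) = ![0, 1, 0] := rfl

lemma vec_mk {x y : K} (h : y ^ 2 = x ^ 3 + 1) : Pt.vec (Pt.mk x y h) = ![x, y, 1] := rfl

lemma vec_neg_mk {x y : K} (h : y ^ 2 = x ^ 3 + 1) : Pt.vec (-Pt.mk x y h) = ![x, -y, 1] := by
  rw [Pt.neg_mk h (by rw [neg_sq, h]), vec_mk]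

omit [CharP K 7] in
lemma rep_of_eq {v : Fin 3 → K} {P : Pt K} (s : K) (h : v = s • P.vec) (hv : v ≠ 0) : Rep v P := by
  refine ⟨s, ?_, h⟩
  rintro rfl
  exact hv (by rw [h, zero_smul])

lemma rep_lawB_vec (P Q : Pt K) (hv : lawB P.vec Q.vec ≠ 0) : Rep (lawB P.vec Q.vec) (P + Q) := by
  rcases Pt.add_cases P Q with rfl | rfl | ⟨h, rfl⟩ | ⟨x₁, y₁, x₂, y₂, l, h₁, h₂, hne, hl1, hl2,
      rfl, rfl, e⟩
  · rw [zero_add]
    refine rep_of_eq (Q.vec 1) ?_ hv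
    funext j
    fin_cases j <;> simp [lawB, vec_zero] <;> ring
  · rw [add_zero]
    refine rep_of_eq (P.vec 1) ?_ hv
    funext j
    fin_cases j <;> simp [lawB, vec_zero] <;> ring
  · obtain ⟨x, y, hxy, rfl⟩ := (Pt.cases P).resolve_left h
    rw [add_neg_cancel]
    refine rep_of_eq (lawB (Pt.mk x y hxy).vec (-Pt.mk x y hxy).vec 1) ?_ hv
    rw [vec_neg_mk, vec_mk]
    funext j
    fin_cases j <;> simp [lawB, vec_zero]
  · rw [e]
    refine rep_of_eq (lawB (Pt.mk x₁ y₁ h₁).vec (Pt.mk x₂ y₂ h₂).vec 2) ?_ hv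
    rw [vec_mk, vec_mk, vec_mk]
    funext j
    fin_cases j
    · simpa [lawB] using genB_x h₁ hl1 hl2
    · simpa [lawB] using genB_y h₁ hl1 hl2
    · simp [lawB]

lemma rep_lawA_vec (P Q : Pt K) (hv : lawA P.vec Q.vec ≠ 0) : Rep (lawA P.vec Q.vec) (P + Q) := by
  rcases Pt.add_cases P Q with rfl | rfl | ⟨h, rfl⟩ | ⟨x₁, y₁, x₂, y₂, l, h₁, h₂, hne, hl1, hl2,
      rfl, rfl, e⟩
  · rw [zero_add]
    refine rep_of_eq (-(Q.vec 2)) ?_ hv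
    funext j
    fin_cases j <;> simp [lawA, vec_zero] <;> ring
  · rw [add_zero]
    refine rep_of_eq (P.vec 2) ?_ hv
    funext j
    fin_cases j <;> simp [lawA, vec_zero] <;> ring
  · obtain ⟨x, y, hxy, rfl⟩ := (Pt.cases P).resolve_left h
    rw [add_neg_cancel]
    refine rep_of_eq (lawA (Pt.mk x y hxy).vec (-Pt.mk x y hxy).vec 1) ?_ hv
    rw [vec_neg_mk, vec_mk]
    funext j
    fin_cases j <;> simp [lawA, vec_zero]
  · rw [e]
    refine rep_of_eq (lawA (Pt.mk x₁ y₁ h₁).vec (Pt.mk x₂ y₂ h₂).vec 2) ?_ hv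
    rw [vec_mk, vec_mk, vec_mk]
    funext j
    fin_cases j
    · simpa [lawA] using genA_x h₁ hl1 hl2
    · simpa [lawA] using genA_y h₁ hl1 hl2
    · simp [lawA]

lemma vec_cases (P : Pt K) : P.vec = ![0, 1, 0] ∨ ∃ x y : K, y ^ 2 = x ^ 3 + 1 ∧ P.vec = ![x, y, 1] := by
  rcases Pt.cases P with rfl | ⟨x, y, h, rfl⟩
  · exact Or.inl rfl
  · exact Or.inr ⟨x, y, h, rfl⟩

lemma lawB_ne_or_lawA_ne_vec (P Q : Pt K) : lawB P.vec Q.vec ≠ 0 ∨ lawA P.vec Q.vec ≠ 0 := by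
  by_contra hcon
  push Not at hcon
  obtain ⟨hB, hA⟩ := hcon
  have B1 := congrFun hB 1
  have B2 := congrFun hB 2
  have A1 := congrFun hA 1
  have A2 := congrFun hA 2
  rcases vec_cases P with hP | ⟨x₁, y₁, h₁, hP⟩ <;> rcases vec_cases Q with hQ | ⟨x₂, y₂, h₂, hQ⟩
  · rw [hP, hQ] at B1
    simp [lawB] at B1
  · rw [hP, hQ] at A2
    simp [lawA] at A2
  · rw [hP, hQ] at A2
    simp [lawA] at A2
  · rw [hP, hQ] at B1 B2 A1 A2
    simp [lawB, lawA] at B1 B2 A1 A2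
    have h7 : (7 : K) = 0 := seven_eq_zero
    have hx3 : (x₁ - x₂) ^ 3 = 0 := by linear_combination h₂ - h₁ - A2
    have hx : x₁ = x₂ := by
      have := (pow_eq_zero_iff (three_ne_zero)).1 hx3
      linear_combination this
    subst hx
    have h2 : (2 : K) ≠ 0 := two_ne
    have hy2 : (y₁ - y₂) * (y₁ + y₂) = 0 := by linear_combination h₁ - h₂
    have h3 : (3 : K) ≠ 0 := three_ne
    have h8 : y₁ = 0 → False := by
      intro h0
      subst h0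
      have h0' : y₂ = 0 := by
        rcases mul_eq_zero.1 hy2 with h | h
        · linear_combination -h
        · linear_combination h
      subst h0'
      have : (3 : K) ^ 3 = 0 := by
        linear_combination -B1 - 18 * h₁
      exact h3 ((pow_eq_zero_iff (three_ne_zero)).1 this)
    have h88 : y₁ ^ 3 * 2 ^ 3 = 0 := by
      rcases mul_eq_zero.1 hy2 with h | h
      · have : y₂ = y₁ := by linear_combination -h
        subst this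
        linear_combination B2 + 6 * y₂ * h₁
      · have : y₂ = - y₁ := by linear_combination h
        subst this
        linear_combination A1 + 6 * y₁ * h₁
    rcases mul_eq_zero.1 h88 with h | h
    · exact h8 ((pow_eq_zero_iff (three_ne_zero)).1 h)
    · exact h2 ((pow_eq_zero_iff (three_ne_zero)).1 h)

lemma rep_lawB {p q : Fin 3 → K} {P Q : Pt K} (hp : Rep p P) (hq : Rep q Q) (hv : lawB p q ≠ 0) :
    Rep (lawB p q) (P + Q) := by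
  obtain ⟨s, hs, rfl⟩ := hp
  obtain ⟨t, ht, rfl⟩ := hq
  rw [lawB_smul] at hv ⊢
  have h1 : lawB P.vec Q.vec ≠ 0 := fun h => hv (by rw [h, smul_zero])
  obtain ⟨a, ha, h⟩ := rep_lawB_vec P Q h1
  exact ⟨s ^ 2 * t ^ 2 * a, by positivity, by rw [h, smul_smul]⟩

lemma rep_lawA {p q : Fin 3 → K} {P Q : Pt K} (hp : Rep p P) (hq : Rep q Q) (hv : lawA p q ≠ 0) :
    Rep (lawA p q) (P + Q) := by
  obtain ⟨s, hs, rfl⟩ := hp
  obtain ⟨t, ht, rfl⟩ := hq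
  rw [lawA_smul] at hv ⊢
  have h1 : lawA P.vec Q.vec ≠ 0 := fun h => hv (by rw [h, smul_zero])
  obtain ⟨a, ha, h⟩ := rep_lawA_vec P Q h1
  exact ⟨s ^ 2 * t ^ 2 * a, by positivity, by rw [h, smul_smul]⟩

lemma lawB_ne_or_lawA_ne {p q : Fin 3 → K} {P Q : Pt K} (hp : Rep p P) (hq : Rep q Q) :
    lawB p q ≠ 0 ∨ lawA p q ≠ 0 := by
  obtain ⟨s, hs, rfl⟩ := hp
  obtain ⟨t, ht, rfl⟩ := hq
  have hst : s ^ 2 * t ^ 2 ≠ 0 := by positivity
  rw [lawB_smul, lawA_smul, smul_ne_zero_iff, smul_ne_zero_iff]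
  rcases lawB_ne_or_lawA_ne_vec P Q with h | h
  · exact Or.inl ⟨hst, h⟩
  · exact Or.inr ⟨hst, h⟩

end

/-- (O2) reduction is compatible with addition. -/
theorem red_add {K κ R : Type} [Field K] [CharP K 7] [Field κ] [CharP κ 7] [CommRing R]
    (i : R →+* K) (hi : Function.Injective i) (r : R →+* κ) (P Q : Pt K) (P' Q' : Pt κ)
    (p q : Fin 3 → R) (h1 : Rep (fun j => i (p j)) P) (h2 : Rep (fun j => r (p j)) P')
    (h3 : Rep (fun j => i (q j)) Q) (h4 : Rep (fun j => r (q j)) Q') :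
    ∃ s : Fin 3 → R, Rep (fun j => i (s j)) (P + Q) ∧ Rep (fun j => r (s j)) (P' + Q') := by
  have key : ∀ s : Fin 3 → R, (fun j => r (s j)) ≠ 0 → (fun j => i (s j)) ≠ 0 := by
    intro s hs hs'
    apply hs
    funext j
    have : i (s j) = i 0 := by rw [map_zero]; exact congrFun hs' j
    rw [hi this, map_zero]
    rfl
  rcases lawB_ne_or_lawA_ne h2 h4 with h | h
  · refine ⟨lawB p q, ?_, ?_⟩
    · rw [lawB_map]
      refine rep_lawB h1 h3 ?_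
      rw [← lawB_map]
      apply key
      rwa [lawB_map]
    · rw [lawB_map]
      exact rep_lawB h2 h4 h
  · refine ⟨lawA p q, ?_, ?_⟩
    · rw [lawA_map]
      refine rep_lawA h1 h3 ?_
      rw [← lawA_map]
      apply key
      rwa [lawA_map]
    · rw [lawA_map]
      exact rep_lawA h2 h4 h

end Laws

end Seshadri
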