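import Mathlib
import Pool.Agent.Helper36.Ses.EC

/-!
# Arithmetic in `ℤ[ω]` (part O5)
-/

namespace Seshadri

namespace ArithAux

open Pt Filter Topology

/-- primitive third root of unity -/
noncomputable def om : ℂ := ⟨-1 / 2, Real.sqrt 3 / 2⟩

lemma om_mul : om * om = -1 - om := by
  have h : Real.sqrt 3 * Real.sqrt 3 = 3 := Real.mul_self_sqrt (by norm_num)
  apply Complex.ext
  · simp only [om, Complex.mul_re, Complex.sub_re, Complex.neg_re, Complex.one_re]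
    linear_combination (-1 / 4) * h
  · simp only [om, Complex.mul_im, Complex.sub_im, Complex.neg_im, Complex.one_im]
    ring

/-- the complex embedding -/
noncomputable def toC : Zw →+* ℂ where
  toFun α := α.re + α.im * om
  map_one' := by simp [QuadraticAlgebra.re_one, QuadraticAlgebra.im_one]
  map_zero' := by simp
  map_add' α β := by
    simp only [QuadraticAlgebra.re_add, QuadraticAlgebra.im_add]
    push_cast
    ring
  map_mul' α β := by
    simp only [QuadraticAlgebra.re_mul, QuadraticAlgebra.im_mul]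
    push_cast
    linear_combination (-(α.im * β.im : ℂ)) * om_mul

lemma toC_def (α : Zw) : toC α = α.re + α.im * om := rfl

lemma trace_toC (α : Zw) : ((QuadraticAlgebra.trace α : ℤ) : ℝ) = 2 * (toC α).re := by
  rw [QuadraticAlgebra.trace_def, toC_def]
  simp [om]
  ring

lemma norm_toC (α : Zw) : ((QuadraticAlgebra.norm α : ℤ) : ℝ) = Complex.normSq (toC α) := by
  have h : Real.sqrt 3 * Real.sqrt 3 = 3 := Real.mul_self_sqrt (by norm_num)
  rw [QuadraticAlgebra.norm_def, toC_def, Complex.normSq_apply]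
  simp [om]
  linear_combination (-(1 / 4) * (α.im : ℝ) ^ 2) * h

lemma star_Fr : star Fr = Ve := by decide

lemma star_Ve : star Ve = Fr := by decide

lemma coprime : IsCoprime Ve Fr := by
  refine ⟨-2 - Fr, -2, ?_⟩
  decide

lemma norm_nonneg (α : Zw) : 0 ≤ QuadraticAlgebra.norm α := by
  have h := norm_toC α
  have h2 : (0 : ℝ) ≤ ((QuadraticAlgebra.norm α : ℤ) : ℝ) := by
    rw [h]; exact Complex.normSq_nonneg _
  exact_mod_cast h2

lemma star_natCast' (n : ℕ) : star ((n : ℕ) : Zw) = n := star_natCast n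

/-- the algebraic part -/
lemma algebraic (m : ℕ) : ∃ (u w : ℕ) (ρ : Zw), 0 < u ∧ 0 < w ∧
    (u * w : ℤ) - QuadraticAlgebra.norm ρ = 1 ∧
    (7 : ℝ) ^ m * (u + w) - 2 * (toC ρ * toC Fr ^ (2 * m)).re = 1 := by
  obtain ⟨α, β', hab⟩ := (coprime.pow (m := m) (n := m))
  obtain ⟨β, hβ⟩ : ∃ β : Zw, β = -β' := ⟨_, rfl⟩
  have h1 : α * Ve ^ m - β * Fr ^ m = 1 := by rw [hβ]; linear_combination hab
  have h1' : star α * Fr ^ m - star β * Ve ^ m = 1 := by
    have := congrArg star h1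
    rw [star_sub, star_mul', star_mul', star_pow, star_pow, star_Fr, star_Ve, star_one] at this
    exact this
  have hFV : Fr ^ m * Ve ^ m = 7 ^ m := by rw [← mul_pow, Fr_mul_Ve]
  have hα := norm_nonneg α
  have hβ := norm_nonneg β
  have h7 : (0 : ℤ) < 7 ^ m := by positivity
  refine ⟨(QuadraticAlgebra.norm α + 7 ^ m).toNat, (QuadraticAlgebra.norm β + 7 ^ m).toNat,
    star α * β + Ve ^ (2 * m), by omega, by omega, ?_, ?_⟩
  · rw [Int.toNat_of_nonneg (by omega), Int.toNat_of_nonneg (by omega)]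
    have key : algebraMap ℤ Zw ((QuadraticAlgebra.norm α + 7 ^ m) *
        (QuadraticAlgebra.norm β + 7 ^ m) -
        QuadraticAlgebra.norm (star α * β + Ve ^ (2 * m))) = algebraMap ℤ Zw 1 := by
      simp only [map_sub, map_mul, map_add, map_pow, map_ofNat,
        QuadraticAlgebra.algebraMap_norm_eq_mul_star, star_add, star_mul', star_pow, star_Ve,
        star_star, map_one]
      have e1 : Ve ^ (2 * m) = (Ve ^ m) ^ 2 := by rw [mul_comm, pow_mul]
      have e2 : Fr ^ (2 * m) = (Fr ^ m) ^ 2 := by rw [mul_comm, pow_mul]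
      rw [e1, e2, ← hFV]
      linear_combination (star α * Fr ^ m - star β * Ve ^ m) * h1 + h1'
    have hinj : Function.Injective (algebraMap ℤ Zw) := by
      intro a b hab
      have := congrArg QuadraticAlgebra.re hab
      simpa using this
    exact hinj key
  · have key : (7 : Zw) ^ m * (algebraMap ℤ Zw (QuadraticAlgebra.norm α + 7 ^ m) +
        algebraMap ℤ Zw (QuadraticAlgebra.norm β + 7 ^ m)) -
        ((star α * β + Ve ^ (2 * m)) * Fr ^ (2 * m) +
          star ((star α * β + Ve ^ (2 * m)) * Fr ^ (2 * m))) = 1 := by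
      simp only [map_add, map_pow, map_ofNat,
        QuadraticAlgebra.algebraMap_norm_eq_mul_star, star_add, star_mul', star_pow, star_Ve,
        star_star, star_Fr]
      have e1 : Ve ^ (2 * m) = (Ve ^ m) ^ 2 := by rw [mul_comm, pow_mul]
      have e2 : Fr ^ (2 * m) = (Fr ^ m) ^ 2 := by rw [mul_comm, pow_mul]
      rw [e1, e2, ← hFV]
      linear_combination (star α * Fr ^ m - star β * Ve ^ m) * h1 + h1'
    obtain ⟨a, ha⟩ : ∃ a : ℤ, a = QuadraticAlgebra.norm α + 7 ^ m := ⟨_, rfl⟩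
    obtain ⟨b, hb⟩ : ∃ b : ℤ, b = QuadraticAlgebra.norm β + 7 ^ m := ⟨_, rfl⟩
    obtain ⟨ρ, hρ⟩ : ∃ ρ : Zw, ρ = star α * β + Ve ^ (2 * m) := ⟨_, rfl⟩
    rw [← ha, ← hb, ← hρ] at key
    rw [← ha, ← hb, ← hρ]
    have key2 := congrArg toC key
    have hst : ∀ z : Zw, toC (star z) = (starRingEnd ℂ) (toC z) := by
      intro z
      rw [toC_def, toC_def]
      apply Complex.ext
      · simp [om]; ring
      · simp [om]
    have hcast : ∀ z : ℤ, toC (algebraMap ℤ Zw z) = z := by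
      intro z
      simp
    rw [map_sub, map_mul, map_add, map_pow, map_ofNat, map_add, hst, Complex.add_conj, hcast, hcast,
      map_one] at key2
    have key3 := congrArg Complex.re key2
    have hre : (((7 : ℂ) ^ m * ((a : ℂ) + (b : ℂ)))).re = (7 : ℝ) ^ m * ((a : ℝ) + (b : ℝ)) := by
      rw [← Complex.ofReal_re ((7 : ℝ) ^ m * ((a : ℝ) + (b : ℝ)))]
      push_cast
      rfl
    rw [Complex.sub_re, hre, Complex.ofReal_re, Complex.one_re, map_mul, map_pow] at key3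
    have c1 : ((a.toNat : ℕ) : ℝ) = (a : ℝ) := by
      rw [← Int.cast_natCast, Int.toNat_of_nonneg (by omega)]
    have c2 : ((b.toNat : ℕ) : ℝ) = (b : ℝ) := by
      rw [← Int.cast_natCast, Int.toNat_of_nonneg (by omega)]
    rw [c1, c2]
    exact key3

lemma abs_Fr : ‖toC Fr‖ ^ 2 = 7 := by
  rw [← Complex.normSq_eq_norm_sq, ← norm_toC]
  have : QuadraticAlgebra.norm Fr = 7 := by decide
  rw [this]
  norm_num

/-- `F² / 7` as a point of the unit circle -/
noncomputable def theta : Circle := ⟨toC Fr ^ 2 / 7, by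
  rw [Submonoid.unitSphere, ← SetLike.mem_coe]
  simp only [Submonoid.coe_set_mk, Subsemigroup.coe_set_mk, mem_sphere_iff_norm, sub_zero]
  rw [norm_div, norm_pow, abs_Fr]
  norm_num⟩

lemma theta_coe : (theta : ℂ) = toC Fr ^ 2 / 7 := rfl

lemma exists_near (ε : ℝ) (hε : 0 < ε) (N₀ : ℕ) : ∃ N : ℕ, N₀ ≤ N ∧ ‖(theta : ℂ) ^ N - 1‖ < ε := by
  have h := mapClusterPt_one_atTop_pow theta
  have hopen : IsOpen {z : Circle | ‖(z : ℂ) - 1‖ < ε} :=
    isOpen_lt (by fun_prop) continuous_const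
  have h2 : ∃ᶠ N : ℕ in atTop, theta ^ N ∈ {z : Circle | ‖(z : ℂ) - 1‖ < ε} :=
    h.frequently (hopen.mem_nhds (by simpa using hε))
  obtain ⟨N, hN, hmem⟩ := (frequently_atTop.1 h2) N₀
  refine ⟨N, hN, ?_⟩
  simpa using hmem

end ArithAux

open ArithAux in
/-- (O5) -/
theorem arith (δ : ℝ) (hδ : 0 < δ) : ∃ (n u w : ℕ) (ρ : Pt.Zw), 0 < n ∧ 0 < u ∧ 0 < w ∧
    (u * w : ℤ) - QuadraticAlgebra.norm ρ = 1 ∧
    (8 * ((7 : ℝ) ^ n * (u + w)
      - ((QuadraticAlgebra.trace (ρ * Pt.Fr ^ (2 * n)) : ℤ) : ℝ) + 2 * w)) <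
      δ * ((7 : ℝ) ^ n - 1) := by
  obtain ⟨m, hm⟩ := pow_unbounded_of_one_lt (32 / δ) (by norm_num : (1 : ℝ) < 7)
  have hm' : 32 < δ * 7 ^ m := by
    rw [div_lt_iff₀ hδ] at hm
    linarith
  obtain ⟨u, w, ρ, hu, hw, hn, hE⟩ := algebraic m
  obtain ⟨N₁, hN₁⟩ := pow_unbounded_of_one_lt (w + δ) (by norm_num : (1 : ℝ) < 7)
  obtain ⟨N, hN, hth⟩ := exists_near (1 / (2 * (‖toC ρ‖ * 7 ^ m + 1))) (by positivity) (N₁ + 1)
  have hNN : (w : ℝ) + δ < 7 ^ N :=
    lt_of_lt_of_le hN₁ (pow_le_pow_right₀ (by norm_num) (by omega))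
  refine ⟨m + N, u, w, ρ, by omega, hu, hw, hn, ?_⟩
  have hF2 : toC Pt.Fr ^ 2 = 7 * (theta : ℂ) := by
    rw [theta_coe]; field_simp
  have htr : ((QuadraticAlgebra.trace (ρ * Pt.Fr ^ (2 * (m + N))) : ℤ) : ℝ) =
      7 ^ N * (2 * (toC ρ * toC Pt.Fr ^ (2 * m)).re +
        2 * (toC ρ * toC Pt.Fr ^ (2 * m) * ((theta : ℂ) ^ N - 1)).re) := by
    rw [trace_toC, map_mul, map_pow]
    have e : toC ρ * toC Pt.Fr ^ (2 * (m + N)) = ((7 ^ N : ℝ) : ℂ) *
        (toC ρ * toC Pt.Fr ^ (2 * m) +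
          toC ρ * toC Pt.Fr ^ (2 * m) * ((theta : ℂ) ^ N - 1)) := by
      have e3 : toC Pt.Fr ^ (2 * (m + N)) = toC Pt.Fr ^ (2 * m) * (7 ^ N * (theta : ℂ) ^ N) := by
        rw [mul_add, pow_add, pow_mul (toC Pt.Fr) 2 N, hF2, mul_pow]
      rw [e3]
      push_cast
      ring
    rw [e, Complex.re_ofReal_mul, Complex.add_re]
    ring
  have hbound : |(toC ρ * toC Pt.Fr ^ (2 * m) * ((theta : ℂ) ^ N - 1)).re| ≤ 1 / 2 := by
    refine (Complex.abs_re_le_norm _).trans ?_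
    rw [norm_mul, norm_mul, norm_pow, pow_mul, abs_Fr]
    have hpos : (0 : ℝ) < ‖toC ρ‖ * 7 ^ m + 1 := by positivity
    calc ‖toC ρ‖ * 7 ^ m * ‖(theta : ℂ) ^ N - 1‖
        ≤ (‖toC ρ‖ * 7 ^ m + 1) * (1 / (2 * (‖toC ρ‖ * 7 ^ m + 1))) := by
          apply mul_le_mul _ hth.le (by positivity) (by positivity)
          linarith
      _ = 1 / 2 := by field_simp
  rw [htr]
  have h7N : (0 : ℝ) < 7 ^ N := by positivity
  have hlow := (abs_le.1 hbound).1
  have key : (7 : ℝ) ^ (m + N) * (u + w) - 7 ^ N * (2 * (toC ρ * toC Pt.Fr ^ (2 * m)).re +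
        2 * (toC ρ * toC Pt.Fr ^ (2 * m) * ((theta : ℂ) ^ N - 1)).re) ≤ 7 ^ N * 2 := by
    have : (7 : ℝ) ^ (m + N) * (u + w) - 7 ^ N * (2 * (toC ρ * toC Pt.Fr ^ (2 * m)).re +
        2 * (toC ρ * toC Pt.Fr ^ (2 * m) * ((theta : ℂ) ^ N - 1)).re) =
        7 ^ N * (((7 : ℝ) ^ m * (u + w) - 2 * (toC ρ * toC Pt.Fr ^ (2 * m)).re) -
          2 * (toC ρ * toC Pt.Fr ^ (2 * m) * ((theta : ℂ) ^ N - 1)).re) := by
      rw [pow_add]; ring
    rw [this, hE]
    apply mul_le_mul_of_nonneg_left _ h7N.le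
    linarith
  have hfin : δ * (7 : ℝ) ^ (m + N) = (δ * 7 ^ m) * 7 ^ N := by rw [pow_add]; ring
  have h32 : 32 * (7 : ℝ) ^ N < (δ * 7 ^ m) * 7 ^ N := mul_lt_mul_of_pos_right hm' h7N
  have e5 : δ * ((7 : ℝ) ^ (m + N) - 1) = δ * 7 ^ m * 7 ^ N - δ := by rw [mul_sub, hfin, mul_one]
  rw [e5]
  linarith

end Seshadri
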