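import Mathlib

set_option autoImplicit false

/-! Explicit sets forcing small admissible subsets: combinatorial part. -/

namespace Pool.Agent.Helper85.ChoiSet

open Finset

section field

variable (p : ℕ) [Fact p.Prime]

/-- The three dimensional space over `ZMod p`. -/
abbrev V := ZMod p × ZMod p × ZMod p

/-- The surface `z = x y`. -/
def surf (v : V p) : Prop := v.2.2 = v.1 * v.2.1

instance : DecidablePred (surf p) := fun v => by unfold surf; infer_instance

lemma card_V : Fintype.card (V p) = p ^ 3 := by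
  simp [V, ZMod.card]; ring

lemma count_one (b : V p) : (univ.filter (fun x : V p => surf p (x + b))).card = p ^ 2 := by
  have h : (univ.filter (fun x : V p => surf p (x + b))).card =
      (univ : Finset (ZMod p × ZMod p)).card := by
    refine Finset.card_bij' (fun x _ => (x.1, x.2.1))
      (fun w _ => (w.1, w.2, (w.1 + b.1) * (w.2 + b.2.1) - b.2.2)) ?_ ?_ ?_ ?_
    · intro x _; simp
    · intro w _
      rw [mem_filter]
      refine ⟨mem_univ _, ?_⟩
      simp [surf]
    · intro x hx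
      have hx := (mem_filter.1 hx).2
      simp only [surf, Prod.snd_add, Prod.fst_add] at hx
      refine Prod.ext rfl (Prod.ext rfl ?_)
      simp only
      rw [← hx]; ring
    · intro w _; rfl
  rw [h, card_univ, Fintype.card_prod, ZMod.card]; ring

lemma count_two (b b' : V p) (hb : b ≠ b') :
    (univ.filter (fun x : V p => surf p (x + b) ∧ surf p (x + b'))).card ≤ p := by
  by_cases h2 : b.2.1 = b'.2.1
  · by_cases h1 : b.1 = b'.1
    · -- no solutions
      have : (univ.filter (fun x : V p => surf p (x + b) ∧ surf p (x + b'))) = ∅ := by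
        rw [filter_eq_empty_iff]
        rintro x _ ⟨hx, hx'⟩
        simp only [surf, Prod.snd_add, Prod.fst_add] at hx hx'
        rw [h1, h2] at hx
        rw [← hx'] at hx
        have h3 : b.2.2 = b'.2.2 := add_left_cancel hx
        exact hb (Prod.ext h1 (Prod.ext h2 h3))
      rw [this]; simp
    · have hc : (univ.filter (fun x : V p => surf p (x + b) ∧ surf p (x + b'))).card ≤
          (univ : Finset (ZMod p)).card := by
        refine Finset.card_le_card_of_injOn (fun x => x.1) (fun _ _ => by simp) ?_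
        intro x hx y hy hxy
        obtain ⟨hx1, hx2⟩ := (mem_filter.1 hx).2
        obtain ⟨hy1, hy2⟩ := (mem_filter.1 hy).2
        simp only [surf, Prod.snd_add, Prod.fst_add] at hx1 hx2 hy1 hy2
        simp only at hxy
        have e : (b.1 - b'.1) * (x.2.1 - y.2.1) = 0 := by
          rw [h2] at hx1 hy1
          rw [hxy] at hx1 hx2
          linear_combination (-1 : ZMod p) * hx1 + hx2 + hy1 - hy2
        have e2 : x.2.1 = y.2.1 := by
          rcases mul_eq_zero.1 e with h | h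
          · exact absurd (sub_eq_zero.1 h) h1
          · exact sub_eq_zero.1 h
        have e3 : x.2.2 = y.2.2 := by
          rw [hxy, e2] at hx1
          linear_combination hx1 - hy1
        exact Prod.ext hxy (Prod.ext e2 e3)
      simpa [ZMod.card] using hc
  · have hc : (univ.filter (fun x : V p => surf p (x + b) ∧ surf p (x + b'))).card ≤
        (univ : Finset (ZMod p)).card := by
      refine Finset.card_le_card_of_injOn (fun x => x.2.1) (fun _ _ => by simp) ?_
      intro x hx y hy hxy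
      obtain ⟨hx1, hx2⟩ := (mem_filter.1 hx).2
      obtain ⟨hy1, hy2⟩ := (mem_filter.1 hy).2
      simp only [surf, Prod.snd_add, Prod.fst_add] at hx1 hx2 hy1 hy2
      simp only at hxy
      have e : (b.2.1 - b'.2.1) * (x.1 - y.1) = 0 := by
        rw [hxy] at hx1 hx2
        linear_combination (-1 : ZMod p) * hx1 + hx2 + hy1 - hy2
      have e2 : x.1 = y.1 := by
        rcases mul_eq_zero.1 e with h | h
        · exact absurd (sub_eq_zero.1 h) h2
        · exact sub_eq_zero.1 h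
      have e3 : x.2.2 = y.2.2 := by
        rw [hxy, e2] at hx1
        linear_combination hx1 - hy1
      exact Prod.ext e2 (Prod.ext hxy e3)
    simpa [ZMod.card] using hc

/-- A set without two distinct elements summing to a point of the surface is small. -/
lemma small (B : Finset (V p)) (h : ∀ v ∈ B, ∀ w ∈ B, v ≠ w → ¬ surf p (v + w)) :
    B.card ≤ p ^ 2 + p := by
  by_contra hlt
  push Not at hlt
  -- `N x` = number of `b ∈ B` with `x + b` on the surface
  let N : V p → ℤ := fun x => ((B.filter (fun b => surf p (x + b))).card : ℤ)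
  have hN1 : ∀ x ∈ B, N x ≤ 1 := by
    intro x hx
    have : (B.filter (fun b => surf p (x + b))) ⊆ {x} := by
      intro b hb
      rw [mem_filter] at hb
      rw [mem_singleton]
      by_contra hne
      exact h x hx b hb.1 (fun e => hne e.symm) hb.2
    have := Finset.card_le_card this
    simp only [card_singleton] at this
    simp only [N]
    exact_mod_cast this
  have hNind : ∀ x, N x = ∑ b ∈ B, (if surf p (x + b) then (1:ℤ) else 0) := by
    intro x; simp [N]
  have hsum1 : ∑ x, N x = B.card * (p : ℤ) ^ 2 := by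
    simp_rw [hNind]
    rw [sum_comm]
    have : ∀ b ∈ B, ∑ x : V p, (if surf p (x + b) then (1:ℤ) else 0) = (p:ℤ) ^ 2 := by
      intro b _
      have := count_one p b
      rw [Finset.sum_boole, this]; push_cast; rfl
    rw [sum_congr rfl this, sum_const, nsmul_eq_mul]
  have hsum2 : ∑ x, N x ^ 2 ≤ B.card * (p : ℤ) ^ 2 + B.card * (B.card - 1) * p := by
    have e1 : ∀ x, N x ^ 2 = ∑ b ∈ B, ∑ b' ∈ B,
        (if surf p (x + b) ∧ surf p (x + b') then (1:ℤ) else 0) := by
      intro x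
      rw [sq, hNind, Finset.sum_mul_sum]
      refine sum_congr rfl fun b _ => sum_congr rfl fun b' _ => ?_
      by_cases h1 : surf p (x + b) <;> by_cases h2 : surf p (x + b') <;> simp [h1, h2]
    simp_rw [e1]
    rw [sum_comm]
    have e2 : ∀ b ∈ B, ∑ x : V p, ∑ b' ∈ B,
        (if surf p (x + b) ∧ surf p (x + b') then (1:ℤ) else 0) ≤
        (p:ℤ) ^ 2 + (B.card - 1) * p := by
      intro b hb
      rw [sum_comm, ← Finset.add_sum_erase B _ hb]
      refine add_le_add ?_ ?_
      · have : ∀ x : V p, (if surf p (x + b) ∧ surf p (x + b) then (1:ℤ) else 0) =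
            (if surf p (x + b) then (1:ℤ) else 0) := by intro x; simp
        simp_rw [this]
        rw [Finset.sum_boole, count_one p b]; push_cast; rfl
      · have e3 : ∀ b' ∈ B.erase b, ∑ x : V p,
            (if surf p (x + b) ∧ surf p (x + b') then (1:ℤ) else 0) ≤ (p:ℤ) := by
          intro b' hb'
          have hne : b ≠ b' := fun e => (mem_erase.1 hb').1 e.symm
          rw [Finset.sum_boole]
          exact_mod_cast count_two p b b' hne
        refine (Finset.sum_le_sum e3).trans ?_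
        rw [sum_const, card_erase_of_mem hb, nsmul_eq_mul]
        have hpos : 1 ≤ B.card := card_pos.2 ⟨b, hb⟩
        push_cast [Nat.cast_sub hpos]
        exact le_refl _
    refine (Finset.sum_le_sum e2).trans ?_
    rw [sum_const, nsmul_eq_mul]
    have : (B.card : ℤ) * ((p:ℤ) ^ 2 + (B.card - 1) * p) =
      B.card * (p : ℤ) ^ 2 + B.card * (B.card - 1) * p := by ring
    rw [this]
  -- variance
  have hvar : ∑ x, (p * N x - B.card) ^ 2 ≤ (B.card : ℤ) * (p:ℤ) ^ 3 * (p - 1) := by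
    have e : ∀ x, (p * N x - B.card) ^ 2 =
        (p:ℤ)^2 * N x ^ 2 - 2 * p * B.card * N x + (B.card : ℤ)^2 := by intro x; ring
    simp_rw [e]
    rw [sum_add_distrib, sum_sub_distrib, ← mul_sum, ← mul_sum, hsum1, sum_const, card_univ,
      card_V p, nsmul_eq_mul]
    push_cast
    have hp0 : (0:ℤ) ≤ (p:ℤ)^2 := by positivity
    nlinarith [mul_le_mul_of_nonneg_left hsum2 hp0]
  have hlow : (B.card : ℤ) * (B.card - p) ^ 2 ≤ ∑ x, (p * N x - B.card) ^ 2 := by
    have h1 : ∑ x ∈ B, (p * N x - B.card) ^ 2 ≤ ∑ x, (p * N x - B.card) ^ 2 :=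
      sum_le_sum_of_subset_of_nonneg (subset_univ _) (fun _ _ _ => sq_nonneg _)
    refine le_trans ?_ h1
    have h2 : ∀ x ∈ B, ((B.card : ℤ) - p) ^ 2 ≤ (p * N x - B.card) ^ 2 := by
      intro x hx
      have h3 := hN1 x hx
      have hp1 : (0:ℤ) ≤ p := by positivity
      have h4 : (p:ℤ) * N x ≤ p := by nlinarith
      have h5 : (p:ℤ) ^ 2 + p < B.card := by exact_mod_cast hlt
      have h6 : (0:ℤ) ≤ B.card - p := by nlinarith [sq_nonneg (p:ℤ)]
      nlinarith
    calc (B.card : ℤ) * (B.card - p) ^ 2 = ∑ x ∈ B, ((B.card : ℤ) - p) ^ 2 := by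
          rw [sum_const, nsmul_eq_mul]
      _ ≤ _ := Finset.sum_le_sum h2
  have h5 : (p:ℤ) ^ 2 + p < B.card := by exact_mod_cast hlt
  have hp1 : (1:ℤ) ≤ p := by exact_mod_cast (Fact.out : p.Prime).one_lt.le
  have hB : (0:ℤ) < B.card := by nlinarith
  have h6 : ((B.card : ℤ) - p) ^ 2 ≤ (p:ℤ) ^ 3 * (p - 1) := by
    have := hlow.trans hvar
    have h7 : (B.card : ℤ) * (B.card - p) ^ 2 ≤ B.card * ((p:ℤ) ^ 3 * (p - 1)) := by
      calc _ ≤ _ := this
        _ = _ := by ring
    exact le_of_mul_le_mul_left h7 hB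
  have h8 : (p:ℤ)^2 ≤ B.card - p := by linarith
  have h9 : ((p:ℤ)^2)^2 ≤ ((B.card : ℤ) - p)^2 := by
    have : (0:ℤ) ≤ (p:ℤ)^2 := by positivity
    nlinarith
  nlinarith [pow_pos (by linarith : (0:ℤ) < p) 3]

end field

/-- The membership test: with base `p` digits `u₀ = u % p`, `u₁ = u / p % p` and `u₂ = u / p²`,
`u₂ = e₁ + u₀ (u₁ - e₀)` modulo `p` for some carries `e₀, e₁ ∈ {0, 1}`. -/
def test (p u : ℕ) : Prop :=
  ∃ e0 ∈ ({0, 1} : Finset ℕ), ∃ e1 ∈ ({0, 1} : Finset ℕ),
    ((u / p ^ 2 : ℕ) : ZMod p) = (e1 : ZMod p) + (u : ZMod p) * (((u / p : ℕ) : ZMod p) - e0)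

instance (p u : ℕ) : Decidable (test p u) := by unfold test; infer_instance

/-- The explicit set. -/
def SS (n p : ℕ) : Finset ℕ := (Finset.Ico (2 * n) (4 * n)).filter (fun m => test p (m - 2 * n))

lemma digits_inj (p a b : ℕ) (hp : 0 < p) (ha : a < p ^ 3) (hb : b < p ^ 3)
    (h0 : (a : ZMod p) = b) (h1 : ((a / p : ℕ) : ZMod p) = ((b / p : ℕ) : ZMod p))
    (h2 : ((a / p ^ 2 : ℕ) : ZMod p) = ((b / p ^ 2 : ℕ) : ZMod p)) : a = b := by
  rw [ZMod.natCast_eq_natCast_iff'] at h0 h1 h2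
  have e2 : a / p ^ 2 = b / p ^ 2 := by
    have ha' : a / p ^ 2 < p := by
      rw [Nat.div_lt_iff_lt_mul (by positivity)]; calc a < p ^ 3 := ha
        _ = p * p ^ 2 := by ring
    have hb' : b / p ^ 2 < p := by
      rw [Nat.div_lt_iff_lt_mul (by positivity)]; calc b < p ^ 3 := hb
        _ = p * p ^ 2 := by ring
    rwa [Nat.mod_eq_of_lt ha', Nat.mod_eq_of_lt hb'] at h2
  have e1 : a / p = b / p := by
    have ha' : a / p / p = a / p ^ 2 := by rw [Nat.div_div_eq_div_mul, sq]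
    have hb' : b / p / p = b / p ^ 2 := by rw [Nat.div_div_eq_div_mul, sq]
    rw [← Nat.div_add_mod (a / p) p, ← Nat.div_add_mod (b / p) p, ha', hb', e2, h1]
  rw [← Nat.div_add_mod a p, ← Nat.div_add_mod b p, e1, h0]

/-- Every admissible subset of `[n, 2n)` is small. -/
theorem admissible_small (n p : ℕ) (hp : p.Prime) (hn : n ≤ p ^ 3) (A : Finset ℕ)
    (hA : A ⊆ Finset.Ico n (2 * n)) (hadm : ∀ a ∈ A, ∀ b ∈ A, a ≠ b → a + b ∉ SS n p) :
    A.card ≤ p ^ 2 + p := by
  classical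
  have := Fact.mk hp
  let ψ : ℕ → V p := fun a => (((a - n : ℕ) : ZMod p), (((a - n) / p : ℕ) : ZMod p),
    (((a - n) / p ^ 2 : ℕ) : ZMod p))
  have hinj : Set.InjOn ψ A := by
    intro a ha b hb hab
    have ha' := Finset.mem_Ico.1 (hA ha)
    have hb' := Finset.mem_Ico.1 (hA hb)
    have h0 := congrArg Prod.fst hab
    have h1 := congrArg (fun v : V p => v.2.1) hab
    have h2 := congrArg (fun v : V p => v.2.2) hab
    have := digits_inj p (a - n) (b - n) hp.pos (by omega) (by omega) h0 h1 h2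
    omega
  rw [← Finset.card_image_of_injOn hinj]
  refine small p (A.image ψ) ?_
  intro v hv w hw hvw hs
  obtain ⟨a, ha, rfl⟩ := Finset.mem_image.1 hv
  obtain ⟨b, hb, rfl⟩ := Finset.mem_image.1 hw
  have hab : a ≠ b := fun e => hvw (by rw [e])
  refine hadm a ha b hb hab ?_
  have ha' := Finset.mem_Ico.1 (hA ha)
  have hb' := Finset.mem_Ico.1 (hA hb)
  rw [SS, Finset.mem_filter, Finset.mem_Ico]
  refine ⟨⟨by omega, by omega⟩, ?_⟩
  have hu : a + b - 2 * n = (a - n) + (b - n) := by omega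
  rw [hu]
  set x := a - n
  set y := b - n
  have hdiv : ∀ c : ℕ, 0 < c → ∃ e ∈ ({0, 1} : Finset ℕ), (x + y) / c = x / c + y / c + e := by
    intro c hc
    rw [Nat.add_div hc]
    by_cases h : c ≤ x % c + y % c
    · exact ⟨1, by simp, by simp [h]⟩
    · exact ⟨0, by simp, by simp [h]⟩
  obtain ⟨e0, he0, h0⟩ := hdiv p hp.pos
  obtain ⟨e1, he1, h1⟩ := hdiv (p ^ 2) (by have := hp.pos; positivity)
  refine ⟨e0, he0, e1, he1, ?_⟩
  simp only [surf, ψ, Prod.snd_add, Prod.fst_add] at hs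
  rw [h0, h1]
  push_cast
  linear_combination hs

lemma card_SS (n p : ℕ) (hp : 0 < p) (hn : n ≤ p ^ 3) : (SS n p).card ≤ 8 * p ^ 2 := by
  classical
  let T : ℕ → ℕ → Finset ℕ := fun e0 e1 => (Finset.Ico (2 * n) (4 * n)).filter (fun m =>
    (((m - 2 * n) / p ^ 2 : ℕ) : ZMod p) = (e1 : ZMod p) +
      ((m - 2 * n : ℕ) : ZMod p) * ((((m - 2 * n) / p : ℕ) : ZMod p) - e0))
  have hT : ∀ e0 e1, (T e0 e1).card ≤ 2 * p ^ 2 := by
    intro e0 e1
    have h1 : (T e0 e1).card ≤ ((range p) ×ˢ ((range p) ×ˢ (range 2))).card := by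
      refine Finset.card_le_card_of_injOn
        (fun m => ((m - 2 * n) % p, ((m - 2 * n) / p) % p, (m - 2 * n) / p ^ 2 / p)) ?_ ?_
      · intro m hm
        have hm' := (Finset.mem_filter.1 hm).1
        rw [Finset.mem_Ico] at hm'
        simp only [coe_product, coe_range, Set.mem_prod, Set.mem_Iio]
        refine ⟨Nat.mod_lt _ hp, Nat.mod_lt _ hp, ?_⟩
        rw [Nat.div_div_eq_div_mul, Nat.div_lt_iff_lt_mul (by positivity)]
        calc m - 2 * n < 2 * n := by omega
          _ ≤ 2 * p ^ 3 := by omega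
          _ = 2 * (p ^ 2 * p) := by ring
      · intro m hm m' hm' h
        have h2 := (Finset.mem_filter.1 hm).2
        have h2' := (Finset.mem_filter.1 hm').2
        have h3 := (Finset.mem_filter.1 hm).1
        have h3' := (Finset.mem_filter.1 hm').1
        rw [Finset.mem_Ico] at h3 h3'
        simp only [Prod.mk.injEq] at h
        obtain ⟨ha, hb, hc⟩ := h
        set u := m - 2 * n with hu
        set u' := m' - 2 * n with hu'
        have e0' : (u : ZMod p) = u' := (ZMod.natCast_eq_natCast_iff' _ _ _).2 ha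
        have e1' : ((u / p : ℕ) : ZMod p) = ((u' / p : ℕ) : ZMod p) :=
          (ZMod.natCast_eq_natCast_iff' _ _ _).2 hb
        rw [e0', e1'] at h2
        rw [← h2'] at h2
        rw [ZMod.natCast_eq_natCast_iff'] at h2
        have e2 : u / p ^ 2 = u' / p ^ 2 := by
          rw [← Nat.div_add_mod (u / p ^ 2) p, ← Nat.div_add_mod (u' / p ^ 2) p, hc, h2]
        have e3 : u / p = u' / p := by
          have k1 : u / p / p = u / p ^ 2 := by rw [Nat.div_div_eq_div_mul, sq]
          have k2 : u' / p / p = u' / p ^ 2 := by rw [Nat.div_div_eq_div_mul, sq]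
          rw [← Nat.div_add_mod (u / p) p, ← Nat.div_add_mod (u' / p) p, k1, k2, e2, hb]
        have e4 : u = u' := by
          rw [← Nat.div_add_mod u p, ← Nat.div_add_mod u' p, e3, ha]
        omega
    refine h1.trans ?_
    simp only [card_product, card_range]
    nlinarith
  have hsub : SS n p ⊆ (T 0 0 ∪ T 0 1) ∪ (T 1 0 ∪ T 1 1) := by
    intro m hm
    rw [SS, Finset.mem_filter] at hm
    obtain ⟨hm1, e0, he0, e1, he1, h⟩ := hm
    simp only [mem_insert, mem_singleton] at he0 he1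
    simp only [mem_union, T, mem_filter]
    rcases he0 with rfl | rfl <;> rcases he1 with rfl | rfl
    · exact Or.inl (Or.inl ⟨hm1, h⟩)
    · exact Or.inl (Or.inr ⟨hm1, h⟩)
    · exact Or.inr (Or.inl ⟨hm1, h⟩)
    · exact Or.inr (Or.inr ⟨hm1, h⟩)
  calc (SS n p).card ≤ ((T 0 0 ∪ T 0 1) ∪ (T 1 0 ∪ T 1 1)).card := Finset.card_le_card hsub
    _ ≤ (T 0 0 ∪ T 0 1).card + (T 1 0 ∪ T 1 1).card := Finset.card_union_le _ _
    _ ≤ ((T 0 0).card + (T 0 1).card) + ((T 1 0).card + (T 1 1).card) :=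
        add_le_add (Finset.card_union_le _ _) (Finset.card_union_le _ _)
    _ ≤ 8 * p ^ 2 := by linarith [hT 0 0, hT 0 1, hT 1 0, hT 1 1]

lemma exists_pr (n : ℕ) : ∃ p, p.Prime ∧ n ≤ p ^ 3 := by
  obtain ⟨p, hp, h⟩ := Nat.exists_infinite_primes (n + 1)
  refine ⟨p, h, ?_⟩
  calc n ≤ p := by omega
    _ ≤ p ^ 3 := by nlinarith [Nat.pos_of_ne_zero h.ne_zero, sq_nonneg p, h.one_lt]

/-- The least prime whose cube is at least `n`. -/
def pr (n : ℕ) : ℕ := Nat.find (exists_pr n)

lemma pr_prime (n : ℕ) : (pr n).Prime := (Nat.find_spec (exists_pr n)).1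

lemma le_pr (n : ℕ) : n ≤ pr n ^ 3 := (Nat.find_spec (exists_pr n)).2

lemma pr_le (n p : ℕ) (hp : p.Prime) (h : n ≤ p ^ 3) : pr n ≤ p := Nat.find_min' _ ⟨hp, h⟩

/-- `pr n = O(n^(1/3))`. -/
lemma pr_bound (n : ℕ) (hn : 1 ≤ n) : (pr n : ℝ) ≤ 4 * (n : ℝ) ^ (1 / 3 : ℝ) := by
  set r : ℝ := (n : ℝ) ^ (1 / 3 : ℝ) with hr
  have hr1 : 1 ≤ r := Real.one_le_rpow (by exact_mod_cast hn) (by norm_num)
  have hr3 : r ^ 3 = n := by
    rw [hr, ← Real.rpow_natCast, ← Real.rpow_mul (by positivity)]; norm_num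
  let m := ⌈r⌉₊
  have hm0 : m ≠ 0 := by
    have : 0 < m := Nat.ceil_pos.2 (by linarith)
    omega
  have hm1 : r ≤ m := Nat.le_ceil r
  have hm2 : (m : ℝ) < r + 1 := Nat.ceil_lt_add_one (by linarith)
  obtain ⟨q, hq, hq1, hq2⟩ := Nat.exists_prime_lt_and_le_two_mul m hm0
  have h1 : n ≤ q ^ 3 := by
    have : (n : ℝ) ≤ (q : ℝ) ^ 3 := by
      rw [← hr3]
      have : r ≤ q := hm1.trans (by exact_mod_cast hq1.le)
      gcongr
    exact_mod_cast this
  have h2 := pr_le n q hq h1
  calc (pr n : ℝ) ≤ q := by exact_mod_cast h2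
    _ ≤ 2 * m := by exact_mod_cast hq2
    _ ≤ 4 * r := by linarith

lemma pr_sq_bound (n : ℕ) (hn : 1 ≤ n) : (pr n : ℝ) ^ 2 ≤ 16 * (n : ℝ) ^ (2 / 3 : ℝ) := by
  have h := pr_bound n hn
  have h0 : (0:ℝ) ≤ pr n := by positivity
  have h1 : ((n : ℝ) ^ (1 / 3 : ℝ)) ^ 2 = (n : ℝ) ^ (2 / 3 : ℝ) := by
    rw [← Real.rpow_natCast, ← Real.rpow_mul (by positivity)]; norm_num
  calc (pr n : ℝ) ^ 2 ≤ (4 * (n : ℝ) ^ (1 / 3 : ℝ)) ^ 2 := by gcongr
    _ = 16 * (n : ℝ) ^ (2 / 3 : ℝ) := by rw [mul_pow, h1]; norm_num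

/-- Combinatorial part of the theorem. -/
theorem main (n : ℕ) (hn : 1 ≤ n) :
    SS n (pr n) ⊆ Finset.Ico (2 * n) (4 * n) ∧
    ((SS n (pr n)).card : ℝ) ≤ 128 * (n : ℝ) ^ (2 / 3 : ℝ) ∧
    ∀ A : Finset ℕ, A ⊆ Finset.Ico n (2 * n) →
      (∀ a ∈ A, ∀ b ∈ A, a ≠ b → a + b ∉ SS n (pr n)) →
      (A.card : ℝ) ≤ 128 * (n : ℝ) ^ (2 / 3 : ℝ) := by
  have h := pr_sq_bound n hn
  refine ⟨Finset.filter_subset _ _, ?_, ?_⟩
  · have h1 := card_SS n (pr n) (pr_prime n).pos (le_pr n)
    have h2 : ((SS n (pr n)).card : ℝ) ≤ 8 * (pr n : ℝ) ^ 2 := by exact_mod_cast h1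
    linarith
  · intro A hA hadm
    have h1 := admissible_small n (pr n) (pr_prime n) (le_pr n) A hA hadm
    have h2 : (A.card : ℝ) ≤ (pr n : ℝ) ^ 2 + pr n := by exact_mod_cast h1
    have h3 : (1:ℝ) ≤ pr n := by exact_mod_cast (pr_prime n).one_lt.le
    nlinarith

end Pool.Agent.Helper85.ChoiSet
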