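import Mathlib
import Pool.Agent.Helper85.ChoiSet
import Pool.Agent.Helper91.PolyTime.Typed

set_option autoImplicit false

/-! Explicit sets forcing small admissible subsets: polynomial-time computability. -/

namespace Pool.Agent.Helper85.ChoiPoly

open Pool.Agent.Helper91.PolyTime Pool.Agent.Helper85.ChoiSet

section arith

variable {α : Type*} [PEnc α]

/-- quotient by counting -/
def qdiv (a b : ℕ) : ℕ :=
  ((List.range a).filter (fun k => decide (0 < b) && decide ((k + 1) * b ≤ a))).length

lemma qdiv_eq (a b : ℕ) : qdiv a b = a / b := by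
  unfold qdiv
  rcases Nat.eq_zero_or_pos b with hb | hb
  · subst hb; simp
  · have h : (List.range a).filter (fun k => decide (0 < b) && decide ((k + 1) * b ≤ a)) =
        (List.range a).filter (fun k => decide (k < a / b)) := by
      apply List.filter_congr
      intro k _
      have : (k + 1) * b ≤ a ↔ k < a / b := by
        rw [← Nat.succ_le_iff, Nat.le_div_iff_mul_le hb]
      simp [hb, this]
    rw [h]
    have hle : a / b ≤ a := Nat.div_le_self a b
    have h2 : ∀ d, d ≤ a → (List.range a).filter (fun k => decide (k < d)) = List.range d := by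
      intro d hd
      obtain ⟨c, rfl⟩ := Nat.exists_eq_add_of_le hd
      rw [List.range_add, List.filter_append]
      have e1 : (List.range d).filter (fun k => decide (k < d)) = List.range d := by
        rw [List.filter_eq_self]
        intro k hk
        simpa using hk
      have e2 : ((List.range c).map (fun x => d + x)).filter
          (fun k => decide (k < d)) = [] := by
        rw [List.filter_eq_nil_iff]
        intro k hk
        simp only [List.mem_map] at hk
        obtain ⟨x, _, rfl⟩ := hk
        simp
      rw [e1, e2, List.append_nil]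
    rw [h2 _ hle, List.length_range]

lemma ptf_div {f g : α → ℕ} (hf : PTF f) (hg : PTF g) : PTF (fun a => f a / g a) := by
  have h : PTF (fun a => qdiv (f a) (g a)) := by
    unfold qdiv
    refine PTF.length (PTF.filter (f := fun a k => decide (0 < g a) &&
      decide ((k + 1) * g a ≤ f a)) (PTF.range hf) ?_)
    exact PTF.and (PTF.lt (PTF.const 0) (hg.comp PTF.id.fst))
      (PTF.le (PTF.mul (PTF.succ PTF.id.snd) (hg.comp PTF.id.fst)) (hf.comp PTF.id.fst))
  exact h.of_eq fun a => qdiv_eq _ _

lemma ptf_mod {f g : α → ℕ} (hf : PTF f) (hg : PTF g) : PTF (fun a => f a % g a) := by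
  refine (PTF.sub hf (PTF.mul hg (ptf_div hf hg))).of_eq fun a => ?_
  have := Nat.div_add_mod (f a) (g a)
  omega

end arith

/-- Boolean form of the membership test. -/
def testB (p u : ℕ) : Bool :=
  [0, 1].any fun e0 => [0, 1].any fun e1 =>
    decide ((u / (p * p)) % p = (e1 + u * (u / p + e0 * (p - 1))) % p)

lemma testB_iff (p u : ℕ) (hp : 1 ≤ p) : testB p u = true ↔ test p u := by
  have key : ∀ e0 e1 : ℕ, ((u / (p * p)) % p = (e1 + u * (u / p + e0 * (p - 1))) % p ↔
      ((u / p ^ 2 : ℕ) : ZMod p) =
        (e1 : ZMod p) + (u : ZMod p) * (((u / p : ℕ) : ZMod p) - e0)) := by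
    intro e0 e1
    rw [← ZMod.natCast_eq_natCast_iff' (u / (p * p)) _ p, ← sq]
    have : ((p - 1 : ℕ) : ZMod p) = -1 := by
      rw [Nat.cast_sub hp]; simp
    push_cast
    rw [this]
    constructor
    · intro h; rw [h]; ring
    · intro h; rw [h]; ring
  unfold testB test
  simp only [List.any_cons, List.any_nil, Bool.or_false, Bool.or_eq_true, decide_eq_true_eq,
    Finset.mem_insert, Finset.mem_singleton, exists_eq_or_imp, exists_eq_left, key]

/-- Boolean primality test. -/
def primeB (q : ℕ) : Bool :=
  decide (2 ≤ q) && (List.range q).all fun k => decide (k < 2) || !(decide (q % k = 0))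

lemma primeB_iff (q : ℕ) : primeB q = true ↔ q.Prime := by
  unfold primeB
  rw [Nat.prime_def_lt']
  simp only [Bool.and_eq_true, decide_eq_true_eq, List.all_eq_true, List.mem_range,
    Bool.or_eq_true, Bool.not_eq_true', decide_eq_false_iff_not]
  refine and_congr_right fun _ => ⟨fun h m h2 hm hd => ?_, fun h m hm => ?_⟩
  · rcases h m hm with h3 | h3
    · omega
    · exact h3 (Nat.mod_eq_zero_of_dvd hd)
  · by_cases h2 : m < 2
    · exact Or.inl h2
    · right
      intro h3
      exact h m (not_lt.1 h2) hm (Nat.dvd_of_mod_eq_zero h3)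

/-- The least prime whose cube is at least `n`, found by search. -/
def prB (n : ℕ) : ℕ :=
  (((List.range (2 * n + 3)).filter fun q => primeB q && decide (n ≤ q ^ 3)).head?).getD 0

lemma prB_eq (n : ℕ) (hn : 1 ≤ n) : prB n = pr n := by
  have hlt : pr n < 2 * n + 3 := by
    obtain ⟨q, hq, hq1, hq2⟩ := Nat.exists_prime_lt_and_le_two_mul n (by omega)
    have h3 : n ≤ q ^ 3 := by
      calc n ≤ q := hq1.le
        _ ≤ q ^ 3 := Nat.le_self_pow (by norm_num) q
    have := pr_le n q hq h3
    omega
  have hmem : pr n ∈ (List.range (2 * n + 3)).filter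
      fun q => primeB q && decide (n ≤ q ^ 3) := by
    rw [List.mem_filter]
    refine ⟨List.mem_range.2 hlt, ?_⟩
    simp only [Bool.and_eq_true, decide_eq_true_eq]
    exact ⟨(primeB_iff _).2 (pr_prime n), le_pr n⟩
  unfold prB
  have hsorted : ((List.range (2 * n + 3)).filter
      fun q => primeB q && decide (n ≤ q ^ 3)).Pairwise (· < ·) :=
    List.Pairwise.filter _ List.pairwise_lt_range
  revert hmem hsorted
  rcases hl : (List.range (2 * n + 3)).filter
      fun q => primeB q && decide (n ≤ q ^ 3) with _ | ⟨q, t⟩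
  · intro h; simp at h
  · intro hmem hsorted
    have hq : q ∈ (List.range (2 * n + 3)).filter
      fun q => primeB q && decide (n ≤ q ^ 3) := by rw [hl]; exact List.mem_cons_self
    rw [List.mem_filter] at hq
    simp only [Bool.and_eq_true, decide_eq_true_eq] at hq
    have h1 : pr n ≤ q := pr_le n q ((primeB_iff q).1 hq.2.1) hq.2.2
    have h2 : q ≤ pr n := by
      rcases List.mem_cons.1 hmem with h | h
      · exact h.symm.le
      · exact ((List.pairwise_cons.1 hsorted).1 _ h).le
    simp only [List.head?_cons, Option.getD_some]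
    omega

/-- The algorithm: the list of the elements of the explicit set. -/
def out (n : ℕ) : List ℕ :=
  ((List.range (2 * n)).filter fun u => testB (prB n) u).map fun u => 2 * n + u

lemma mem_out (n : ℕ) (hn : 1 ≤ n) (m : ℕ) : m ∈ out n ↔ m ∈ SS n (pr n) := by
  unfold out SS
  rw [prB_eq n hn]
  simp only [List.mem_map, List.mem_filter, List.mem_range, Finset.mem_filter, Finset.mem_Ico]
  constructor
  · rintro ⟨u, ⟨hu, ht⟩, rfl⟩
    refine ⟨⟨by omega, by omega⟩, ?_⟩
    rw [Nat.add_sub_cancel_left]
    exact (testB_iff _ _ (pr_prime n).one_lt.le).1 ht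
  · rintro ⟨⟨h1, h2⟩, ht⟩
    exact ⟨m - 2 * n, ⟨by omega, (testB_iff _ _ (pr_prime n).one_lt.le).2 ht⟩, by omega⟩

lemma nodup_out (n : ℕ) : (out n).Nodup := by
  unfold out
  refine List.Nodup.map (fun a b h => by simpa using h) (List.Nodup.filter _ List.nodup_range)

lemma length_out (n : ℕ) (hn : 1 ≤ n) : (out n).length = (SS n (pr n)).card := by
  rw [← List.toFinset_card_of_nodup (nodup_out n)]
  congr 1
  ext m
  rw [List.mem_toFinset, mem_out n hn]

lemma ptf_testB : PTF (fun x : ℕ × ℕ => testB x.1 x.2) := by
  have hu : PTF (fun x : ((ℕ × ℕ) × ℕ) × ℕ => x.1.1.2) := PTF.id.fst.fst.snd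
  have hp : PTF (fun x : ((ℕ × ℕ) × ℕ) × ℕ => x.1.1.1) := PTF.id.fst.fst.fst
  have h0 : PTF (fun x : ((ℕ × ℕ) × ℕ) × ℕ => x.1.2) := PTF.id.fst.snd
  have h1 : PTF (fun x : ((ℕ × ℕ) × ℕ) × ℕ => x.2) := PTF.id.snd
  have core : PTF (fun x : ((ℕ × ℕ) × ℕ) × ℕ =>
      decide ((x.1.1.2 / (x.1.1.1 * x.1.1.1)) % x.1.1.1 =
        (x.2 + x.1.1.2 * (x.1.1.2 / x.1.1.1 + x.1.2 * (x.1.1.1 - 1))) % x.1.1.1)) :=
    PTF.eq (ptf_mod (ptf_div hu (PTF.mul hp hp)) hp)
      (ptf_mod (PTF.add h1 (PTF.mul hu (PTF.add (ptf_div hu hp)
        (PTF.mul h0 (PTF.pred hp))))) hp)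
  have inner : PTF (fun x : (ℕ × ℕ) × ℕ => [0, 1].any fun e1 =>
      decide ((x.1.2 / (x.1.1 * x.1.1)) % x.1.1 =
        (e1 + x.1.2 * (x.1.2 / x.1.1 + x.2 * (x.1.1 - 1))) % x.1.1)) :=
    PTF.any (l := fun _ => [0, 1]) (PTF.const [0, 1]) core
  exact PTF.any (l := fun _ => [0, 1]) (PTF.const [0, 1]) inner

lemma ptf_primeB : PTF (fun q : ℕ => primeB q) := by
  unfold primeB
  refine PTF.and (PTF.le (PTF.const 2) PTF.id) (PTF.all (f := fun (q : ℕ) k =>
    decide (k < 2) || !(decide (q % k = 0))) (PTF.range PTF.id) ?_)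
  exact PTF.or (PTF.lt PTF.id.snd (PTF.const 2))
    (PTF.not (PTF.eq (ptf_mod PTF.id.fst PTF.id.snd) (PTF.const 0)))

lemma ptf_prB : PTF prB := by
  have hfil : PTF (fun n : ℕ => (List.range (2 * n + 3)).filter
      fun q => primeB q && decide (n ≤ q ^ 3)) := by
    refine PTF.filter (f := fun (n : ℕ) q => primeB q && decide (n ≤ q ^ 3))
      (PTF.range (PTF.add (PTF.mul (PTF.const 2) PTF.id) (PTF.const 3))) ?_
    exact PTF.and (ptf_primeB.comp PTF.id.snd) (PTF.le PTF.id.fst (PTF.pow PTF.id.snd 3))
  have h := PTF.optCase (α := ℕ) (β := ℕ) (γ := ℕ) (n := fun _ => 0) (s := fun _ b => b)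
    (PTF.head? hfil) (PTF.const 0) PTF.id.snd
  refine h.of_eq fun n => ?_
  unfold prB
  cases ((List.range (2 * n + 3)).filter fun q => primeB q && decide (n ≤ q ^ 3)).head? <;> rfl

lemma ptf_out : PTF out := by
  unfold out
  refine PTF.map (f := fun (n : ℕ) u => 2 * n + u) (PTF.filter
    (f := fun (n : ℕ) u => testB (prB n) u) (PTF.range (PTF.mul (PTF.const 2) PTF.id)) ?_) ?_
  · exact ptf_testB.comp (PTF.pair (ptf_prB.comp PTF.id.fst) PTF.id.snd)
  · exact PTF.add (PTF.mul (PTF.const 2) PTF.id.fst) PTF.id.snd

/-- Lists of natural numbers as strings: every entry is written in unary and followed by the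
separator `false`. -/
def encodeList (l : List ℕ) : List Bool := l.flatMap fun a => List.replicate a true ++ [false]

lemma encodeList_injective : Function.Injective encodeList := by
  have key : ∀ (a b : ℕ) (u v : List Bool), List.replicate a true ++ false :: u =
      List.replicate b true ++ false :: v → a = b ∧ u = v := by
    intro a
    induction a with
    | zero =>
      intro b u v h
      cases b with
      | zero => simpa using h
      | succ b => simp [List.replicate_succ] at h
    | succ a ih =>
      intro b u v h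
      cases b with
      | zero => simp [List.replicate_succ] at h
      | succ b =>
        simp only [List.replicate_succ, List.cons_append, List.cons.injEq, true_and] at h
        obtain ⟨h1, h2⟩ := ih b u v h
        exact ⟨by rw [h1], h2⟩
  intro l
  induction l with
  | nil =>
    intro l' h
    cases l' with
    | nil => rfl
    | cons b l' => simp [encodeList] at h
  | cons a l ih =>
    intro l' h
    cases l' with
    | nil => simp [encodeList] at h
    | cons b l' =>
      simp only [encodeList, List.flatMap_cons, List.append_assoc, List.singleton_append] at h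
      obtain ⟨h1, h2⟩ := key _ _ _ _ h
      rw [h1, ih h2]

lemma unary_eq : ∀ n : ℕ, Computability.unaryEncodeNat n = List.replicate n true
  | 0 => rfl
  | n + 1 => by rw [Computability.unaryEncodeNat, unary_eq n, List.replicate_succ]

/-- The explicit set is computed in polynomial time. -/
theorem out_polyTime : Nonempty (Turing.TM2ComputableInPolyTime Computability.unaryEncodeNat
    encodeList out) := by
  apply PT.tm2 (code := fun b => [b])
  have h : PTF (fun n : ℕ => Str.ofList (encodeList (out n))) := by
    refine PTF.strOfList ?_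
    unfold encodeList
    refine PTF.flatMap (f := fun (_ : ℕ) a => List.replicate a true ++ [false]) ptf_out ?_
    refine PTF.append ?_ (PTF.const [false])
    refine (PTF.map (l := fun x : ℕ × ℕ => List.range x.2) (f := fun _ _ => true)
      (PTF.range PTF.id.snd) (PTF.const true)).of_eq fun x => ?_
    simp
  have e1 : (fun a => (Computability.unaryEncodeNat a).flatMap fun b => [b]) =
      fun a : ℕ => enc a := by
    funext a
    rw [unary_eq, enc_nat]
    exact List.flatMap_singleton' _
  rw [e1]
  exact h

end Pool.Agent.Helper85.ChoiPoly
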