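import Mathlib

/-!
# The delta- and gamma-properties of topological spaces: definitions
-/

namespace Pool.Agent.Helper85.DeltaGamma

open Set Filter

/-- An open `ω`-cover: open sets, none of them the whole space, such that every finite set of
points is contained in a member. -/
def IsOmegaCover {X : Type} [TopologicalSpace X] (𝓤 : Set (Set X)) : Prop :=
  (∀ U ∈ 𝓤, IsOpen U) ∧ (Set.univ : Set X) ∉ 𝓤 ∧ ∀ s : Set X, s.Finite → ∃ U ∈ 𝓤, s ⊆ U

/-- The limit of a sequence of sets along an ultrafilter. -/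
def plim {X : Type} (p : Ultrafilter ℕ) (Y : ℕ → Set X) : Set X := {x | {n | x ∈ Y n} ∈ p}

/-- The limes inferior of a sequence of sets. -/
def setLiminf {X : Type} (Y : ℕ → Set X) : Set X := {x | ∃ m, ∀ n, m ≤ n → x ∈ Y n}

/-- The smallest family of sets that contains `𝓤` and is closed under the operation `Lim` on
sequences of sets. -/
inductive Closure {X : Type} (Lim : (ℕ → Set X) → Set X) (𝓤 : Set (Set X)) : Set X → Prop
  | base (U : Set X) (hU : U ∈ 𝓤) : Closure Lim 𝓤 U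
  | lim (Y : ℕ → Set X) (hY : ∀ n, Closure Lim 𝓤 (Y n)) : Closure Lim 𝓤 (Lim Y)

/-- Property `δ_p`. -/
def HasDelta (X : Type) [TopologicalSpace X] (p : Ultrafilter ℕ) : Prop :=
  ∀ 𝓤 : Set (Set X), IsOmegaCover 𝓤 → Closure (plim p) 𝓤 Set.univ

/-- Property `γ_p`: every open `ω`-cover contains the members of a sequence `U` of sets such that
each point is in `U n` for `p`-almost all `n`. -/
def HasGamma (X : Type) [TopologicalSpace X] (p : Ultrafilter ℕ) : Prop :=
  ∀ 𝓤 : Set (Set X), IsOmegaCover 𝓤 →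
    ∃ U : ℕ → Set X, (∀ n, U n ∈ 𝓤) ∧ ∀ x : X, {n | x ∈ U n} ∈ p

/-- The classical (Gerlits-Nagy) delta-property. -/
def HasClassicalDelta (X : Type) [TopologicalSpace X] : Prop :=
  ∀ 𝓤 : Set (Set X), IsOmegaCover 𝓤 → Closure setLiminf 𝓤 Set.univ

/-- The classical gamma-property. -/
def HasClassicalGamma (X : Type) [TopologicalSpace X] : Prop :=
  ∀ 𝓤 : Set (Set X), IsOmegaCover 𝓤 →
    ∃ U : ℕ → Set X, (∀ n, U n ∈ 𝓤) ∧ ∀ x : X, ∃ m, ∀ n, m ≤ n → x ∈ U n

/-- A nonprincipal ultrafilter: it contains no singleton. -/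
def Nonprincipal (p : Ultrafilter ℕ) : Prop := ∀ n : ℕ, ({n} : Set ℕ) ∉ p

/-- `q` is a P-point: it is nonprincipal and every function is constant or finite-to-one on a
member of `q`. -/
def IsPPoint (q : Ultrafilter ℕ) : Prop :=
  Nonprincipal q ∧ ∀ f : ℕ → ℕ, ∃ B ∈ q, (∃ c, ∀ n ∈ B, f n = c) ∨ ∀ c, {n ∈ B | f n = c}.Finite

end Pool.Agent.Helper85.DeltaGamma
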