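import Mathlib
import Pool.Agent.Helper85.DeltaGammaDefs

/-!
# A `T₁` space with the ultrafilter delta-property for every ultrafilter which fails the
ultrafilter gamma-property at every P-point
-/

namespace Pool.Agent.Helper85.DeltaGamma

open Set Filter

/-- The tail condition: all columns from the `n`-th on are contained in `A` up to finitely many
points. -/
def Tail (n : ℕ) (A : Set (ℕ × ℕ)) : Prop := ∀ k, n ≤ k → ∃ m, ∀ l, m ≤ l → (k, l) ∈ A

/-- The points of the space: the sets of the filter dual to the ideal `Fin × Fin`, i.e. the sets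
`A ⊆ ℕ × ℕ` such that all but finitely many columns are contained in `A` up to finitely many
points. -/
structure Pt where
  /-- the set -/
  carrier : Set (ℕ × ℕ)
  /-- it belongs to the filter -/
  mem : ∃ n, Tail n carrier

/-- A set `W` of points is open if with every `A ∈ W` there are finite sets `s ⊆ A` and `E ∌ A`
such that all points `B ∉ E` with `s ⊆ B` are in `W`. -/
instance : TopologicalSpace Pt where
  IsOpen W := ∀ A ∈ W, ∃ s : Set (ℕ × ℕ), s.Finite ∧ s ⊆ A.carrier ∧ ∃ E : Set Pt, E.Finite ∧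
    A ∉ E ∧ ∀ B : Pt, s ⊆ B.carrier → B ∉ E → B ∈ W
  isOpen_univ := fun _ _ => ⟨∅, Set.finite_empty, Set.empty_subset _, ∅, Set.finite_empty,
    Set.notMem_empty _, fun _ _ _ => Set.mem_univ _⟩
  isOpen_inter := by
    intro W W' h h' A hA
    obtain ⟨s, hs, hsA, E, hE, hAE, hW⟩ := h A hA.1
    obtain ⟨s', hs', hsA', E', hE', hAE', hW'⟩ := h' A hA.2
    refine ⟨s ∪ s', hs.union hs', Set.union_subset hsA hsA', E ∪ E', hE.union hE', ?_, ?_⟩
    · rintro (h1 | h1)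
      · exact hAE h1
      · exact hAE' h1
    · intro B hB hBE
      exact ⟨hW B (fun x hx => hB (Or.inl hx)) fun h => hBE (Or.inl h),
        hW' B (fun x hx => hB (Or.inr hx)) fun h => hBE (Or.inr h)⟩
  isOpen_sUnion := by
    intro 𝒮 h A hA
    obtain ⟨W, hW, hAW⟩ := hA
    obtain ⟨s, hs, hsA, E, hE, hAE, hWW⟩ := h W hW A hAW
    exact ⟨s, hs, hsA, E, hE, hAE, fun B hB hBE => ⟨W, hW, hWW B hB hBE⟩⟩

theorem isOpen_iff (W : Set Pt) : IsOpen W ↔ ∀ A ∈ W, ∃ s : Set (ℕ × ℕ), s.Finite ∧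
    s ⊆ A.carrier ∧ ∃ E : Set Pt, E.Finite ∧ A ∉ E ∧ ∀ B : Pt, s ⊆ B.carrier → B ∉ E → B ∈ W :=
  Iff.rfl

instance : T1Space Pt where
  t1 := by
    intro x
    rw [← isOpen_compl_iff, isOpen_iff]
    intro A hA
    refine ⟨∅, Set.finite_empty, Set.empty_subset _, {x}, Set.finite_singleton x, hA, ?_⟩
    intro B _ hB
    exact hB

/-- A sequence of sets is absorbed by `Lim` if `Lim` contains the limes inferior. -/
def Absorbing (Lim : (ℕ → Set Pt) → Set Pt) : Prop := ∀ Y : ℕ → Set Pt, setLiminf Y ⊆ Lim Y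

section main

variable {Lim : (ℕ → Set Pt) → Set Pt} (hLim : Absorbing Lim) {𝓤 : Set (Set Pt)}

/-- The key notion: some set in the closure contains `𝓔` and all points outside `N` that satisfy
the `n`-th tail condition and contain `a`. -/
def Good (Lim : (ℕ → Set Pt) → Set Pt) (𝓤 : Set (Set Pt)) (𝓔 N : Set Pt) (n : ℕ)
    (a : Set (ℕ × ℕ)) : Prop :=
  ∃ Y : Set Pt, Closure Lim 𝓤 Y ∧ 𝓔 ⊆ Y ∧
    ∀ A : Pt, Tail n A.carrier → a ⊆ A.carrier → A ∉ N → A ∈ Y

/-- the part of the column `c` from height `j` on -/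
def col (c j : ℕ) : Set (ℕ × ℕ) := {x | x.1 = c ∧ j ≤ x.2}

include hLim

theorem good_of_col {𝓔 N : Set Pt} {n c : ℕ} (hc : n ≤ c) {a : Set (ℕ × ℕ)}
    (h : ∀ j, Good Lim 𝓤 𝓔 N n (a ∪ col c j)) : Good Lim 𝓤 𝓔 N n a := by
  choose Y hY hE hA using h
  refine ⟨Lim Y, Closure.lim Y hY, fun x hx => hLim Y ⟨0, fun n _ => hE n hx⟩, ?_⟩
  intro A hT ha hN
  obtain ⟨m, hm⟩ := hT c hc
  refine hLim Y ⟨m, fun j hj => hA j A hT ?_ hN⟩
  rintro x (hx | ⟨hx1, hx2⟩)
  · exact ha hx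
  · have := hm x.2 (le_trans hj hx2)
    rwa [← hx1] at this

/-- The fusion argument. -/
theorem good_empty {𝓔 N : Set Pt} {S : Set (Set (ℕ × ℕ))}
    (hS : ∀ A : Pt, ∃ s ∈ S, s.Finite ∧ s ⊆ A.carrier)
    (hleaf : ∀ s ∈ S, ∃ W ∈ 𝓤, 𝓔 ⊆ W ∧ ∀ B : Pt, s ⊆ B.carrier → B ∉ N → B ∈ W) (n : ℕ) :
    Good Lim 𝓤 𝓔 N n ∅ := by
  by_contra h0
  -- one step of the construction
  have step : ∀ (c : ℕ) (Q : Set (ℕ × ℕ)), n ≤ c → ¬ Good Lim 𝓤 𝓔 N n Q →
      ∃ j, ¬ Good Lim 𝓤 𝓔 N n (Q ∪ col c j) := by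
    intro c Q hc hQ
    by_contra hcon
    push Not at hcon
    exact hQ (good_of_col hLim hc hcon)
  choose! j hj using step
  let Q : ℕ → Set (ℕ × ℕ) := fun i => Nat.rec ∅ (fun i Q => Q ∪ col (n + i) (j (n + i) Q)) i
  have hQs : ∀ i, Q (i + 1) = Q i ∪ col (n + i) (j (n + i) (Q i)) := fun i => rfl
  have hQ : ∀ i, ¬ Good Lim 𝓤 𝓔 N n (Q i) := by
    intro i
    induction i with
    | zero => exact h0
    | succ i ih => rw [hQs]; exact hj _ _ (Nat.le_add_right _ _) ih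
  have hmono : Monotone Q := monotone_nat_of_le_succ fun i => by
    rw [hQs]; exact Set.subset_union_left
  have hT : Tail n (⋃ i, Q i) := by
    intro k hk
    obtain ⟨i, rfl⟩ := Nat.exists_eq_add_of_le hk
    refine ⟨j (n + i) (Q i), fun l hl => Set.mem_iUnion.2 ⟨i + 1, ?_⟩⟩
    rw [hQs]
    exact Or.inr ⟨rfl, hl⟩
  obtain ⟨s, hsS, hsf, hs⟩ := hS ⟨⋃ i, Q i, n, hT⟩
  -- the finite set `s` is contained in some `Q i`
  have : ∃ i, s ⊆ Q i := by
    have hx : ∀ x, x ∈ s → ∃ i, x ∈ Q i := fun x hx => Set.mem_iUnion.1 (hs hx)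
    choose! i hi using hx
    obtain ⟨b, hb⟩ := (hsf.image i).bddAbove
    exact ⟨b, fun x hx => hmono (hb (Set.mem_image_of_mem i hx)) (hi x hx)⟩
  obtain ⟨i, hi⟩ := this
  obtain ⟨W, hWU, hEW, hW⟩ := hleaf s hsS
  exact hQ i ⟨W, Closure.base W hWU, hEW, fun A _ hA hN => hW A (hi.trans hA) hN⟩

/-- The closure contains a superset of the complement of some countable set. -/
theorem exists_cocountable (h𝓤 : IsOmegaCover 𝓤) (𝓔 : Set Pt) (h𝓔 : 𝓔.Finite) :
    ∃ (Y N : Set Pt), Closure Lim 𝓤 Y ∧ 𝓔 ⊆ Y ∧ N.Countable ∧ Nᶜ ⊆ Y := by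
  let S : Set (Set (ℕ × ℕ)) := {s | s.Finite ∧ ∃ W ∈ 𝓤, 𝓔 ⊆ W ∧ ∃ E : Set Pt, E.Finite ∧
    ∀ B : Pt, s ⊆ B.carrier → B ∉ E → B ∈ W}
  have hScount : S.Countable := by
    refine Set.Countable.mono (fun s hs => hs.1) (Set.countable_ofPred_finite_subset (s := Set.univ)
      Set.countable_univ |>.mono ?_)
    intro s hs
    exact ⟨hs, Set.subset_univ s⟩
  have hSe : ∀ s ∈ S, ∃ W ∈ 𝓤, 𝓔 ⊆ W ∧ ∃ E : Set Pt, E.Finite ∧
    ∀ B : Pt, s ⊆ B.carrier → B ∉ E → B ∈ W := fun s hs => hs.2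
  choose! W hWU hEW E hE hW using hSe
  let N : Set Pt := ⋃ s ∈ S, E s
  have hN : N.Countable := hScount.biUnion fun s hs => (hE s hs).countable
  have hS : ∀ A : Pt, ∃ s ∈ S, s.Finite ∧ s ⊆ A.carrier := by
    intro A
    obtain ⟨V, hV, hAV⟩ := h𝓤.2.2 ({A} ∪ 𝓔) ((Set.finite_singleton A).union h𝓔)
    obtain ⟨s, hs, hsA, E', hE', _, hB⟩ := h𝓤.1 V hV A (hAV (Or.inl rfl))
    exact ⟨s, ⟨hs, V, hV, fun x hx => hAV (Or.inr hx), E', hE', hB⟩, hs, hsA⟩
  have hleaf : ∀ s ∈ S, ∃ W ∈ 𝓤, 𝓔 ⊆ W ∧ ∀ B : Pt, s ⊆ B.carrier → B ∉ N → B ∈ W :=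
    fun s hs => ⟨W s, hWU s hs, hEW s hs, fun B hB hBN => hW s hs B hB fun h =>
      hBN (Set.mem_biUnion hs h)⟩
  have hgood := fun n => good_empty hLim (𝓔 := 𝓔) (N := N) hS hleaf n
  choose Y hY hEY hYA using hgood
  refine ⟨Lim Y, N, Closure.lim Y hY, fun x hx => hLim Y ⟨0, fun n _ => hEY n hx⟩, hN, ?_⟩
  intro A hA
  obtain ⟨n, hn⟩ := A.mem
  exact hLim Y ⟨n, fun m hm => hYA m A (fun k hk => hn k (hm.trans hk)) (Set.empty_subset _) hA⟩

/-- The whole space is in the closure. -/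
theorem closure_univ (h𝓤 : IsOmegaCover 𝓤) : Closure Lim 𝓤 Set.univ := by
  have key := fun 𝓔 : Finset Pt =>
    exists_cocountable hLim h𝓤 (𝓔 : Set Pt) 𝓔.finite_toSet
  choose Y N hY hEY hN hNY using key
  -- a countable set closed under `N`
  let D : ℕ → Set Pt := fun i => Nat.rec ∅ (fun _ D => D ∪ ⋃ 𝓔 ∈ {𝓔 : Finset Pt | (𝓔 : Set Pt) ⊆ D},
    N 𝓔) i
  have hDs : ∀ i, D (i + 1) = D i ∪ ⋃ 𝓔 ∈ {𝓔 : Finset Pt | (𝓔 : Set Pt) ⊆ D i}, N 𝓔 :=
    fun i => rfl
  have hDc : ∀ i, (D i).Countable := by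
    intro i
    induction i with
    | zero => exact Set.countable_empty
    | succ i ih =>
      rw [hDs]
      refine ih.union (Set.Countable.biUnion ?_ fun 𝓔 _ => hN 𝓔)
      have h1 := Set.countable_ofPred_finite_subset ih
      refine (h1.preimage_of_injOn (f := fun 𝓔 : Finset Pt => (𝓔 : Set Pt)) ?_).mono ?_
      · exact Finset.coe_injective.injOn
      · intro 𝓔 h𝓔
        exact ⟨𝓔.finite_toSet, h𝓔⟩
  have hDmono : Monotone D := monotone_nat_of_le_succ fun i => by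
    rw [hDs]; exact Set.subset_union_left
  let T : Set Pt := ⋃ i, D i
  have hTc : T.Countable := Set.countable_iUnion hDc
  have hTN : ∀ 𝓔 : Finset Pt, (𝓔 : Set Pt) ⊆ T → N 𝓔 ⊆ T := by
    intro 𝓔 h𝓔
    have hx : ∀ x, x ∈ 𝓔 → ∃ i, x ∈ D i := fun x hx => Set.mem_iUnion.1 (h𝓔 hx)
    choose! i hi using hx
    obtain ⟨b, hb⟩ := (𝓔.finite_toSet.image i).bddAbove
    have hsub : (𝓔 : Set Pt) ⊆ D b := fun x hx => hDmono (hb (Set.mem_image_of_mem i hx)) (hi x hx)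
    intro x hx
    refine Set.mem_iUnion.2 ⟨b + 1, ?_⟩
    rw [hDs]
    exact Or.inr (Set.mem_biUnion (show 𝓔 ∈ {𝓔 : Finset Pt | (𝓔 : Set Pt) ⊆ D b} from hsub) hx)
  rcases T.eq_empty_or_nonempty with hT | hT
  · have h0 : N ∅ ⊆ (∅ : Set Pt) := by
      have := hTN ∅ (by simp)
      rwa [hT] at this
    have : Y ∅ = Set.univ := by
      apply Set.eq_univ_of_forall
      intro x
      exact hNY ∅ fun h => h0 h
    rw [← this]
    exact hY ∅
  · obtain ⟨d, hd⟩ := hTc.exists_eq_range hT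
    classical
    let 𝓔 : ℕ → Finset Pt := fun j => (Finset.range j).image d
    have hsub : ∀ j, (𝓔 j : Set Pt) ⊆ T := by
      intro j x hx
      simp only [𝓔, Finset.coe_image, Set.mem_image] at hx
      obtain ⟨i, _, rfl⟩ := hx
      rw [hd]; exact Set.mem_range_self i
    have huniv : Lim (fun j => Y (𝓔 j)) = Set.univ := by
      apply Set.eq_univ_of_forall
      intro x
      apply hLim
      by_cases hx : x ∈ T
      · rw [hd] at hx
        obtain ⟨i, rfl⟩ := hx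
        refine ⟨i + 1, fun j hj => hEY (𝓔 j) ?_⟩
        simp only [𝓔, Finset.coe_image, Set.mem_image, Finset.coe_range, Set.mem_Iio]
        exact ⟨i, hj, rfl⟩
      · exact ⟨0, fun j _ => hNY (𝓔 j) fun h => hx (hTN _ (hsub j) h)⟩
    rw [← huniv]
    exact Closure.lim _ fun j => hY _

end main

/-- The limes inferior is contained in the limit along a nonprincipal ultrafilter. -/
theorem absorbing_plim {p : Ultrafilter ℕ} (hp : Nonprincipal p) : Absorbing (plim p) := by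
  intro Y x hx
  obtain ⟨m, hm⟩ := hx
  have hfin : ∀ m : ℕ, {n | m ≤ n} ∈ p := by
    intro m
    induction m with
    | zero =>
      simp only [Nat.zero_le, Set.ofPred_true]
      exact Filter.univ_mem (f := (p : Filter ℕ))
    | succ m ih =>
      have h2 : ({m} : Set ℕ)ᶜ ∈ p := Ultrafilter.compl_mem_iff_notMem.2 (hp m)
      filter_upwards [ih, h2] with n hn hn2
      have : n ≠ m := hn2
      have h3 : m ≤ n := hn
      show m + 1 ≤ n
      omega
  filter_upwards [hfin m] with n hn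
  exact hm n hn

/-- The cover that is used against the gamma-properties: the points containing a given pair. -/
def badCover : Set (Set Pt) := Set.range fun x : ℕ × ℕ => {A : Pt | x ∈ A.carrier}

theorem badCover_isOmegaCover : IsOmegaCover badCover := by
  refine ⟨?_, ?_, ?_⟩
  · rintro _ ⟨x, rfl⟩
    rw [isOpen_iff]
    intro A hA
    exact ⟨{x}, Set.finite_singleton x, by simpa using hA, ∅, Set.finite_empty,
      Set.notMem_empty _, fun B hB _ => hB rfl⟩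
  · rintro ⟨x, hx⟩
    have hmem : (⟨{x}ᶜ, x.1 + 1, fun k hk => ⟨0, fun l _ h => ?_⟩⟩ : Pt) ∈
        (Set.univ : Set Pt) := Set.mem_univ _
    · rw [← hx] at hmem
      exact hmem rfl
    · have h1 : (k, l) = x := h
      have h2 : k = x.1 := by rw [← h1]
      omega
  · intro s hs
    -- all the points of `s` contain a common pair
    have h1 : ∃ n, ∀ A ∈ s, Tail n A.carrier := by
      choose! n hn using fun (A : Pt) => A.mem
      obtain ⟨b, hb⟩ := (hs.image n).bddAbove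
      exact ⟨b, fun A hA k hk => hn A k ((hb (Set.mem_image_of_mem n hA)).trans hk)⟩
    obtain ⟨n, hn⟩ := h1
    have h2 : ∃ m, ∀ A ∈ s, ∀ l, m ≤ l → (n, l) ∈ A.carrier := by
      have h3 : ∀ A ∈ s, ∃ m, ∀ l, m ≤ l → (n, l) ∈ A.carrier := fun A hA => hn A hA n le_rfl
      choose! m hm using h3
      obtain ⟨b, hb⟩ := (hs.image m).bddAbove
      exact ⟨b, fun A hA l hl => hm A hA l ((hb (Set.mem_image_of_mem m hA)).trans hl)⟩
    obtain ⟨m, hm⟩ := h2
    exact ⟨_, ⟨(n, m), rfl⟩, fun A hA => hm A hA m le_rfl⟩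

/-- A point determined by a height function. -/
def ptOf (h : ℕ → ℕ) : Pt := ⟨{x | h x.1 ≤ x.2}, 0, fun k _ => ⟨h k, fun _ hl => hl⟩⟩

/-- A point consisting of all columns from the `n`-th on. -/
def ptFrom (n : ℕ) : Pt := ⟨{x | n ≤ x.1}, n, fun _ hk => ⟨0, fun _ _ => hk⟩⟩

theorem not_hasGamma {q : Ultrafilter ℕ} (hq : IsPPoint q) : ¬ HasGamma Pt q := by
  intro hγ
  obtain ⟨U, hU, hx⟩ := hγ badCover badCover_isOmegaCover
  choose x hxU using hU
  have hmem : ∀ A : Pt, {n | x n ∈ A.carrier} ∈ q := by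
    intro A
    have := hx A
    filter_upwards [this] with n hn
    have h1 : A ∈ U n := hn
    rw [← hxU n] at h1
    exact h1
  obtain ⟨B, hB, hc | hf⟩ := hq.2 fun n => (x n).1
  · obtain ⟨c, hc⟩ := hc
    have h1 := hmem (ptFrom (c + 1))
    obtain ⟨n, hn1, hn2⟩ := q.nonempty_of_mem (Filter.inter_mem hB h1)
    have h2 : c + 1 ≤ (x n).1 := hn2
    have h3 : (x n).1 = c := hc n hn1
    omega
  · have hbd : ∀ c, ∃ m, ∀ n ∈ B, (x n).1 = c → (x n).2 < m := by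
      intro c
      obtain ⟨b, hb⟩ := ((hf c).image fun n => (x n).2).bddAbove
      exact ⟨b + 1, fun n hn hnc => Nat.lt_succ_of_le (hb (Set.mem_image_of_mem _ ⟨hn, hnc⟩))⟩
    choose h hh using hbd
    have h1 := hmem (ptOf h)
    obtain ⟨n, hn1, hn2⟩ := q.nonempty_of_mem (Filter.inter_mem hB h1)
    have h2 : h (x n).1 ≤ (x n).2 := hn2
    have h3 := hh (x n).1 n hn1 rfl
    omega

theorem not_hasClassicalGamma : ¬ HasClassicalGamma Pt := by
  intro hγ
  obtain ⟨U, hU, hx⟩ := hγ badCover badCover_isOmegaCover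
  choose x hxU using hU
  have hmem : ∀ A : Pt, ∃ m, ∀ n, m ≤ n → x n ∈ A.carrier := by
    intro A
    obtain ⟨m, hm⟩ := hx A
    refine ⟨m, fun n hn => ?_⟩
    have h1 : A ∈ U n := hm n hn
    rw [← hxU n] at h1
    exact h1
  -- every column contains only finitely many terms of the sequence
  have hbd : ∀ c, ∃ m, ∀ n, (x n).1 = c → (x n).2 < m := by
    intro c
    obtain ⟨N, hN⟩ := hmem (ptFrom (c + 1))
    obtain ⟨b, hb⟩ := ((Set.finite_lt_nat N).image fun n => (x n).2).bddAbove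
    refine ⟨b + 1, fun n hnc => Nat.lt_succ_of_le (hb (Set.mem_image_of_mem _ ?_))⟩
    by_contra hlt
    have h1 : N ≤ n := not_lt.1 hlt
    have h2 : c + 1 ≤ (x n).1 := hN n h1
    omega
  choose h hh using hbd
  obtain ⟨m, hm⟩ := hmem (ptOf h)
  have h2 : h (x m).1 ≤ (x m).2 := hm m le_rfl
  have h3 := hh (x m).1 m rfl
  omega

end Pool.Agent.Helper85.DeltaGamma
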