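import Mathlib

set_option autoImplicit false

open MeasureTheory Set Cardinal

namespace Pool.Agent.Helper85.GroupSigma

/-- The sigma-algebra generated by all additive subgroups of the reals. -/
@[reducible] def gs : MeasurableSpace ℝ :=
  MeasurableSpace.generateFrom {S : Set ℝ | ∃ G : AddSubgroup ℝ, (G : Set ℝ) = S}

lemma gs_subgroup (G : AddSubgroup ℝ) : MeasurableSet[gs] (G : Set ℝ) :=
  MeasurableSpace.measurableSet_generateFrom ⟨G, rfl⟩

/-- Preimage of `{v, -v}` under a homomorphism to a torsion free group. -/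
lemma gs_pm {K : Type*} [AddCommGroup K] [IsAddTorsionFree K] (Ψ : ℝ →+ K) (v : K) :
    MeasurableSet[gs] {x | Ψ x = v ∨ Ψ x = -v} := by
  by_cases hv : v = 0
  · have : {x | Ψ x = v ∨ Ψ x = -v} = (Ψ.ker : Set ℝ) := by
      ext x; simp [hv, AddMonoidHom.mem_ker]
    rw [this]; exact gs_subgroup _
  · have key : {x | Ψ x = v ∨ Ψ x = -v} =
        (((AddSubgroup.zmultiples v).comap Ψ : AddSubgroup ℝ) : Set ℝ) \
          ⋃ n : ℕ, (((AddSubgroup.zmultiples ((n + 2) • v)).comap Ψ : AddSubgroup ℝ) : Set ℝ) := by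
      ext x
      simp only [Set.mem_ofPred_eq, Set.mem_sdiff, SetLike.mem_coe, AddSubgroup.mem_comap, mem_iUnion,
        AddSubgroup.mem_zmultiples_iff, not_exists]
      constructor
      · intro h
        have inj : Function.Injective (fun k : ℤ => k • v) := smul_left_injective ℤ hv
        refine ⟨?_, ?_⟩
        · rcases h with h | h
          · exact ⟨1, by simp [h]⟩
          · exact ⟨-1, by simp [h]⟩
        · intro n k hk
          have h2 : k • ((n + 2) • v) = (k * ((n : ℤ) + 2)) • v := by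
            rw [mul_smul]; congr 1; rw [← natCast_zsmul]; push_cast; rfl
          rw [h2] at hk
          rcases h with h | h
          · have h3 : (k * ((n : ℤ) + 2)) • v = (1 : ℤ) • v := by rw [hk, h, one_smul]
            have h4 := inj h3
            have h5 : ((n : ℤ) + 2) ∣ 1 := ⟨k, by linarith [h4, mul_comm k ((n : ℤ) + 2)]⟩
            have := Int.le_of_dvd one_pos h5
            omega
          · have h3 : (k * ((n : ℤ) + 2)) • v = (-1 : ℤ) • v := by rw [hk, h, neg_smul, one_smul]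
            have h4 := inj h3
            have h5 : ((n : ℤ) + 2) ∣ 1 := ⟨-k, by
              have : k * ((n : ℤ) + 2) = -1 := h4
              linarith [mul_comm k ((n : ℤ) + 2)]⟩
            have := Int.le_of_dvd one_pos h5
            omega
      · rintro ⟨⟨k, hk⟩, h⟩
        -- |k| must be 1
        rcases lt_trichotomy k 0 with hk0 | hk0 | hk0
        · by_cases h1 : k = -1
          · right; rw [← hk, h1, neg_smul, one_smul]
          · exfalso
            obtain ⟨m, hm⟩ : ∃ m : ℕ, (m : ℤ) + 2 = -k := ⟨(-k - 2).toNat, by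
              rw [Int.toNat_of_nonneg (by omega)]; ring⟩
            refine h m (-1) ?_
            rw [← hk, neg_smul, one_smul, ← natCast_zsmul]
            push_cast
            rw [hm, neg_smul, neg_neg]
        · exfalso
          refine h 0 0 ?_
          rw [← hk, hk0]; simp
        · by_cases h1 : k = 1
          · left; rw [← hk, h1, one_smul]
          · exfalso
            obtain ⟨m, hm⟩ : ∃ m : ℕ, (m : ℤ) + 2 = k := ⟨(k - 2).toNat, by
              rw [Int.toNat_of_nonneg (by omega)]; ring⟩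
            refine h m 1 ?_
            rw [← hk, one_smul, ← natCast_zsmul]
            push_cast
            rw [hm]
    rw [key]
    refine MeasurableSet.diff (gs_subgroup _) (MeasurableSet.iUnion fun n => gs_subgroup _)

/-- Hamel index set. -/
abbrev ι : Set ℝ := Module.Basis.ofVectorSpaceIndex ℚ ℝ

/-- Hamel basis. -/
noncomputable abbrev bas : Module.Basis ι ℚ ℝ := Module.Basis.ofVectorSpace ℚ ℝ

lemma bas_apply (i : ι) : bas i = (i : ℝ) := by
  simp [bas]

/-- Support. -/
noncomputable def supp (x : ℝ) : Finset ι := (bas.repr x).support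

/-- Subgroup of elements with no support in `A`. -/
noncomputable def offG (A : Set ι) : AddSubgroup ℝ where
  carrier := {x | ∀ i ∈ A, bas.repr x i = 0}
  zero_mem' := by intro i _; simp
  add_mem' := by intro a b ha hb i hi; simp [ha i hi, hb i hi]
  neg_mem' := by intro a ha i hi; simp [ha i hi]

lemma mem_offG {A : Set ι} {x : ℝ} : x ∈ offG A ↔ ∀ i ∈ supp x, i ∉ A := by
  simp only [supp, Finsupp.mem_support_iff]
  constructor
  · intro h i hi hA; exact hi (h i hA)
  · intro h i hA; by_contra hi; exact h i hi hA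

/-- dyadic level maps. -/
noncomputable def lev (n : ℕ) (i : ι) : ℤ := ⌊(2:ℝ) ^ n * (i : ℝ)⌋

lemma lev_sep (i j : ι) (h : i ≠ j) : ∀ᶠ n : ℕ in Filter.atTop, lev n i ≠ lev n j := by
  have hij : 0 < |(i : ℝ) - j| := abs_pos.2 (sub_ne_zero.2 (fun h' => h (Subtype.ext h')))
  have h1 : Filter.Tendsto (fun n : ℕ => (2:ℝ) ^ n * |(i : ℝ) - j|) Filter.atTop Filter.atTop :=
    (tendsto_pow_atTop_atTop_of_one_lt (by norm_num)).atTop_mul_const hij
  filter_upwards [h1.eventually_ge_atTop 1] with n hn heq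
  have := Int.abs_sub_lt_one_of_floor_eq_floor heq
  rw [← mul_sub, abs_mul, abs_of_pos (by positivity : (0:ℝ) < 2 ^ n)] at this
  linarith

lemma lev_sep_finset (S : Finset ι) : ∃ n : ℕ, Set.InjOn (lev n) (S : Set ι) := by
  have : ∀ᶠ n : ℕ in Filter.atTop, ∀ p ∈ S ×ˢ S, p.1 ≠ p.2 → lev n p.1 ≠ lev n p.2 := by
    rw [Filter.eventually_all_finset]
    intro p _
    by_cases h : p.1 = p.2
    · exact Filter.Eventually.of_forall fun n h' => absurd h h'
    · filter_upwards [lev_sep p.1 p.2 h] with n hn _ using hn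
  obtain ⟨n, hn⟩ := this.exists
  refine ⟨n, fun i hi j hj hij => ?_⟩
  by_contra hne
  exact hn (i, j) (by simp [Finset.mem_product]; exact ⟨hi, hj⟩) hne hij

/-- `x` has at most one support point in every cell of level `n`. -/
def D (n : ℕ) : Set ℝ := {x | Set.InjOn (lev n) (supp x : Set ι)}

lemma D_eq (n : ℕ) : D n = ⋂ m : ℤ, ⋂ k : ℕ, ⋂ l : ℤ,
    ((offG {i | lev n i = m ∧ lev k i = l} : Set ℝ) ∪
      (offG {i | lev n i = m ∧ lev k i ≠ l} : Set ℝ)) := by
  ext x
  simp only [D, Set.mem_ofPred_eq, mem_iInter, mem_union, SetLike.mem_coe, mem_offG]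
  constructor
  · intro h m k l
    by_cases h1 : ∀ i ∈ supp x, ¬ (lev n i = m ∧ lev k i = l)
    · left; exact h1
    · right
      push Not at h1
      obtain ⟨i, hi, him, hil⟩ := h1
      rintro j hj ⟨hjm, hjl⟩
      have : j = i := h hj hi (by rw [hjm, him])
      exact hjl (this ▸ hil)
  · intro h i hi j hj hij
    by_contra hne
    obtain ⟨k, hk⟩ := (lev_sep i j hne).exists
    rcases h (lev n i) k (lev k i) with h' | h'
    · exact h' i hi ⟨rfl, rfl⟩
    · exact h' j hj ⟨hij.symm, fun h'' => hk h''.symm⟩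

lemma D_meas (n : ℕ) : MeasurableSet[gs] (D n) := by
  rw [D_eq]
  refine MeasurableSet.iInter fun m => MeasurableSet.iInter fun k => MeasurableSet.iInter fun l => ?_
  exact (gs_subgroup _).union (gs_subgroup _)

/-- The unique support point of `x` in the cell `m` of level `n`, as a real number
(`0` if there is none or `x ∉ D n`). -/
noncomputable def pt (n : ℕ) (m : ℤ) (x : ℝ) : ℝ :=
  open Classical in
  if h : x ∈ D n ∧ ∃ i ∈ supp x, lev n i = m then ((Classical.choose h.2 : ι) : ℝ) else 0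

lemma pt_of {n : ℕ} {m : ℤ} {x : ℝ} (hx : x ∈ D n) {i : ι} (hi : i ∈ supp x) (hm : lev n i = m) :
    pt n m x = i := by
  have h : x ∈ D n ∧ ∃ i ∈ supp x, lev n i = m := ⟨hx, i, hi, hm⟩
  have h2 := Classical.choose_spec h.2
  unfold pt
  rw [dif_pos h]
  have : Classical.choose h.2 = i := hx h2.1 hi (by rw [h2.2, hm])
  rw [this]

lemma pt_of_not {n : ℕ} {m : ℤ} {x : ℝ} (h : ¬ (x ∈ D n ∧ ∃ i ∈ supp x, lev n i = m)) :
    pt n m x = 0 := by
  unfold pt; rw [dif_neg h]

lemma pt_meas (n : ℕ) (m : ℤ) (A : Set ℝ) : MeasurableSet[gs] (pt n m ⁻¹' A) := by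
  -- `e` = points without a support point in the cell, or outside `D n`
  set e : Set ℝ := (D n)ᶜ ∪ (offG {i | lev n i = m} : Set ℝ) with he
  have em : MeasurableSet[gs] e := (D_meas n).compl.union (gs_subgroup _)
  have key : pt n m ⁻¹' A = (e ∩ {x | (0:ℝ) ∈ A}) ∪
      (((offG {i | lev n i = m ∧ (i : ℝ) ∉ A}) : Set ℝ) \ e) := by
    ext x
    by_cases hx : x ∈ e
    · have : ¬ (x ∈ D n ∧ ∃ i ∈ supp x, lev n i = m) := by
        rintro ⟨h1, i, hi, him⟩
        rcases hx with hx | hx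
        · exact hx h1
        · rw [SetLike.mem_coe, mem_offG] at hx
          exact hx i hi him
      simp only [mem_preimage, pt_of_not this, mem_union, mem_inter_iff, hx, Set.mem_ofPred_eq, true_and,
        Set.mem_sdiff, not_true, and_false, or_false]
    · have hx' := hx
      rw [he, mem_union, not_or, mem_compl_iff, not_not, SetLike.mem_coe, mem_offG] at hx'
      obtain ⟨hD, h2⟩ := hx'
      push Not at h2
      obtain ⟨i, hi, him⟩ := h2
      have him' : lev n i = m := him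
      simp only [mem_preimage, mem_union, mem_inter_iff, hx, false_and, false_or, Set.mem_sdiff,
        not_false_eq_true, and_true, SetLike.mem_coe, mem_offG, Set.mem_ofPred_eq, not_and, not_not]
      rw [pt_of hD hi him']
      constructor
      · intro h j hj hjm
        have : j = i := hD hj hi (by rw [hjm, him'])
        rw [this]; exact h
      · intro h; exact h i hi him'
  rw [key]
  refine ((em.inter ?_)).union ((gs_subgroup _).diff em)
  by_cases h0 : (0:ℝ) ∈ A
  · simp [h0]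
  · simp [h0]

/-- Push forward of coefficients to level `n`. -/
noncomputable def S (n : ℕ) : ℝ →+ (ℤ →₀ ℚ) :=
  (Finsupp.mapDomain.addMonoidHom (lev n)).comp (bas.repr : ℝ →+ (ι →₀ ℚ))

lemma S_apply (n : ℕ) (x : ℝ) : S n x = Finsupp.mapDomain (lev n) (bas.repr x) := rfl

lemma S_cell {n : ℕ} {x : ℝ} (hx : x ∈ D n) {i : ι} (hi : i ∈ supp x) :
    S n x (lev n i) = bas.repr x i := by
  rw [S_apply]
  exact Finsupp.mapDomain_apply' (supp x : Set ι) _ (by simp [supp]) hx hi

/-- reconstruction. -/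
lemma recon {n : ℕ} {x : ℝ} (hx : x ∈ D n) :
    x = ∑ m ∈ (S n x).support, ((S n x m : ℚ) : ℝ) * pt n m x := by
  classical
  have h1 : x = ∑ i ∈ supp x, bas.repr x i • bas i := by
    conv_lhs => rw [← bas.linearCombination_repr x]
    rw [Finsupp.linearCombination_apply, Finsupp.sum]; rfl
  have h2 : (S n x).support = (supp x).image (lev n) := by
    rw [S_apply]
    ext m
    constructor
    · intro h
      exact Finsupp.mapDomain_support h
    · intro h
      obtain ⟨i, hi, rfl⟩ := Finset.mem_image.1 h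
      rw [Finsupp.mem_support_iff]
      have := S_cell hx hi
      rw [S_apply] at this
      rw [this]
      exact Finsupp.mem_support_iff.1 hi
  rw [h2, Finset.sum_image (fun i hi j hj h => hx hi hj h)]
  conv_lhs => rw [h1]
  refine Finset.sum_congr rfl fun i hi => ?_
  rw [S_cell hx hi, pt_of hx hi rfl, bas_apply, Rat.smul_def]

lemma pt_mem {n : ℕ} {x : ℝ} (hx : x ∈ D n) {m : ℤ} (hm : S n x m ≠ 0) :
    ∃ i ∈ supp x, lev n i = m ∧ pt n m x = (i : ℝ) := by
  classical
  have h1 : m ∈ (S n x).support := Finsupp.mem_support_iff.2 hm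
  rw [S_apply] at h1
  have h2 := Finsupp.mapDomain_support h1
  obtain ⟨i, hi, him⟩ := Finset.mem_image.1 h2
  exact ⟨i, hi, him, pt_of hx hi him⟩

/-- Core lemma: a symmetric set all of whose Hamel preimages lie in the box sigma-algebra is in
the sigma-algebra generated by the subgroups. -/
lemma core (Z : Set ℝ) (hZ : ∀ z ∈ Z, -z ∈ Z)
    (h : ∀ (M : Finset ℤ) (q : M → ℚ), (∀ j, q j ≠ 0) →
      MeasurableSet[@MeasurableSpace.pi M (fun _ => ℝ) (fun _ => ⊤)]
        {f : M → ℝ | (∀ j, f j ∈ ι) ∧ Function.Injective f ∧ ∑ j, ((q j : ℚ) : ℝ) * f j ∈ Z}) :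
    MeasurableSet[gs] Z := by
  classical
  have key : Z = ⋃ n : ℕ, ⋃ v : (ℤ →₀ ℚ), (D n ∩ {x | S n x = v ∨ S n x = -v}) ∩
      (fun x => (fun m : v.support => pt n m x)) ⁻¹'
        {f : v.support → ℝ | (∀ j, f j ∈ ι) ∧ Function.Injective f ∧
          ∑ j : v.support, ((v j : ℚ) : ℝ) * f j ∈ Z} := by
    have aux : ∀ (n : ℕ) (v : ℤ →₀ ℚ) (x : ℝ), x ∈ D n → (S n x = v ∨ S n x = -v) →
        ((∀ j : v.support, pt n j x ∈ ι) ∧
          Function.Injective (fun m : v.support => pt n m x)) ∧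
        ((∑ j : v.support, ((v j : ℚ) : ℝ) * pt n j x = x) ∨
          (∑ j : v.support, ((v j : ℚ) : ℝ) * pt n j x = -x)) := by
      intro n v x hx hv
      have hne : ∀ j : v.support, S n x j ≠ 0 := by
        intro j
        have hj := Finsupp.mem_support_iff.1 j.2
        rcases hv with hv | hv
        · rw [hv]; exact hj
        · rw [hv]; simpa using hj
      refine ⟨⟨?_, ?_⟩, ?_⟩
      · intro j
        obtain ⟨i, _, _, hi⟩ := pt_mem hx (hne j)
        rw [hi]; exact i.2
      · intro j k hjk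
        obtain ⟨i, _, hi1, hi2⟩ := pt_mem hx (hne j)
        obtain ⟨i', _, hi1', hi2'⟩ := pt_mem hx (hne k)
        simp only [hi2, hi2'] at hjk
        have : i = i' := Subtype.ext hjk
        exact Subtype.ext (by rw [← hi1, ← hi1', this])
      · have hr := recon hx
        have hsum : ∀ w : ℤ →₀ ℚ, ∑ j : w.support, ((w j : ℚ) : ℝ) * pt n j x =
            ∑ m ∈ w.support, ((w m : ℚ) : ℝ) * pt n m x := fun w =>
          Finset.sum_coe_sort w.support (fun m => ((w m : ℚ) : ℝ) * pt n m x)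
        rw [hsum]
        rcases hv with hv | hv
        · left; rw [← hv]; exact hr.symm
        · right
          rw [hv] at hr
          rw [Finsupp.support_neg] at hr
          conv_rhs => rw [hr]
          rw [← Finset.sum_neg_distrib]
          refine Finset.sum_congr rfl fun m _ => ?_
          simp
    ext x
    simp only [mem_iUnion, mem_inter_iff, mem_preimage, Set.mem_ofPred_eq]
    constructor
    · intro hx
      obtain ⟨n, hn⟩ := lev_sep_finset (supp x)
      have hn' : x ∈ D n := hn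
      refine ⟨n, S n x, ⟨hn', Or.inl rfl⟩, ?_⟩
      obtain ⟨⟨h1, h2⟩, h3⟩ := aux n (S n x) x hn' (Or.inl rfl)
      refine ⟨h1, h2, ?_⟩
      rcases h3 with h3 | h3
      · rw [h3]; exact hx
      · rw [h3]; exact hZ x hx
    · rintro ⟨n, v, ⟨hx, hv⟩, _, _, h3⟩
      obtain ⟨_, h4⟩ := aux n v x hx hv
      rcases h4 with h4 | h4
      · rwa [h4] at h3
      · rw [h4] at h3; simpa using hZ _ h3
  rw [key]
  refine MeasurableSet.iUnion fun n => MeasurableSet.iUnion fun v => ?_
  refine ((D_meas n).inter (gs_pm (S n) v)).inter ?_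
  have hm : @Measurable ℝ (v.support → ℝ) gs
      (@MeasurableSpace.pi v.support (fun _ => ℝ) (fun _ => ⊤))
      (fun x => (fun m : v.support => pt n m x)) := by
    refine @measurable_pi_lambda _ _ _ gs (fun _ => ⊤) _ fun m => ?_
    intro A _
    exact pt_meas n m A
  exact hm (h v.support (fun j => v j) (fun j => Finsupp.mem_support_iff.1 j.2))

/-- Rectangle property at cardinal `κ`: every subset of `X × X` with `#X ≤ κ` is in the
product of the two power set sigma-algebras. -/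
def RectProp (κ : Cardinal.{0}) : Prop :=
  ∀ X : Set ℝ, #X ≤ κ → ∀ E : Set (ℝ × ℝ), E ⊆ X ×ˢ X →
    MeasurableSet[@Prod.instMeasurableSpace ℝ ℝ ⊤ ⊤] E

lemma exists_inj (k : ℕ) : ∃ u : (Fin k → ℝ) → ℝ, Function.Injective u := by
  have h : #(Fin k → ℝ) ≤ #ℝ := by
    rw [← Cardinal.power_def, Cardinal.mk_fin, Cardinal.mk_real]
    exact Cardinal.power_nat_le Cardinal.aleph0_le_continuum
  obtain ⟨e⟩ := h
  exact ⟨e, e.injective⟩

lemma card_pow (k : ℕ) (κ : Cardinal.{0}) (hκ : ℵ₀ ≤ κ) (X : Set ℝ) (hX : #X ≤ κ) :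
    #{f : Fin k → ℝ | ∀ j, f j ∈ X} ≤ κ := by
  have h1 : #{f : Fin k → ℝ | ∀ j, f j ∈ X} ≤ #(Fin k → X) := by
    refine ⟨⟨fun f j => ⟨f.1 j, f.2 j⟩, fun f g h => Subtype.ext (funext fun j => ?_)⟩⟩
    have := congrFun h j
    exact congrArg Subtype.val this
  refine h1.trans ?_
  rw [← Cardinal.power_def, Cardinal.mk_fin]
  calc #X ^ (k : Cardinal) ≤ κ ^ (k : Cardinal) := Cardinal.power_le_power_right hX
    _ ≤ κ := Cardinal.power_nat_le hκ

lemma box_meas (k : ℕ) (X : Set ℝ) :
    MeasurableSet[@MeasurableSpace.pi (Fin k) (fun _ => ℝ) (fun _ => ⊤)]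
      {f : Fin k → ℝ | ∀ j, f j ∈ X} := by
  have : {f : Fin k → ℝ | ∀ j, f j ∈ X} = ⋂ j, (fun f : Fin k → ℝ => f j) ⁻¹' X := by
    ext f; simp
  rw [this]
  refine MeasurableSet.iInter fun j => ?_
  exact (@measurable_pi_apply (Fin k) (fun _ => ℝ) (fun _ => ⊤) j) trivial

lemma pow_rect (κ : Cardinal.{0}) (hκ : ℵ₀ ≤ κ) (H : RectProp κ) (k : ℕ) (X : Set ℝ)
    (hX : #X ≤ κ) (E : Set (Fin k → ℝ)) (hE : ∀ f ∈ E, ∀ j, f j ∈ X) :
    MeasurableSet[@MeasurableSpace.pi (Fin k) (fun _ => ℝ) (fun _ => ⊤)] E := by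
  classical
  induction k with
  | zero => exact Subsingleton.measurableSet
  | succ k ih =>
    obtain ⟨u, hu⟩ := exists_inj k
    set XK : Set (Fin k → ℝ) := {f | ∀ j, f j ∈ X} with hXK
    have cXK : #XK ≤ κ := card_pow k κ hκ X hX
    -- truncated injection
    let u' : (Fin k → ℝ) → ℝ := fun f => if f ∈ XK then u f else 0
    have mu' : @Measurable (Fin k → ℝ) ℝ (@MeasurableSpace.pi (Fin k) (fun _ => ℝ) (fun _ => ⊤)) ⊤
        u' := by
      intro A _
      have : u' ⁻¹' A = (XK ∩ u ⁻¹' A) ∪ (XKᶜ ∩ {f | (0:ℝ) ∈ A}) := by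
        ext f
        by_cases hf : f ∈ XK
        · simp [u', hf]
        · simp [u', hf]
      rw [this]
      refine (ih (XK ∩ u ⁻¹' A) fun f hf => hf.1).union ((box_meas k X).compl.inter ?_)
      by_cases h0 : (0:ℝ) ∈ A
      · simp [h0]
      · simp [h0]
    let Φ : (Fin (k+1) → ℝ) → ℝ × ℝ := fun f => (f 0, u' (Fin.tail f))
    have mΦ : @Measurable _ _ (@MeasurableSpace.pi (Fin (k+1)) (fun _ => ℝ) (fun _ => ⊤))
        (@Prod.instMeasurableSpace ℝ ℝ ⊤ ⊤) Φ := by
      refine @Measurable.prodMk (Fin (k+1) → ℝ) _ ℝ ℝ ⊤ ⊤ _ _ ?_ ?_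
      · exact @measurable_pi_apply _ _ (fun _ => ⊤) 0
      · have h1 : @Measurable (Fin (k+1) → ℝ) (Fin k → ℝ)
            (@MeasurableSpace.pi (Fin (k+1)) (fun _ => ℝ) (fun _ => ⊤))
            (@MeasurableSpace.pi (Fin k) (fun _ => ℝ) (fun _ => ⊤)) (fun f => Fin.tail f) := by
          refine @measurable_pi_lambda _ _ _ (@MeasurableSpace.pi (Fin (k+1)) (fun _ => ℝ)
            (fun _ => ⊤)) (fun _ => ⊤) _ fun j => ?_
          exact @measurable_pi_apply _ _ (fun _ => ⊤) j.succ
        intro A hA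
        exact h1 (mu' hA)
    set X' : Set ℝ := X ∪ u' '' XK with hX'
    have cX' : #X' ≤ κ := by
      refine (Cardinal.mk_union_le _ _).trans ?_
      refine (add_le_add hX (Cardinal.mk_image_le.trans cXK)).trans ?_
      rw [Cardinal.add_eq_self hκ]
    have mE' := H X' cX' (Φ '' E) (by
      rintro _ ⟨f, hf, rfl⟩
      have hf' := hE f hf
      refine ⟨Or.inl (hf' 0), Or.inr ⟨Fin.tail f, fun j => hf' j.succ, rfl⟩⟩)
    have : E = {f | ∀ j, f j ∈ X} ∩ Φ ⁻¹' (Φ '' E) := by
      ext f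
      constructor
      · intro hf; exact ⟨hE f hf, f, hf, rfl⟩
      · rintro ⟨hf, g, hg, hgf⟩
        have hg' := hE g hg
        have h1 : g 0 = f 0 := congrArg Prod.fst hgf
        have h2 : u' (Fin.tail g) = u' (Fin.tail f) := congrArg Prod.snd hgf
        have h3 : Fin.tail g ∈ XK := fun j => hg' j.succ
        have h4 : Fin.tail f ∈ XK := fun j => hf j.succ
        simp only [u', h3, h4, if_true] at h2
        have h5 := hu h2
        have : g = f := by
          rw [← Fin.cons_self_tail g, ← Fin.cons_self_tail f, h1, h5]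
        rwa [← this]
    rw [this]
    exact (box_meas (k+1) X).inter (mΦ mE')

/-- `pow_rect` for an arbitrary finite index type. -/
lemma pow_rect' (κ : Cardinal.{0}) (hκ : ℵ₀ ≤ κ) (H : RectProp κ) (J : Type) [Fintype J]
    (X : Set ℝ) (hX : #X ≤ κ) (E : Set (J → ℝ)) (hE : ∀ f ∈ E, ∀ j, f j ∈ X) :
    MeasurableSet[@MeasurableSpace.pi J (fun _ => ℝ) (fun _ => ⊤)] E := by
  let e := (Fintype.equivFin J).symm
  have h1 := pow_rect κ hκ H (Fintype.card J) X hX {g | g ∘ e.symm ∈ E} (by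
    intro g hg j
    have := hE _ hg (e j)
    simpa using this)
  have h2 : @Measurable (J → ℝ) (Fin (Fintype.card J) → ℝ)
      (@MeasurableSpace.pi J (fun _ => ℝ) (fun _ => ⊤))
      (@MeasurableSpace.pi (Fin (Fintype.card J)) (fun _ => ℝ) (fun _ => ⊤))
      (fun f => f ∘ e) := by
    refine @measurable_pi_lambda _ _ _ (@MeasurableSpace.pi J (fun _ => ℝ)
      (fun _ => ⊤)) (fun _ => ⊤) _ fun j => ?_
    exact @measurable_pi_apply _ _ (fun _ => ⊤) (e j)
  have h3 : E = (fun f : J → ℝ => f ∘ e) ⁻¹' {g | g ∘ e.symm ∈ E} := by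
    ext f
    simp [Function.comp_assoc]
  rw [h3]
  exact h2 h1

lemma rect_eq : MeasurableSpace.generateFrom {R : Set (ℝ × ℝ) | ∃ A B : Set ℝ, R = A ×ˢ B} =
    @Prod.instMeasurableSpace ℝ ℝ ⊤ ⊤ := by
  rw [← @generateFrom_prod ℝ ℝ ⊤ ⊤]
  congr 1
  ext R
  constructor
  · rintro ⟨A, B, rfl⟩
    exact ⟨A, trivial, B, trivial, rfl⟩
  · rintro ⟨A, _, B, _, rfl⟩
    exact ⟨A, B, rfl⟩

/-- Sets determined by distinct Hamel basis elements. -/
lemma supp_sum {J : Type} [Fintype J] (q : J → ℚ) (hq : ∀ j, q j ≠ 0) (f : J → ℝ)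
    (hf : ∀ j, f j ∈ ι) (hinj : Function.Injective f) (j : J) :
    (⟨f j, hf j⟩ : ι) ∈ supp (∑ j, ((q j : ℚ) : ℝ) * f j) := by
  classical
  have h1 : (∑ j, ((q j : ℚ) : ℝ) * f j) = ∑ j, q j • bas ⟨f j, hf j⟩ := by
    refine Finset.sum_congr rfl fun j _ => ?_
    rw [bas_apply, Rat.smul_def]
  rw [supp, Finsupp.mem_support_iff, h1, map_sum, Finsupp.finsetSum_apply]
  rw [Finset.sum_eq_single j]
  · rw [map_smul, bas.repr_self, Finsupp.smul_apply, Finsupp.single_eq_same]
    simpa using hq j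
  · intro k _ hkj
    have : (⟨f j, hf j⟩ : ι) ≠ ⟨f k, hf k⟩ := fun h => hkj (hinj (congrArg Subtype.val h)).symm
    rw [map_smul, bas.repr_self, Finsupp.smul_apply, Finsupp.single_eq_of_ne this, smul_zero]
  · intro h; exact absurd (Finset.mem_univ j) h

/-- If the rectangle property holds at the infinite cardinal `κ` then every symmetric set of
cardinality at most `κ` is in the sigma-algebra generated by the additive subgroups. -/
theorem symm_of_rect (κ : Cardinal.{0}) (hκ : ℵ₀ ≤ κ) (H : RectProp κ) (Z : Set ℝ)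
    (hc : #Z ≤ κ) (hZ : ∀ z ∈ Z, -z ∈ Z) : MeasurableSet[gs] Z := by
  classical
  refine core Z hZ fun M q hq => ?_
  set X : Set ℝ := ⋃ z : Z, (Subtype.val '' (supp (z : ℝ) : Set ι)) with hX
  have cX : #X ≤ κ := by
    refine (Cardinal.mk_iUnion_le_sum_mk).trans ?_
    refine (Cardinal.sum_le_sum _ (fun _ => ℵ₀) fun z => ?_).trans ?_
    · refine (Cardinal.mk_image_le).trans ?_
      simp
    · rw [Cardinal.sum_const']
      calc #Z * ℵ₀ ≤ κ * κ := mul_le_mul' hc hκ
        _ = κ := Cardinal.mul_eq_self hκ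
  refine pow_rect' κ hκ H M X cX _ ?_
  rintro f ⟨h1, h2, h3⟩ j
  rw [hX, mem_iUnion]
  refine ⟨⟨_, h3⟩, ⟨f j, h1 j⟩, ?_, rfl⟩
  exact supp_sum q hq f h1 h2 j

/-- If all symmetric sets of size at most `κ` are in the sigma-algebra generated by the additive
subgroups then the rectangle property holds at `κ`. -/
theorem rect_of_symm (κ : Cardinal.{0}) (hκ : ℵ₀ ≤ κ)
    (H : ∀ Z : Set ℝ, #Z ≤ κ → (∀ z ∈ Z, -z ∈ Z) → MeasurableSet[gs] Z) : RectProp κ := by
  classical
  intro X hX E hE
  -- two injections with disjoint ranges into the Hamel basis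
  have hι : #ι = continuum := by
    have := bas.mk_eq_rank''
    rw [this, Real.rank_rat_real]
  obtain ⟨e⟩ : Nonempty (ℝ ⊕ ℝ ≃ ι) := by
    rw [← Cardinal.eq, hι]
    simp [Cardinal.mk_real]
  let p : ℝ → ℝ := fun x => (e (Sum.inl x) : ℝ)
  let r : ℝ → ℝ := fun x => (e (Sum.inr x) : ℝ)
  let Z : Set ℝ := {z | ∃ w ∈ E, z = p w.1 + r w.2 ∨ z = -(p w.1 + r w.2)}
  have hp : ∀ x, p x = bas (e (Sum.inl x)) := fun x => (bas_apply _).symm
  have hr : ∀ x, r x = bas (e (Sum.inr x)) := fun x => (bas_apply _).symm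
  have hZc : #Z ≤ κ := by
    have h1 : Z = ((fun w : ℝ × ℝ => p w.1 + r w.2) '' E) ∪
        ((fun w : ℝ × ℝ => -(p w.1 + r w.2)) '' E) := by
      ext z
      simp only [Z, Set.mem_ofPred_eq, mem_union, mem_image]
      constructor
      · rintro ⟨w, hw, h | h⟩
        · exact Or.inl ⟨w, hw, h.symm⟩
        · exact Or.inr ⟨w, hw, h.symm⟩
      · rintro (⟨w, hw, h⟩ | ⟨w, hw, h⟩)
        · exact ⟨w, hw, Or.inl h.symm⟩
        · exact ⟨w, hw, Or.inr h.symm⟩
    have hEc : #E ≤ κ := by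
      refine (Cardinal.mk_le_mk_of_subset hE).trans ?_
      rw [Cardinal.mk_congr (Equiv.Set.prod X X), Cardinal.mk_prod, Cardinal.lift_id]
      exact (mul_le_mul' hX hX).trans (Cardinal.mul_eq_self hκ).le
    rw [h1]
    refine (Cardinal.mk_union_le _ _).trans ?_
    refine (add_le_add (Cardinal.mk_image_le.trans hEc) (Cardinal.mk_image_le.trans hEc)).trans ?_
    rw [Cardinal.add_eq_self hκ]
  have hZs : ∀ z ∈ Z, -z ∈ Z := by
    rintro z ⟨w, hw, h | h⟩
    · exact ⟨w, hw, Or.inr (by rw [h])⟩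
    · exact ⟨w, hw, Or.inl (by rw [h, neg_neg])⟩
  have mZ := H Z hZc hZs
  let J : ℝ × ℝ → ℝ := fun w => p w.1 + r w.2
  have hJ : E = J ⁻¹' Z := by
    ext w
    constructor
    · intro hw; exact ⟨w, hw, Or.inl rfl⟩
    · rintro ⟨w', hw', h⟩
      -- compare coordinates
      have rep : ∀ u : ℝ × ℝ, bas.repr (p u.1 + r u.2) =
          Finsupp.single (e (Sum.inl u.1)) 1 + Finsupp.single (e (Sum.inr u.2)) 1 := by
        intro u
        rw [hp, hr, map_add, bas.repr_self, bas.repr_self]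
      have hval1 : bas.repr (J w) (e (Sum.inl w.1)) = 1 := by
        simp only [J]
        rw [rep w]
        simp
      have hval2 : bas.repr (J w) (e (Sum.inr w.2)) = 1 := by
        simp only [J]
        rw [rep w]
        simp
      have hpos : ∀ i, 0 ≤ bas.repr (p w'.1 + r w'.2) i := by
        intro i
        rw [rep w']
        simp only [Finsupp.add_apply, Finsupp.single_apply]
        positivity
      rcases h with h | h
      · rw [h, rep w'] at hval1 hval2
        simp only [Finsupp.add_apply, Finsupp.single_apply, EmbeddingLike.apply_eq_iff_eq,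
          Sum.inl.injEq, Sum.inr.injEq, reduceCtorEq, if_false, add_zero, zero_add] at hval1 hval2
        have e1 : w'.1 = w.1 := by
          by_contra hne; simp [hne] at hval1
        have e2 : w'.2 = w.2 := by
          by_contra hne; simp [hne] at hval2
        have : w' = w := Prod.ext e1 e2
        rwa [← this]
      · exfalso
        rw [h, map_neg, Finsupp.neg_apply] at hval1
        have := hpos (e (Sum.inl w.1))
        linarith
  rw [hJ]
  have mJ : @Measurable (ℝ × ℝ) ℝ (@Prod.instMeasurableSpace ℝ ℝ ⊤ ⊤) gs J := by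
    refine @measurable_generateFrom _ _ (@Prod.instMeasurableSpace ℝ ℝ ⊤ ⊤) _ _ ?_
    rintro _ ⟨G, rfl⟩
    -- choose representatives of cosets
    let out : ℝ → ℝ := fun x => (Quotient.out (QuotientAddGroup.mk x : ℝ ⧸ G))
    have hout : ∀ x y, out x = out y ↔ (QuotientAddGroup.mk x : ℝ ⧸ G) = QuotientAddGroup.mk y := by
      intro x y
      constructor
      · intro h
        have := congrArg (fun t : ℝ => (QuotientAddGroup.mk t : ℝ ⧸ G)) h
        simpa [out] using this
      · intro h; simp only [out, h]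
    have hset : J ⁻¹' (G : Set ℝ) = {w : ℝ × ℝ | out (-(p w.1)) = out (r w.2)} := by
      ext w
      simp only [mem_preimage, SetLike.mem_coe, Set.mem_ofPred_eq, hout, J]
      rw [QuotientAddGroup.eq]
      simp
    rw [hset]
    refine @measurableSet_eq_fun _ _ (@Prod.instMeasurableSpace ℝ ℝ ⊤ ⊤) _ _ _ _ ?_ ?_
    · have h1 : @Measurable ℝ ℝ ⊤ _ (fun x => out (-(p x))) := fun _ _ => trivial
      intro A hA
      exact (@measurable_fst ℝ ℝ ⊤ ⊤) (h1 hA)
    · have h1 : @Measurable ℝ ℝ ⊤ _ (fun x => out (r x)) := fun _ _ => trivial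
      intro A hA
      exact (@measurable_snd ℝ ℝ ⊤ ⊤) (h1 hA)
  exact mJ mZ

/-- One half of a set with countable sections. -/
lemma half_meas (E : Set (ℝ × ℝ)) (h : ∀ a : ℝ, {b | (a, b) ∈ E}.Countable) :
    MeasurableSet[@Prod.instMeasurableSpace ℝ ℝ ⊤ ⊤] E := by
  classical
  have h1 : ∀ a : ℝ, ∃ f : ℕ → ℝ, {b | (a, b) ∈ E} ⊆ range f := fun a =>
    Set.countable_iff_exists_subset_range.1 (h a)
  choose e he using h1
  have key : E = ⋃ n : ℕ, ({w : ℝ × ℝ | w.2 = e w.1 n} ∩ Prod.fst ⁻¹' {a | (a, e a n) ∈ E}) := by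
    ext ⟨a, b⟩
    simp only [mem_iUnion, mem_inter_iff, Set.mem_ofPred_eq, mem_preimage]
    constructor
    · intro hw
      obtain ⟨n, hn⟩ := he a hw
      exact ⟨n, hn.symm, by rw [hn]; exact hw⟩
    · rintro ⟨n, hn, h2⟩
      rw [hn]; exact h2
  rw [key]
  refine MeasurableSet.iUnion fun n => MeasurableSet.inter ?_ ?_
  · refine @measurableSet_eq_fun _ _ (@Prod.instMeasurableSpace ℝ ℝ ⊤ ⊤) _ _ _ _ ?_ ?_
    · have h1 : @Measurable ℝ ℝ ⊤ _ (fun x => x) := fun _ _ => trivial
      intro A hA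
      exact (@measurable_snd ℝ ℝ ⊤ ⊤) (h1 hA)
    · have h1 : @Measurable ℝ ℝ ⊤ _ (fun x => e x n) := fun _ _ => trivial
      intro A hA
      exact (@measurable_fst ℝ ℝ ⊤ ⊤) (h1 hA)
  · exact (@measurable_fst ℝ ℝ ⊤ ⊤) trivial

/-- The rectangle property holds at `ℵ₁` (in ZFC). -/
theorem rect_aleph_one : RectProp (Cardinal.aleph 1) := by
  classical
  intro X hX E hE
  have hW : #X ≤ #((Cardinal.aleph 1).ord.ToType) := by
    rw [Cardinal.mk_ord_toType]; exact hX
  obtain ⟨o⟩ := hW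
  have hcount : ∀ i : (Cardinal.aleph 1).ord.ToType, (Set.Iic i).Countable := by
    intro i
    rw [← Set.Iio_insert]
    refine Set.Countable.insert _ ?_
    have h1 : #(Set.Iio i) < Cardinal.aleph 1 := by
      have := Cardinal.mk_Iio_lt i (by simp)
      simpa using this
    rw [← Cardinal.le_aleph0_iff_set_countable]
    have h2 : Cardinal.aleph 1 = Order.succ ℵ₀ := Cardinal.succ_aleph0.symm
    exact Order.lt_succ_iff.1 (lt_of_lt_of_eq h1 h2)
  have hsec : ∀ a : ℝ, ∀ ha : a ∈ X, {b | ∃ hb : b ∈ X, o ⟨b, hb⟩ ≤ o ⟨a, ha⟩}.Countable := by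
    intro a ha
    have h1 : {b : X | o b ≤ o ⟨a, ha⟩}.Countable :=
      (hcount (o ⟨a, ha⟩)).preimage o.injective
    refine (h1.image Subtype.val).mono ?_
    rintro b ⟨hb, h⟩
    exact ⟨⟨b, hb⟩, h, rfl⟩
  set E1 : Set (ℝ × ℝ) := {w | ∃ h : w ∈ E, o ⟨w.2, (hE h).2⟩ ≤ o ⟨w.1, (hE h).1⟩} with hE1
  set E2 : Set (ℝ × ℝ) := {w | ∃ h : w ∈ E, o ⟨w.1, (hE h).1⟩ ≤ o ⟨w.2, (hE h).2⟩} with hE2
  have h1 : MeasurableSet[@Prod.instMeasurableSpace ℝ ℝ ⊤ ⊤] E1 := by
    refine half_meas E1 fun a => ?_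
    by_cases ha : a ∈ X
    · refine (hsec a ha).mono ?_
      rintro b ⟨hw, h⟩
      exact ⟨(hE hw).2, h⟩
    · convert Set.countable_empty (α := ℝ)
      ext b
      simp only [Set.mem_ofPred_eq, mem_empty_iff_false, iff_false]
      rintro ⟨hw, _⟩
      exact ha (hE hw).1
  have h2 : MeasurableSet[@Prod.instMeasurableSpace ℝ ℝ ⊤ ⊤] (Prod.swap ⁻¹' E2) := by
    refine half_meas _ fun a => ?_
    by_cases ha : a ∈ X
    · refine (hsec a ha).mono ?_
      rintro b ⟨hw, h⟩
      exact ⟨(hE hw).1, h⟩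
    · convert Set.countable_empty (α := ℝ)
      ext b
      simp only [Set.mem_ofPred_eq, mem_empty_iff_false, iff_false]
      rintro ⟨hw, _⟩
      exact ha (hE hw).2
  have h3 : E = E1 ∪ Prod.swap ⁻¹' (Prod.swap ⁻¹' E2) := by
    ext w
    constructor
    · intro hw
      rcases le_total (o ⟨w.2, (hE hw).2⟩) (o ⟨w.1, (hE hw).1⟩) with h | h
      · exact Or.inl ⟨hw, h⟩
      · exact Or.inr ⟨hw, h⟩
    · rintro (⟨hw, _⟩ | ⟨hw, _⟩)
      · exact hw
      · exact hw
  rw [h3]
  exact h1.union ((@measurable_swap ℝ ℝ ⊤ ⊤) h2)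

end Pool.Agent.Helper85.GroupSigma
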