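import Mathlib
import Pool.Agent.Helper85.GroupSigma

set_option autoImplicit false

/-!
The rectangle property holds up to the pseudointersection number `𝔭`.
-/

open MeasureTheory Set Cardinal

namespace Pool.Agent.Helper85.GroupSigma

/-- All intersections of finitely many members of `A` are infinite. -/
def StrongFIP (A : Set (Set ℕ)) : Prop :=
  ∀ F : Set (Set ℕ), F ⊆ A → F.Finite → (⋂₀ F).Infinite

/-- Some infinite set is almost contained in every member of `A`. -/
def HasPseudo (A : Set (Set ℕ)) : Prop :=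
  ∃ P : Set ℕ, P.Infinite ∧ ∀ S ∈ A, (P \ S).Finite

/-- The pseudointersection number `𝔭`: the least cardinality of a family of sets of natural
numbers that has the strong finite intersection property and no infinite pseudointersection. -/
noncomputable def pNumber : Cardinal.{0} :=
  sInf {k | ∃ A : Set (Set ℕ), #A = k ∧ StrongFIP A ∧ ¬ HasPseudo A}

lemma bad_nonempty :
    {k : Cardinal.{0} | ∃ A : Set (Set ℕ), #A = k ∧ StrongFIP A ∧ ¬ HasPseudo A}.Nonempty := by
  classical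
  refine ⟨_, {S : Set ℕ | S ∈ Filter.hyperfilter ℕ}, rfl, ?_, ?_⟩
  · intro F hF hfin
    have h1 : ⋂₀ F ∈ Filter.hyperfilter ℕ := (Filter.sInter_mem hfin).2 hF
    exact fun hf => hf.notMem_hyperfilter h1
  · rintro ⟨P, hP, h⟩
    obtain ⟨Q, hQ, hQi, hQi'⟩ : ∃ Q ⊆ P, Q.Infinite ∧ (P \ Q).Infinite := by
      let e := Nat.nth (· ∈ P)
      have hmem : ∀ n, e n ∈ P := fun n => Nat.nth_mem_of_infinite hP n
      have hinj : Function.Injective e := (Nat.nth_strictMono hP).injective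
      refine ⟨e '' {n | Even n}, ?_, ?_, ?_⟩
      · rintro _ ⟨n, _, rfl⟩; exact hmem n
      · refine Set.Infinite.image hinj.injOn ?_
        exact Set.infinite_of_injective_forall_mem (f := fun n : ℕ => 2 * n)
          (fun a b h => by simpa using h) (fun n => by simp)
      · have h2 : (e '' {n | ¬ Even n}).Infinite := by
          refine Set.Infinite.image hinj.injOn ?_
          exact Set.infinite_of_injective_forall_mem (f := fun n : ℕ => 2 * n + 1)
            (fun a b h => by simpa using h) (fun n => by simp)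
        refine h2.mono ?_
        rintro _ ⟨n, hn, rfl⟩
        refine ⟨hmem n, ?_⟩
        rintro ⟨m, hm, h3⟩
        exact hn (hinj h3 ▸ hm)
    rcases (Filter.hyperfilter ℕ).mem_or_compl_mem Q with h1 | h1
    · exact hQi' (h Q h1)
    · have h2 := h Qᶜ h1
      have h3 : P \ Qᶜ = Q := by
        ext x
        simp only [mem_sdiff, mem_compl_iff, not_not]
        exact ⟨fun h => h.2, fun h => ⟨hQ h, h⟩⟩
      rw [h3] at h2
      exact hQi h2

/-- Families smaller than `𝔭` have pseudointersections (indexed version, over any countable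
infinite set). -/
lemma exists_pseudo {C I : Type} [Countable C] [Infinite C] (A : I → Set C) (hI : #I < pNumber)
    (h : ∀ F : Finset I, (⋂ i ∈ F, A i).Infinite) :
    ∃ P : Set C, P.Infinite ∧ ∀ i, (P \ A i).Finite := by
  classical
  obtain ⟨e⟩ : Nonempty (C ≃ ℕ) := by
    have := Encodable.ofCountable C
    have : Denumerable C := Denumerable.ofEncodableOfInfinite C
    exact ⟨Denumerable.eqv C⟩
  have h1 : ¬ (StrongFIP (range fun i => e '' A i) ∧ ¬ HasPseudo (range fun i => e '' A i)) := by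
    intro hbad
    have h2 : #(range fun i => e '' A i) < pNumber := Cardinal.mk_range_le.trans_lt hI
    exact notMem_of_lt_csInf h2 (OrderBot.bddBelow _) ⟨_, rfl, hbad⟩
  rw [not_and, not_not] at h1
  obtain ⟨P, hP, hPA⟩ := h1 (by
    intro F hF hfin
    obtain ⟨G, hG, hGF⟩ : ∃ G : Finset I, True ∧ ∀ S ∈ F, ∃ i ∈ G, e '' A i = S := by
      have h3 : ∀ S : F, ∃ i, e '' A i = S := fun S => hF S.2
      choose g hg using h3
      have := hfin.fintype
      refine ⟨Finset.univ.image g, trivial, fun S hS => ⟨g ⟨S, hS⟩, ?_, hg ⟨S, hS⟩⟩⟩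
      exact Finset.mem_image_of_mem _ (Finset.mem_univ _)
    have h4 : e '' (⋂ i ∈ G, A i) ⊆ ⋂₀ F := by
      rintro _ ⟨c, hc, rfl⟩
      rw [mem_sInter]
      intro S hS
      obtain ⟨i, hi, rfl⟩ := hGF S hS
      rw [mem_iInter₂] at hc
      exact ⟨c, hc i hi, rfl⟩
    exact ((h G).image e.injective.injOn).mono h4)
  refine ⟨e ⁻¹' P, hP.preimage (by rw [e.surjective.range_eq]; exact subset_univ _), fun i => ?_⟩
  have h5 := hPA _ ⟨i, rfl⟩
  refine (h5.preimage e.injective.injOn).subset ?_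
  rintro c ⟨h6, h7⟩
  refine ⟨h6, ?_⟩
  rintro ⟨c', hc', h8⟩
  exact h7 (e.injective h8 ▸ hc')

lemma aleph_one_le_pNumber : Cardinal.aleph 1 ≤ pNumber := by
  classical
  refine le_csInf bad_nonempty ?_
  rintro k ⟨A, rfl, hA1, hA2⟩
  by_contra hlt
  rw [not_le, ← Cardinal.succ_aleph0, Order.lt_succ_iff, Cardinal.le_aleph0_iff_set_countable]
    at hlt
  apply hA2
  rcases A.eq_empty_or_nonempty with rfl | hne
  · exact ⟨univ, infinite_univ, by simp⟩
  · obtain ⟨f, hf⟩ := hlt.exists_eq_range hne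
    -- diagonal choice
    have h1 : ∀ n : ℕ, ∃ m : ℕ, n < m ∧ ∀ k ≤ n, m ∈ f k := by
      intro n
      have h2 : (⋂₀ (f '' Iic n)).Infinite := by
        refine hA1 _ ?_ ((finite_Iic n).image f)
        rintro _ ⟨k, _, rfl⟩
        rw [hf]; exact ⟨k, rfl⟩
      obtain ⟨m, hm, hnm⟩ := h2.exists_gt n
      refine ⟨m, hnm, fun k hk => ?_⟩
      rw [mem_sInter] at hm
      exact hm _ ⟨k, hk, rfl⟩
    choose g hg1 hg2 using h1
    refine ⟨range g, ?_, ?_⟩
    · refine Set.infinite_of_forall_exists_gt fun n => ?_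
      exact ⟨g n, ⟨n, rfl⟩, hg1 n⟩
    · intro S hS
      rw [hf] at hS
      obtain ⟨k, rfl⟩ := hS
      refine ((finite_Iio k).image g).subset ?_
      rintro _ ⟨⟨n, rfl⟩, hn⟩
      refine ⟨n, ?_, rfl⟩
      by_contra hkn
      exact hn (hg2 n k (not_lt.1 hkn))

lemma aleph0_lt_pNumber : ℵ₀ < pNumber :=
  (Cardinal.aleph0_lt_aleph_one).trans_le aleph_one_le_pNumber

/-- Fewer than `𝔭` functions are eventually strictly dominated. -/
lemma exists_dominating {I : Type} (f : I → ℕ → ℕ) (hI : #I < pNumber) :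
    ∃ g : ℕ → ℕ, ∀ i, ∀ᶠ n in Filter.atTop, f i n < g n := by
  classical
  obtain ⟨A, hA⟩ : ∃ A : I ⊕ ℕ → Set (List ℕ), A = Sum.elim
      (fun i => {s : List ℕ | ∀ n, ∀ h : n < s.length, f i n < s[n]})
      (fun m => {s : List ℕ | m ≤ s.length}) := ⟨_, rfl⟩
  have hI2 : #(I ⊕ ℕ) < pNumber := by
    rw [Cardinal.mk_sum, Cardinal.lift_id, Cardinal.lift_id, Cardinal.mk_nat]
    exact Cardinal.add_lt_of_lt aleph0_lt_pNumber.le hI aleph0_lt_pNumber
  have hfip : ∀ F : Finset (I ⊕ ℕ), (⋂ i ∈ F, A i).Infinite := by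
    intro F
    -- a bound for the length and a function above all
    obtain ⟨M, hM⟩ : ∃ M : ℕ, ∀ m, Sum.inr m ∈ F → m ≤ M := by
      refine ⟨F.sup (fun x => Sum.elim (fun _ => 0) id x), fun m hm => ?_⟩
      exact Finset.le_sup (f := fun x : I ⊕ ℕ => Sum.elim (fun _ => 0) id x) hm
    obtain ⟨g, hg⟩ : ∃ g : ℕ → ℕ, ∀ i, Sum.inl i ∈ F → ∀ n, f i n < g n := by
      refine ⟨fun n => F.sup (fun x => Sum.elim (fun i => f i n) (fun _ => 0) x) + 1,
        fun i hi n => Nat.lt_succ_of_le ?_⟩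
      exact Finset.le_sup (f := fun x : I ⊕ ℕ => Sum.elim (fun i => f i n) (fun _ => 0) x) hi
    refine Set.infinite_of_injective_forall_mem (f := fun k : ℕ => (List.range (M + k)).map g)
      ?_ ?_
    · intro a b hab
      have := congrArg List.length hab
      simpa using this
    · intro k
      rw [mem_iInter₂]
      rintro (i | m) hx
      · rw [hA]
        simp only [Sum.elim_inl, Set.mem_ofPred_eq, List.length_map, List.length_range]
        intro n hn
        simpa using hg i hx n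
      · rw [hA]
        simp only [Sum.elim_inr, Set.mem_ofPred_eq, List.length_map, List.length_range]
        have := hM m hx
        omega
  obtain ⟨P, hP, hPA⟩ := exists_pseudo A hI2 hfip
  have h1 : ∀ n : ℕ, ∃ s ∈ P, n < s.length ∧ n ≤ Encodable.encode s := by
    intro n
    have h2 := hPA (Sum.inr (n + 1))
    have h3 : {s : List ℕ | Encodable.encode s < n}.Finite :=
      (finite_Iio n).preimage (Encodable.encode_injective.injOn)
    obtain ⟨s, hs, hs2⟩ := (hP.sdiff (h2.union h3)).nonempty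
    rw [mem_union, not_or] at hs2
    refine ⟨s, hs, ?_, ?_⟩
    · have h4 : s ∈ A (Sum.inr (n + 1)) := by
        by_contra h5
        exact hs2.1 ⟨hs, h5⟩
      rw [hA] at h4
      exact h4
    · exact not_lt.1 hs2.2
  choose s hsP hsl hse using h1
  refine ⟨fun n => (s n)[n]'(hsl n), fun i => ?_⟩
  obtain ⟨K, hK⟩ : ∃ K : ℕ, ∀ t ∈ P \ A (Sum.inl i), Encodable.encode t ≤ K := by
    obtain ⟨K, hK⟩ := ((hPA (Sum.inl i)).image Encodable.encode).bddAbove
    exact ⟨K, fun t ht => hK ⟨t, ht, rfl⟩⟩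
  filter_upwards [Filter.eventually_gt_atTop K] with n hn
  have h2 : s n ∈ A (Sum.inl i) := by
    by_contra h3
    have := hK (s n) ⟨hsP n, h3⟩
    have := hse n
    omega
  rw [hA] at h2
  exact h2 n (hsl n)

/-- A strictly increasing chain of functions of length `𝔭`. -/
lemma exists_chain : ∃ f : pNumber.ord.ToType → ℕ → ℕ, ∀ i j, i < j →
    ∀ᶠ n in Filter.atTop, f i n < f j n := by
  classical
  have hsmall : ∀ j : pNumber.ord.ToType, #(Iio j) < pNumber := by
    intro j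
    have := Cardinal.mk_Iio_lt j (by simp)
    simpa using this
  let step : ∀ j : pNumber.ord.ToType, (∀ i : pNumber.ord.ToType, i < j → ℕ → ℕ) → ℕ → ℕ :=
    fun j prev => Classical.choose (exists_dominating (I := Iio j) (fun i => prev i.1 i.2)
      (hsmall j))
  have hstep : ∀ j prev, ∀ i : Iio j, ∀ᶠ n in Filter.atTop, prev i.1 i.2 n < step j prev n :=
    fun j prev => Classical.choose_spec (exists_dominating (I := Iio j)
      (fun i => prev i.1 i.2) (hsmall j))
  let f : pNumber.ord.ToType → ℕ → ℕ := (wellFounded_lt (α := pNumber.ord.ToType)).fix step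
  have hf : ∀ j, f j = step j (fun i _ => f i) := fun j =>
    (wellFounded_lt (α := pNumber.ord.ToType)).fix_eq step j
  refine ⟨f, fun i j hij => ?_⟩
  rw [hf j]
  exact hstep j (fun i _ => f i) ⟨i, hij⟩

/-- Distinct reals are in different dyadic cells eventually. -/
lemma cell_sep (x y : ℝ) (h : x ≠ y) :
    ∀ᶠ n : ℕ in Filter.atTop, ⌊(2 : ℝ) ^ n * x⌋ ≠ ⌊(2 : ℝ) ^ n * y⌋ := by
  have h1 : 0 < |x - y| := abs_pos.2 (sub_ne_zero.2 h)
  have h2 : Filter.Tendsto (fun n : ℕ => (2 : ℝ) ^ n) Filter.atTop Filter.atTop :=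
    tendsto_pow_atTop_atTop_of_one_lt (by norm_num)
  filter_upwards [h2.eventually_gt_atTop (1 / |x - y|)] with n hn heq
  have h3 : |(2 : ℝ) ^ n * x - (2 : ℝ) ^ n * y| < 1 := Int.abs_sub_lt_one_of_floor_eq_floor heq
  rw [← mul_sub, abs_mul, abs_of_pos (by positivity : (0 : ℝ) < 2 ^ n)] at h3
  rw [div_lt_iff₀ h1] at hn
  linarith

/-- Fewer than `𝔭` reals: every subset is coded by a set of cells. -/
lemma exists_code {B : Type} (β : B → ℝ) (hβ : Function.Injective β) (hB : #B < pNumber)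
    (Y : Set B) : ∃ D : Set (ℕ × ℤ), ∀ b, b ∈ Y ↔
      ∃ᶠ n : ℕ in Filter.atTop, (n, ⌊(2 : ℝ) ^ n * β b⌋) ∈ D := by
  classical
  obtain ⟨c, hc⟩ : ∃ c : B → ℕ → ℤ, c = fun b n => ⌊(2 : ℝ) ^ n * β b⌋ := ⟨_, rfl⟩
  have hcs : ∀ b b' : B, b ≠ b' → ∀ᶠ n in Filter.atTop, c b n ≠ c b' n := by
    intro b b' hne
    rw [hc]
    exact cell_sep _ _ (fun h => hne (hβ h))
  obtain ⟨A, hA⟩ : ∃ A : (B ⊕ (B × ℕ)) → Set (Finset (ℕ × ℤ)), A = Sum.elim
      (fun b => {s | b ∉ Y → ∀ n, (n, c b n) ∉ s})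
      (fun p => {s | p.1 ∈ Y → ∃ n, p.2 ≤ n ∧ (n, c p.1 n) ∈ s}) := ⟨_, rfl⟩
  have hI : #(B ⊕ (B × ℕ)) < pNumber := by
    rw [Cardinal.mk_sum, Cardinal.lift_id, Cardinal.lift_id, Cardinal.mk_prod, Cardinal.lift_id,
      Cardinal.lift_id, Cardinal.mk_nat]
    exact Cardinal.add_lt_of_lt aleph0_lt_pNumber.le hB
      (Cardinal.mul_lt_of_lt aleph0_lt_pNumber.le hB aleph0_lt_pNumber)
  have hfip : ∀ F : Finset (B ⊕ (B × ℕ)), (⋂ i ∈ F, A i).Infinite := by
    intro F
    -- finitely many points outside Y, finitely many points of Y with levels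
    obtain ⟨G, hG⟩ : ∃ G : Finset B, ∀ b, Sum.inl b ∈ F → b ∈ G :=
      ⟨F.biUnion (fun x => Sum.elim (fun b => {b}) (fun _ => ∅) x), fun b hb =>
        Finset.mem_biUnion.2 ⟨_, hb, by simp⟩⟩
    obtain ⟨G', hG'⟩ : ∃ G' : Finset (B × ℕ), ∀ p, Sum.inr p ∈ F → p ∈ G' :=
      ⟨F.biUnion (fun x => Sum.elim (fun _ => ∅) (fun p => {p}) x), fun b hb =>
        Finset.mem_biUnion.2 ⟨_, hb, by simp⟩⟩
    have hev : ∀ᶠ n in Filter.atTop, ∀ b ∈ G, ∀ p ∈ G', b ≠ p.1 → c b n ≠ c p.1 n := by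
      rw [Filter.eventually_all_finset]
      intro b _
      rw [Filter.eventually_all_finset]
      intro p _
      by_cases hbp : b = p.1
      · exact Filter.Eventually.of_forall fun n h => absurd hbp h
      · filter_upwards [hcs b p.1 hbp] with n hn _
        exact hn
    have hev2 : ∀ᶠ n in Filter.atTop, ∀ p ∈ G', p.2 ≤ n := by
      rw [Filter.eventually_all_finset]
      intro p _
      exact Filter.eventually_ge_atTop p.2
    obtain ⟨N, hN⟩ := Filter.eventually_atTop.1 (hev.and hev2)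
    -- an integer above all cells
    have hz : ∀ n : ℕ, ∃ z : ℤ, ∀ b ∈ G, c b n < z := by
      intro n
      refine ⟨(∑ b ∈ G, |c b n|) + 1, fun b hb => ?_⟩
      have h1 : |c b n| ≤ ∑ b ∈ G, |c b n| :=
        Finset.single_le_sum (f := fun b => |c b n|) (fun i _ => abs_nonneg _) hb
      have h2 := le_abs_self (c b n)
      omega
    choose z hz using hz
    refine Set.infinite_of_injective_forall_mem (f := fun k : ℕ =>
      insert (N + k, z (N + k)) ((G'.filter (fun p => p.1 ∈ Y)).image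
        (fun p => (N + k, c p.1 (N + k))))) ?_ ?_
    · intro a b hab
      have h1 : (N + a, z (N + a)) ∈ insert (N + b, z (N + b))
          ((G'.filter (fun p => p.1 ∈ Y)).image (fun p => (N + b, c p.1 (N + b)))) := by
        have hab' : insert (N + a, z (N + a)) ((G'.filter (fun p => p.1 ∈ Y)).image
            (fun p => (N + a, c p.1 (N + a)))) = insert (N + b, z (N + b))
            ((G'.filter (fun p => p.1 ∈ Y)).image (fun p => (N + b, c p.1 (N + b)))) := hab
        rw [← hab']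
        exact Finset.mem_insert_self _ _
      rw [Finset.mem_insert, Finset.mem_image] at h1
      rcases h1 with h1 | ⟨p, _, h1⟩
      · have := congrArg Prod.fst h1
        simp only at this
        omega
      · have := congrArg Prod.fst h1
        simp only at this
        omega
    · intro k
      rw [mem_iInter₂]
      rintro (b | p) hx
      · rw [hA]
        simp only [Sum.elim_inl, Set.mem_ofPred_eq]
        intro hbY n hn
        rw [Finset.mem_insert, Finset.mem_image] at hn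
        rcases hn with hn | ⟨p, hp, hn⟩
        · rw [Prod.mk.injEq] at hn
          have h2 := hz (N + k) b (hG b hx)
          rw [← hn.1] at h2
          rw [← hn.1] at hn
          have h3 := hn.2
          omega
        · rw [Prod.mk.injEq] at hn
          rw [Finset.mem_filter] at hp
          have hne : b ≠ p.1 := fun h => hbY (h ▸ hp.2)
          have h2 := (hN (N + k) (by omega)).1 b (hG b hx) p hp.1 hne
          obtain ⟨h5, h6⟩ := hn
          rw [← h5] at h6
          exact h2 h6.symm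
      · rw [hA]
        simp only [Sum.elim_inr, Set.mem_ofPred_eq]
        intro hpY
        refine ⟨N + k, (hN (N + k) (by omega)).2 p (hG' p hx), ?_⟩
        refine Finset.mem_insert_of_mem (Finset.mem_image.2 ⟨p, ?_, rfl⟩)
        exact Finset.mem_filter.2 ⟨hG' p hx, hpY⟩
  obtain ⟨P, hP, hPA⟩ := exists_pseudo A hI hfip
  refine ⟨{x | ∃ s ∈ P, x ∈ s}, fun b => ?_⟩
  have hcb : ∀ n : ℕ, ⌊(2 : ℝ) ^ n * β b⌋ = c b n := fun n => by rw [hc]
  constructor
  · intro hb
    rw [Filter.frequently_atTop]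
    intro m
    obtain ⟨s, hs, hs2⟩ := (hP.sdiff (hPA (Sum.inr (b, m)))).nonempty
    have h1 : s ∈ A (Sum.inr (b, m)) := by
      by_contra h2
      exact hs2 ⟨hs, h2⟩
    rw [hA] at h1
    obtain ⟨n, hmn, hn⟩ := h1 hb
    refine ⟨n, hmn, s, hs, ?_⟩
    rw [hcb]
    exact hn
  · intro h
    by_contra hb
    apply h
    -- only finitely many members of P meet the branch
    have h1 : (⋃ s ∈ P \ A (Sum.inl b), (↑(s.image Prod.fst) : Set ℕ)).Finite :=
      (hPA (Sum.inl b)).biUnion fun s _ => Finset.finite_toSet _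
    obtain ⟨K, hK⟩ := h1.bddAbove
    filter_upwards [Filter.eventually_gt_atTop K] with n hn
    rintro ⟨s, hs, hns⟩
    have h2 : s ∉ A (Sum.inl b) := by
      intro h3
      rw [hA] at h3
      refine h3 hb n ?_
      rw [← hcb]
      exact hns
    have h3 : n ∈ (⋃ s ∈ P \ A (Sum.inl b), (↑(s.image Prod.fst) : Set ℕ)) := by
      rw [mem_iUnion₂]
      refine ⟨s, ⟨hs, h2⟩, ?_⟩
      rw [Finset.mem_coe, Finset.mem_image]
      exact ⟨_, hns, rfl⟩
    have := hK h3
    omega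

/-- The half of `E` below the diagonal of a well-ordering of length at most `𝔭`. -/
lemma half_meas_p (X : Set ℝ) (o : X ↪ pNumber.ord.ToType) (E : Set (ℝ × ℝ))
    (hE : ∀ w ∈ E, ∃ h1 : w.1 ∈ X, ∃ h2 : w.2 ∈ X, o ⟨w.2, h2⟩ ≤ o ⟨w.1, h1⟩) :
    MeasurableSet[@Prod.instMeasurableSpace ℝ ℝ ⊤ ⊤] E := by
  classical
  obtain ⟨f, hf⟩ := exists_chain
  -- codes of the sections
  have hsmall : ∀ a : X, #{b : X | o b ≤ o a} < pNumber := by
    intro a
    have h1 : #{b : X | o b ≤ o a} ≤ #(Iic (o a)) := by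
      refine Cardinal.mk_le_of_injective (f := fun b => (⟨o b.1, b.2⟩ : Iic (o a))) ?_
      intro b b' h
      have := congrArg Subtype.val h
      exact Subtype.ext (o.injective this)
    refine h1.trans_lt ?_
    rw [← Set.Iio_insert]
    refine (Cardinal.mk_insert_le).trans_lt ?_
    have h2 : #(Iio (o a)) < pNumber := by
      have := Cardinal.mk_Iio_lt (o a) (by simp)
      simpa using this
    exact Cardinal.add_lt_of_lt aleph0_lt_pNumber.le h2
      (lt_trans Cardinal.one_lt_aleph0 aleph0_lt_pNumber)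
  have hcode : ∀ a : X, ∃ D : Set (ℕ × ℤ), ∀ b : X, o b ≤ o a →
      (((a : ℝ), (b : ℝ)) ∈ E ↔ ∃ᶠ n : ℕ in Filter.atTop, (n, ⌊(2 : ℝ) ^ n * (b : ℝ)⌋) ∈ D) := by
    intro a
    obtain ⟨D, hD⟩ := exists_code (B := {b : X | o b ≤ o a}) (fun b => (b.1 : ℝ))
      (fun b b' h => Subtype.ext (Subtype.ext h)) (hsmall a)
      {b | ((a : ℝ), (b.1 : ℝ)) ∈ E}
    exact ⟨D, fun b hb => hD ⟨b, hb⟩⟩
  choose D hD using hcode
  let D' : ℝ → Set (ℕ × ℤ) := fun a => if h : a ∈ X then D ⟨a, h⟩ else ∅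
  let f' : ℝ → ℕ → ℕ := fun a => if h : a ∈ X then f (o ⟨a, h⟩) else fun _ => 0
  have key : E = ((Prod.fst ⁻¹' X ∩ Prod.snd ⁻¹' X) ∩
      (⋃ m : ℕ, ⋂ n : ℕ, ⋂ _ : m ≤ n, {w : ℝ × ℝ | f' w.2 n ≤ f' w.1 n})) ∩
      (⋂ m : ℕ, ⋃ n : ℕ, ⋃ _ : m ≤ n, ⋃ z : ℤ,
        (Prod.fst ⁻¹' {a | (n, z) ∈ D' a} ∩ Prod.snd ⁻¹' {b : ℝ | ⌊(2 : ℝ) ^ n * b⌋ = z})) := by
    ext ⟨a, b⟩
    simp only [mem_inter_iff, mem_preimage, mem_iUnion, mem_iInter, Set.mem_ofPred_eq,
      exists_prop]
    constructor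
    · intro hw
      obtain ⟨h1, h2, h3⟩ := hE _ hw
      refine ⟨⟨⟨h1, h2⟩, ?_⟩, ?_⟩
      · simp only [f', dif_pos h1, dif_pos h2]
        rcases h3.eq_or_lt with h4 | h4
        · exact ⟨0, fun n _ => by rw [h4]⟩
        · obtain ⟨m, hm⟩ := Filter.eventually_atTop.1 (hf _ _ h4)
          exact ⟨m, fun n hn => (hm n hn).le⟩
      · intro m
        have h4 := (hD ⟨a, h1⟩ ⟨b, h2⟩ h3).1 hw
        rw [Filter.frequently_atTop] at h4
        obtain ⟨n, hmn, hn⟩ := h4 m
        refine ⟨n, hmn, _, ?_, rfl⟩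
        simp only [D', dif_pos h1]
        exact hn
    · rintro ⟨⟨⟨h1, h2⟩, m, hm⟩, h5⟩
      simp only [f', dif_pos h1, dif_pos h2] at hm
      have h3 : o ⟨b, h2⟩ ≤ o ⟨a, h1⟩ := by
        by_contra h4
        rw [not_le] at h4
        obtain ⟨m', hm'⟩ := Filter.eventually_atTop.1 (hf _ _ h4)
        have h6 := hm (max m m') (le_max_left _ _)
        have h7 := hm' (max m m') (le_max_right _ _)
        omega
      rw [hD ⟨a, h1⟩ ⟨b, h2⟩ h3, Filter.frequently_atTop]
      intro k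
      obtain ⟨n, hkn, z, hz, hz2⟩ := h5 k
      refine ⟨n, hkn, ?_⟩
      simp only [D', dif_pos h1] at hz
      rw [hz2]
      exact hz
  rw [key]
  have mf : ∀ A : Set ℝ, MeasurableSet[@Prod.instMeasurableSpace ℝ ℝ ⊤ ⊤]
      (Prod.fst ⁻¹' A : Set (ℝ × ℝ)) := fun A => (@measurable_fst ℝ ℝ ⊤ ⊤) trivial
  have ms : ∀ A : Set ℝ, MeasurableSet[@Prod.instMeasurableSpace ℝ ℝ ⊤ ⊤]
      (Prod.snd ⁻¹' A : Set (ℝ × ℝ)) := fun A => (@measurable_snd ℝ ℝ ⊤ ⊤) trivial
  refine MeasurableSet.inter (MeasurableSet.inter ((mf X).inter (ms X)) ?_) ?_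
  · refine MeasurableSet.iUnion fun m => MeasurableSet.iInter fun n => MeasurableSet.iInter
      fun _ => ?_
    have h1 : {w : ℝ × ℝ | f' w.2 n ≤ f' w.1 n} =
        ⋃ k : ℕ, (Prod.fst ⁻¹' {a | f' a n = k} ∩ Prod.snd ⁻¹' {b | f' b n ≤ k}) := by
      ext ⟨a, b⟩
      simp only [Set.mem_ofPred_eq, mem_iUnion, mem_inter_iff, mem_preimage]
      constructor
      · intro h; exact ⟨_, rfl, h⟩
      · rintro ⟨k, h2, h3⟩; rw [h2]; exact h3
    rw [h1]
    exact MeasurableSet.iUnion fun k => (mf _).inter (ms _)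
  · exact MeasurableSet.iInter fun m => MeasurableSet.iUnion fun n => MeasurableSet.iUnion
      fun _ => MeasurableSet.iUnion fun z => (mf _).inter (ms _)

/-- The rectangle property holds at `𝔭`. -/
theorem rect_pNumber : RectProp pNumber := by
  classical
  intro X hX E hE
  have hW : #X ≤ #(pNumber.ord.ToType) := by
    rw [Cardinal.mk_ord_toType]; exact hX
  obtain ⟨o⟩ := hW
  set E1 : Set (ℝ × ℝ) := {w | ∃ h : w ∈ E, o ⟨w.2, (hE h).2⟩ ≤ o ⟨w.1, (hE h).1⟩} with hE1
  set E2 : Set (ℝ × ℝ) := {w | ∃ h : w ∈ E, o ⟨w.1, (hE h).1⟩ ≤ o ⟨w.2, (hE h).2⟩} with hE2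
  have h1 : MeasurableSet[@Prod.instMeasurableSpace ℝ ℝ ⊤ ⊤] E1 := by
    refine half_meas_p X o E1 ?_
    rintro w ⟨hw, h⟩
    exact ⟨(hE hw).1, (hE hw).2, h⟩
  have h2 : MeasurableSet[@Prod.instMeasurableSpace ℝ ℝ ⊤ ⊤] (Prod.swap ⁻¹' E2) := by
    refine half_meas_p X o _ ?_
    rintro w ⟨hw, h⟩
    exact ⟨(hE hw).2, (hE hw).1, h⟩
  have h3 : E = E1 ∪ Prod.swap ⁻¹' (Prod.swap ⁻¹' E2) := by
    ext w
    constructor
    · intro hw
      rcases le_total (o ⟨w.2, (hE hw).2⟩) (o ⟨w.1, (hE hw).1⟩) with h | h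
      · exact Or.inl ⟨hw, h⟩
      · exact Or.inr ⟨hw, h⟩
    · rintro (⟨hw, _⟩ | ⟨hw, _⟩)
      · exact hw
      · exact hw
  rw [h3]
  exact h1.union ((@measurable_swap ℝ ℝ ⊤ ⊤) h2)

/-- Every symmetric set of at most `𝔭` reals is in the sigma-algebra generated by the additive
subgroups. -/
theorem symm_pNumber (Z : Set ℝ) (hc : #Z ≤ pNumber) (hZ : ∀ z ∈ Z, -z ∈ Z) :
    MeasurableSet[gs] Z :=
  symm_of_rect pNumber aleph0_lt_pNumber.le rect_pNumber Z hc hZ

end Pool.Agent.Helper85.GroupSigma
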