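import Mathlib
import Pool.Agent.Helper85.GroupSigma

set_option autoImplicit false

/-!
A cardinal arithmetic obstruction to the rectangle property (after Rothberger, and
Bing, Bledsoe and Mauldin): if `cf (2 ^ lam) ≤ 2 ^ ℵ₀ < 2 ^ lam` then the rectangle property fails
at `cf (2 ^ lam)`.
-/

namespace Pool.Agent.Helper85.GroupSigma

open Set Cardinal MeasureTheory

/-- Sections of a member of the rectangle sigma-algebra lie in one countably generated
sigma-algebra. -/
lemma sections_cg {α : Type} (u : α → ℝ) (E : Set (ℝ × ℝ))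
    (hE : MeasurableSet[@Prod.instMeasurableSpace ℝ ℝ ⊤ ⊤] E) :
    ∃ a : ℕ → Set α, ∀ y : ℝ,
      MeasurableSet[MeasurableSpace.generateFrom (range a)] {x : α | (u x, y) ∈ E} := by
  rw [← rect_eq] at hE
  refine MeasurableSpace.generateFrom_induction _
    (fun E _ => ∃ a : ℕ → Set α, ∀ y : ℝ,
      MeasurableSet[MeasurableSpace.generateFrom (range a)] {x : α | (u x, y) ∈ E})
    ?_ ?_ ?_ ?_ E hE
  · rintro t ⟨A, B, rfl⟩ _
    refine ⟨fun _ => u ⁻¹' A, fun y => ?_⟩
    by_cases hy : y ∈ B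
    · have h1 : {x : α | (u x, y) ∈ A ×ˢ B} = u ⁻¹' A := by
        ext x
        simp [hy]
      rw [h1]
      exact MeasurableSpace.measurableSet_generateFrom ⟨0, rfl⟩
    · have h1 : {x : α | (u x, y) ∈ A ×ˢ B} = ∅ := by
        ext x
        simp [hy]
      rw [h1]
      exact @MeasurableSet.empty _ (MeasurableSpace.generateFrom _)
  · refine ⟨fun _ => ∅, fun y => ?_⟩
    have h1 : {x : α | (u x, y) ∈ (∅ : Set (ℝ × ℝ))} = ∅ := by
      ext x
      simp
    rw [h1]
    exact @MeasurableSet.empty _ (MeasurableSpace.generateFrom _)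
  · rintro t _ ⟨a, ha⟩
    refine ⟨a, fun y => ?_⟩
    exact (ha y).compl
  · intro s _ h
    choose a ha using h
    refine ⟨fun k => a (Nat.unpair k).1 (Nat.unpair k).2, fun y => ?_⟩
    have h1 : {x : α | (u x, y) ∈ ⋃ i, s i} = ⋃ i, {x : α | (u x, y) ∈ s i} := by
      ext x
      simp
    rw [h1]
    refine MeasurableSet.iUnion fun i => ?_
    refine MeasurableSpace.generateFrom_mono ?_ _ (ha i y)
    rintro _ ⟨n, rfl⟩
    exact ⟨Nat.pair i n, by simp⟩

theorem not_rect (lam : Cardinal.{0}) (h0 : ℵ₀ ≤ lam) (h1 : continuum < 2 ^ lam)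
    (h2 : (2 ^ lam : Cardinal.{0}).ord.cof ≤ continuum) :
    ¬ RectProp (2 ^ lam : Cardinal.{0}).ord.cof := by
  classical
  intro H
  have hinf : ℵ₀ ≤ (2 ^ lam : Cardinal.{0}) := Cardinal.aleph0_le_continuum.trans h1.le
  have hcof : lam < (2 ^ lam : Cardinal.{0}).ord.cof :=
    Cardinal.lt_cof_ord_power h0 (by norm_num)
  obtain ⟨α, hα⟩ : ∃ α : Type, #α = lam := ⟨lam.out, Cardinal.mk_out lam⟩
  -- the well ordered set of indices
  obtain ⟨T, hT⟩ : ∃ T : Type, T = (2 ^ lam : Cardinal.{0}).ord.ToType := ⟨_, rfl⟩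
  subst hT
  have hTc : #((2 ^ lam : Cardinal.{0}).ord.ToType) = 2 ^ lam := Cardinal.mk_ord_toType _
  have hseq : #(ℕ → Set α) = 2 ^ lam := by
    rw [← Cardinal.power_def, Cardinal.mk_set, hα, Cardinal.mk_nat, ← Cardinal.power_mul,
      Cardinal.mul_aleph0_eq h0]
  obtain ⟨φ⟩ : Nonempty ((ℕ → Set α) ≃ (2 ^ lam : Cardinal.{0}).ord.ToType) := by
    rw [← Cardinal.eq, hTc, hseq]
  obtain ⟨s, hs, hsc⟩ := Order.exists_cof_eq ((2 ^ lam : Cardinal.{0}).ord.ToType)
  rw [← Ordinal.cof_type, Ordinal.type_toType] at hsc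
  have hsmall : ∀ y : (2 ^ lam : Cardinal.{0}).ord.ToType, #(Iic y) < 2 ^ lam := by
    intro y
    have h3 : #(Iio y) < 2 ^ lam := by
      have := Cardinal.mk_Iio_lt y (by simp)
      rwa [hTc] at this
    rw [← Set.Iio_insert]
    refine (Cardinal.mk_insert_le).trans_lt ?_
    exact Cardinal.add_lt_of_lt hinf h3 (lt_of_lt_of_le Cardinal.one_lt_aleph0 hinf)
  -- a set outside all the small sigma-algebras
  have hS : ∀ y : (2 ^ lam : Cardinal.{0}).ord.ToType, ∃ S : Set α, ∀ t, φ t ≤ y →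
      ¬ MeasurableSet[MeasurableSpace.generateFrom (range t)] S := by
    intro y
    by_contra hcon
    push Not at hcon
    have h3 : (univ : Set (Set α)) ⊆ ⋃ z : Iic y,
        {S | MeasurableSet[MeasurableSpace.generateFrom (range (φ.symm z))] S} := by
      intro S _
      obtain ⟨t, ht, hm⟩ := hcon S
      rw [mem_iUnion]
      refine ⟨⟨φ t, ht⟩, ?_⟩
      have h9 : φ.symm (φ t) = t := φ.symm_apply_apply t
      change MeasurableSet[MeasurableSpace.generateFrom (range (φ.symm (φ t)))] S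
      rw [h9]
      exact hm
    have h4 := Cardinal.mk_le_mk_of_subset h3
    rw [Cardinal.mk_univ, Cardinal.mk_set, hα] at h4
    have h5 : #(⋃ z : Iic y,
        {S | MeasurableSet[MeasurableSpace.generateFrom (range (φ.symm z))] S} : Set (Set α)) ≤
        #(Iic y) * continuum := by
      refine Cardinal.mk_iUnion_le_sum_mk.trans ?_
      refine (Cardinal.sum_le_sum _ (fun _ => continuum) fun z => ?_).trans ?_
      · refine MeasurableSpace.cardinal_measurableSet_le_continuum ?_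
        exact (Cardinal.mk_range_le).trans (by rw [Cardinal.mk_nat]; exact aleph0_le_continuum)
      · rw [Cardinal.sum_const']
    exact absurd (h4.trans h5) (not_le.2 (Cardinal.mul_lt_of_lt hinf (hsmall y) h1))
  choose S hSS using hS
  -- embeddings into the reals
  have hsR : #s ≤ #ℝ := by rw [hsc, Cardinal.mk_real]; exact h2
  have hαR : #α ≤ #ℝ := by
    rw [hα, Cardinal.mk_real]
    exact hcof.le.trans h2
  obtain ⟨e⟩ := hsR
  obtain ⟨u⟩ := hαR
  let E : Set (ℝ × ℝ) := {w | ∃ x : α, ∃ y : s, w = (u x, e y) ∧ x ∈ S y}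
  have hE : MeasurableSet[@Prod.instMeasurableSpace ℝ ℝ ⊤ ⊤] E := by
    refine H (range u ∪ range e) ?_ E ?_
    · refine (Cardinal.mk_union_le _ _).trans ?_
      have h3 : #(range u) ≤ (2 ^ lam : Cardinal.{0}).ord.cof :=
        Cardinal.mk_range_le.trans (by rw [hα]; exact hcof.le)
      have h4 : #(range e) ≤ (2 ^ lam : Cardinal.{0}).ord.cof :=
        Cardinal.mk_range_le.trans hsc.le
      exact (add_le_add h3 h4).trans
        (Cardinal.add_eq_self (h0.trans hcof.le)).le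
    · rintro _ ⟨x, y, rfl, _⟩
      exact ⟨Or.inl ⟨x, rfl⟩, Or.inr ⟨y, rfl⟩⟩
  obtain ⟨a, ha⟩ := sections_cg (u : α → ℝ) E hE
  obtain ⟨y, hy, hay⟩ := hs (φ a)
  refine hSS y a hay ?_
  have h3 := ha (e ⟨y, hy⟩)
  have h4 : {x : α | ((u x : ℝ), e ⟨y, hy⟩) ∈ E} = S y := by
    ext x
    constructor
    · rintro ⟨x', y', h5, h6⟩
      rw [Prod.mk.injEq] at h5
      have h7 : x = x' := u.injective h5.1
      have h8 : (⟨y, hy⟩ : s) = y' := e.injective h5.2
      rw [h7]
      rw [← h8] at h6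
      exact h6
    · intro hx
      exact ⟨x, ⟨y, hy⟩, rfl, hx⟩
  rw [h4] at h3
  exact h3

/-- The corresponding statement for symmetric sets. -/
theorem exists_not_mem (lam : Cardinal.{0}) (h0 : ℵ₀ ≤ lam) (h1 : continuum < 2 ^ lam)
    (h2 : (2 ^ lam : Cardinal.{0}).ord.cof ≤ continuum) :
    ∃ Z : Set ℝ, #Z ≤ (2 ^ lam : Cardinal.{0}).ord.cof ∧ (∀ z ∈ Z, -z ∈ Z) ∧
      ¬ MeasurableSet[gs] Z := by
  by_contra hcon
  push Not at hcon
  have hcof : lam < (2 ^ lam : Cardinal.{0}).ord.cof :=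
    Cardinal.lt_cof_ord_power h0 (by norm_num)
  exact not_rect lam h0 h1 h2 (rect_of_symm _ (h0.trans hcof.le) fun Z hZ hs => hcon Z hZ hs)

end Pool.Agent.Helper85.GroupSigma
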