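import Mathlib
import Pool.Agent.Helper85.GroupSigma

set_option autoImplicit false

open MeasureTheory Set Cardinal

namespace Pool.Agent.Helper85.GroupSigma

/-- Level maps for an arbitrary real valued index. -/
noncomputable def lv {I : Type*} (φ : I → ℝ) (n : ℕ) (i : I) : ℤ := ⌊(2:ℝ) ^ n * φ i⌋

lemma lv_sep {I : Type*} (φ : I → ℝ) (hφ : Function.Injective φ) (S : Finset I) :
    ∃ n : ℕ, Set.InjOn (lv φ n) (S : Set I) := by
  have h1 : ∀ i j : I, i ≠ j → ∀ᶠ n : ℕ in Filter.atTop, lv φ n i ≠ lv φ n j := by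
    intro i j h
    have hij : 0 < |φ i - φ j| := abs_pos.2 (sub_ne_zero.2 (fun h' => h (hφ h')))
    have h1 : Filter.Tendsto (fun n : ℕ => (2:ℝ) ^ n * |φ i - φ j|) Filter.atTop Filter.atTop :=
      (tendsto_pow_atTop_atTop_of_one_lt (by norm_num)).atTop_mul_const hij
    filter_upwards [h1.eventually_ge_atTop 1] with n hn heq
    have := Int.abs_sub_lt_one_of_floor_eq_floor heq
    rw [← mul_sub, abs_mul, abs_of_pos (by positivity : (0:ℝ) < 2 ^ n)] at this
    linarith
  have : ∀ᶠ n : ℕ in Filter.atTop, ∀ p ∈ S ×ˢ S, p.1 ≠ p.2 → lv φ n p.1 ≠ lv φ n p.2 := by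
    rw [Filter.eventually_all_finset]
    intro p _
    by_cases h : p.1 = p.2
    · exact Filter.Eventually.of_forall fun n h' => absurd h h'
    · filter_upwards [h1 p.1 p.2 h] with n hn _ using hn
  obtain ⟨n, hn⟩ := this.exists
  refine ⟨n, fun i hi j hj hij => ?_⟩
  by_contra hne
  exact hn (i, j) (by simp [Finset.mem_product]; exact ⟨hi, hj⟩) hne hij

/-- Finitely supported functions on a set of size at most continuum are separated by the
countably many level push forwards. -/
lemma finsupp_sep {I C : Type*} [AddCommGroup C] (φ : I → ℝ) (hφ : Function.Injective φ)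
    (f : I →₀ C) (h : ∀ n, Finsupp.mapDomain (lv φ n) f = 0) : f = 0 := by
  classical
  obtain ⟨n, hn⟩ := lv_sep φ hφ f.support
  ext i
  by_cases hi : i ∈ f.support
  · have := Finsupp.mapDomain_apply' (f.support : Set I) f (by simp) hn hi
    rw [h n] at this
    simpa using this.symm
  · simpa using hi

/-- Finitely supported functions to a divisible group form a divisible group (Baer form). -/
lemma baer_finsupp (X : Type) (A : Type) [AddCommGroup A] [DivisibleBy A ℤ] :
    Module.Baer ℤ (X →₀ A) := by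
  classical
  have : DivisibleBy (X →₀ A) ℤ := by
    refine divisibleByOfSMulRightSurj (X →₀ A) ℤ ?_
    intro n hn f
    refine ⟨f.mapRange (fun a => if a = 0 then 0 else DivisibleBy.div a n) (by simp), ?_⟩
    ext x
    by_cases hx : f x = 0
    · simp [hx]
    · simp [hx, DivisibleBy.div_cancel _ hn]
  exact Module.Baer.of_divisible _

/-- Embedding of `ZMod p` in the rational circle. -/
lemma zmod_embed (p : ℕ) (hp : p ≠ 0) :
    ∃ g : ZMod p →+ AddCircle (1 : ℚ), Function.Injective g := by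
  let f0 : ℤ →+ AddCircle (1 : ℚ) :=
    (QuotientAddGroup.mk' _).comp ((AddMonoidHom.mulRight (1 / (p:ℚ))).comp (Int.castAddHom ℚ))
  have hf0 : ∀ k : ℤ, f0 k = (((k : ℚ) * (1 / p) : ℚ) : AddCircle (1 : ℚ)) := fun k => rfl
  have hp0 : (p : ℚ) ≠ 0 := by exact_mod_cast hp
  have h0 : f0 p = 0 := by
    rw [hf0]
    have : ((p : ℤ) : ℚ) * (1 / p) = 1 := by push_cast; field_simp
    rw [this]
    exact AddCircle.coe_period 1
  refine ⟨ZMod.lift p ⟨f0, h0⟩, ?_⟩
  rw [ZMod.lift_injective]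
  intro m hm
  have hm' : f0 m = 0 := hm
  rw [hf0, AddCircle.coe_eq_zero_iff] at hm'
  obtain ⟨n, hn⟩ := hm'
  rw [ZMod.intCast_zmod_eq_zero_iff_dvd]
  refine ⟨n, ?_⟩
  have : (m : ℚ) = p * n := by
    rw [zsmul_eq_mul, mul_one] at hn
    field_simp at hn
    linarith
  exact_mod_cast this

/-- Separation of the `p`-socle of a group of size at most continuum. -/
lemma socle_sep (K : Type) [AddCommGroup K] (hK : #K ≤ continuum) (p : ℕ) (hp : p.Prime) :
    ∃ χ : ℕ → (K →+ (ℤ →₀ AddCircle (1 : ℚ))), ∀ x : K, p • x = 0 → (∀ n, χ n x = 0) → x = 0 := by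
  classical
  have := Fact.mk hp
  let A : AddSubgroup K := (nsmulAddMonoidHom (α := K) p).ker
  have hA : ∀ x : A, p • x = 0 := by
    rintro ⟨x, hx⟩
    exact Subtype.ext hx
  letI : Module (ZMod p) A := AddCommGroup.zmodModule hA
  let b := Module.Basis.ofVectorSpace (ZMod p) A
  obtain ⟨φ⟩ : #(Module.Basis.ofVectorSpaceIndex (ZMod p) A) ≤ #ℝ := by
    refine (Cardinal.mk_set_le _).trans ((Cardinal.mk_set_le _).trans ?_)
    rw [Cardinal.mk_real]; exact hK
  obtain ⟨g, hg⟩ := zmod_embed p hp.ne_zero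
  have hB := baer_finsupp ℤ (AddCircle (1 : ℚ))
  -- the homs on the socle
  let rp : A →+ (Module.Basis.ofVectorSpaceIndex (ZMod p) A →₀ ZMod p) :=
    b.repr.toLinearMap.toAddMonoidHom
  have hrp : Function.Injective rp := LinearEquiv.injective b.repr
  let ψ : ℕ → (A →+ (ℤ →₀ AddCircle (1 : ℚ))) := fun n =>
    ((Finsupp.mapRange.addMonoidHom g).comp (Finsupp.mapDomain.addMonoidHom (lv φ n))).comp rp
  have hψ : ∀ x : A, (∀ n, ψ n x = 0) → x = 0 := by
    intro x hx
    have h1 : rp x = 0 := by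
      refine finsupp_sep φ φ.injective _ fun n => ?_
      have h2 := hx n
      have h3 : Finsupp.mapRange g (map_zero g) (Finsupp.mapDomain (lv φ n) (rp x)) = 0 := h2
      ext m
      have h4 := DFunLike.congr_fun h3 m
      rw [Finsupp.mapRange_apply] at h4
      simpa using hg (h4.trans (map_zero g).symm)
    exact hrp (h1.trans (map_zero rp).symm)
  choose χ hχ using fun n => hB.extension_property_addMonoidHom A.subtype
    (Subtype.val_injective) (ψ n)
  refine ⟨χ, fun x hx h => ?_⟩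
  have h1 : (⟨x, hx⟩ : A) = 0 := by
    refine hψ _ fun n => ?_
    rw [← hχ n]
    exact h n
  exact congrArg Subtype.val h1

/-- Every subgroup `G` of the reals is the common kernel of countably many homomorphisms to
countable groups. -/
lemma subgroup_sep (G : AddSubgroup ℝ) :
    ∃ χ : ℕ ⊕ (ℕ × ℕ) → ℝ →+ ((ℤ →₀ ℚ) × (ℤ →₀ AddCircle (1 : ℚ))),
      ∀ x : ℝ, x ∈ G ↔ ∀ j, χ j x = 0 := by
  classical
  -- rational span
  let W : Submodule ℚ ℝ := Submodule.span ℚ (G : Set ℝ)
  have hGW : ∀ x ∈ G, x ∈ W := fun x hx => Submodule.subset_span hx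
  have hW : ∀ x ∈ W, ∃ n : ℕ, n ≠ 0 ∧ n • x ∈ G := by
    intro x hx
    refine Submodule.span_induction (p := fun x _ => ∃ n : ℕ, n ≠ 0 ∧ n • x ∈ G) ?_ ?_ ?_ ?_ hx
    · intro x hx; exact ⟨1, one_ne_zero, by simpa using hx⟩
    · exact ⟨1, one_ne_zero, by simp⟩
    · rintro x y _ _ ⟨n, hn, hnx⟩ ⟨m, hm, hmy⟩
      refine ⟨n * m, mul_ne_zero hn hm, ?_⟩
      rw [smul_add]
      refine G.add_mem ?_ ?_
      · rw [mul_comm, mul_smul]; exact G.nsmul_mem hnx m
      · rw [mul_smul]; exact G.nsmul_mem hmy n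
    · rintro a x _ ⟨n, hn, hnx⟩
      refine ⟨a.den * n, mul_ne_zero a.den_ne_zero hn, ?_⟩
      have : (a.den * n) • (a • x) = a.num • (n • x) := by
        rw [nsmul_eq_mul, zsmul_eq_mul, nsmul_eq_mul, Rat.smul_def]
        push_cast
        have h1 : (a.den : ℝ) * (a : ℝ) = a.num := by
          have := Rat.mul_den_eq_num a
          rw [mul_comm]; exact_mod_cast this
        calc (a.den : ℝ) * n * (a * x) = (a.den * a) * (n * x) := by ring
          _ = _ := by rw [h1]
      rw [this]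
      exact G.zsmul_mem hnx _
  -- part 1: the rational quotient
  let b := Module.Basis.ofVectorSpace ℚ (ℝ ⧸ W)
  have hcard : #(ℝ ⧸ W) ≤ #ℝ := Cardinal.mk_quotient_le
  obtain ⟨φ⟩ : #(Module.Basis.ofVectorSpaceIndex ℚ (ℝ ⧸ W)) ≤ #ℝ :=
    (Cardinal.mk_set_le _).trans hcard
  let χ1 : ℕ → (ℝ →+ (ℤ →₀ ℚ)) := fun n =>
    ((Finsupp.mapDomain.addMonoidHom (lv φ n)).comp (b.repr : (ℝ ⧸ W) →+ _)).comp
      (W.mkQ : ℝ →+ (ℝ ⧸ W))
  have h1 : ∀ x : ℝ, (∀ n, χ1 n x = 0) → x ∈ W := by
    intro x hx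
    have h2 : b.repr (W.mkQ x) = 0 := finsupp_sep φ φ.injective _ fun n => hx n
    have h3 : W.mkQ x = 0 := by simpa using h2
    simpa using h3
  have h1' : ∀ x ∈ W, ∀ n, χ1 n x = 0 := by
    intro x hx n
    have h3 : W.mkQ x = 0 := by simpa using hx
    change Finsupp.mapDomain (lv φ n) (b.repr (W.mkQ x)) = 0
    rw [h3]; simp
  -- part 2: the socles of `ℝ ⧸ G`
  have hK : #(ℝ ⧸ G) ≤ continuum := by
    rw [← Cardinal.mk_real]; exact Cardinal.mk_quotient_le
  have h2 : ∀ p : ℕ, ∃ χ : ℕ → ((ℝ ⧸ G) →+ (ℤ →₀ AddCircle (1 : ℚ))), p.Prime →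
      ∀ x, p • x = 0 → (∀ n, χ n x = 0) → x = 0 := by
    intro p
    by_cases hp : p.Prime
    · obtain ⟨χ, hχ⟩ := socle_sep (ℝ ⧸ G) hK p hp
      exact ⟨χ, fun _ => hχ⟩
    · exact ⟨fun _ => 0, fun h => absurd h hp⟩
  choose χ2 hχ2 using h2
  refine ⟨fun j => match j with
    | Sum.inl n => (AddMonoidHom.inl _ _).comp (χ1 n)
    | Sum.inr w => (AddMonoidHom.inr _ _).comp ((χ2 w.1 w.2).comp (QuotientAddGroup.mk' G)), ?_⟩
  intro x
  constructor
  · intro hx j
    match j with
    | Sum.inl n =>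
      have := h1' x (hGW x hx) n
      simp [this]
    | Sum.inr w =>
      have : (QuotientAddGroup.mk' G) x = 0 := by
        rw [QuotientAddGroup.mk'_apply]
        exact (QuotientAddGroup.eq_zero_iff x).2 hx
      simp only [AddMonoidHom.comp_apply, this, map_zero]
  · intro h
    have hxW : x ∈ W := h1 x fun n => by
      have := h (Sum.inl n)
      simpa using congrArg Prod.fst this
    obtain ⟨n, hn, hnx⟩ := hW x hxW
    -- the order of `x` modulo `G`
    by_contra hxG
    let y : ℝ ⧸ G := QuotientAddGroup.mk x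
    have hy0 : y ≠ 0 := fun h => hxG ((QuotientAddGroup.eq_zero_iff x).1 h)
    have hny : n • y = 0 := by
      have : n • y = QuotientAddGroup.mk (n • x) := rfl
      rw [this]
      exact (QuotientAddGroup.eq_zero_iff _).2 hnx
    have hord0 : addOrderOf y ≠ 0 := by
      intro h0
      rw [addOrderOf_eq_zero_iff'] at h0
      exact h0 n (Nat.pos_of_ne_zero hn) hny
    have hord1 : addOrderOf y ≠ 1 := by
      rw [Ne, AddMonoid.addOrderOf_eq_one_iff]; exact hy0
    obtain ⟨p, hp, hpd⟩ := Nat.exists_prime_and_dvd hord1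
    obtain ⟨m, hm⟩ := hpd
    have hm0 : m ≠ 0 := by
      intro h0
      rw [h0, mul_zero] at hm
      exact hord0 hm
    have hmlt : m < addOrderOf y := by
      rw [hm]
      have := hp.two_le
      nlinarith [Nat.pos_of_ne_zero hm0]
    have hmy : m • y ≠ 0 := by
      intro h0
      have := addOrderOf_dvd_of_nsmul_eq_zero h0
      exact absurd (Nat.le_of_dvd (Nat.pos_of_ne_zero hm0) this) (not_le.2 hmlt)
    refine hmy (hχ2 p hp (m • y) ?_ fun k => ?_)
    · rw [← mul_smul, ← hm]; exact addOrderOf_nsmul_eq_zero y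
    · have h3 := h (Sum.inr (p, k))
      have h4 : χ2 p k y = 0 := by
        have := congrArg Prod.snd h3
        simpa using this
      rw [map_nsmul, h4, smul_zero]

/-- Members of the sigma-algebra generated by the subgroups are symmetric. -/
lemma gs_symm (Z : Set ℝ) (h : MeasurableSet[gs] Z) : ∀ z ∈ Z, -z ∈ Z := by
  have key : ∀ x : ℝ, x ∈ Z ↔ -x ∈ Z := by
    refine MeasurableSpace.generateFrom_induction {S : Set ℝ | ∃ G : AddSubgroup ℝ, (G : Set ℝ) = S}
      (fun s _ => ∀ x : ℝ, x ∈ s ↔ -x ∈ s) ?_ ?_ ?_ ?_ Z h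
    · rintro _ ⟨G, rfl⟩ _ x
      simp
    · intro x; simp
    · intro s _ hs x
      rw [mem_compl_iff, mem_compl_iff, hs x]
    · intro s _ hs x
      simp only [mem_iUnion]
      exact exists_congr fun n => hs n x
  intro z hz
  exact (key z).1 hz

/-- The power set box sigma-algebra on a finite power. -/
@[reducible] def box (J : Type) : MeasurableSpace (J → ℝ) :=
  @MeasurableSpace.pi J (fun _ => ℝ) (fun _ => ⊤)

lemma measurable_coord (J : Type) (α : Type*) [MeasurableSpace α] (g : ℝ → α) (j : J) :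
    @Measurable (J → ℝ) α (box J) _ (fun f => g (f j)) := by
  intro A _
  exact (@measurable_pi_apply J (fun _ => ℝ) (fun _ => ⊤) j)
    (show MeasurableSet[⊤] (g ⁻¹' A) from trivial)

lemma sum_measurable (k : ℕ) : @Measurable (Fin k → ℝ) ℝ (box (Fin k)) gs (fun f => ∑ i, f i) := by
  refine @measurable_generateFrom _ _ (box (Fin k)) _ _ ?_
  rintro _ ⟨G, rfl⟩
  obtain ⟨χ, hχ⟩ := subgroup_sep G
  have h1 : (fun f : Fin k → ℝ => ∑ i, f i) ⁻¹' (G : Set ℝ) =
      ⋂ j, {f | χ j (∑ i, f i) = 0} := by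
    ext f
    simp only [mem_preimage, SetLike.mem_coe, mem_iInter, Set.mem_ofPred_eq]
    exact hχ _
  rw [h1]
  refine MeasurableSet.iInter fun j => ?_
  -- countable target
  let C := (ℤ →₀ ℚ) × (ℤ →₀ AddCircle (1 : ℚ))
  have : Countable (AddCircle (1 : ℚ)) := Quotient.countable
  have : Countable C := inferInstance
  letI : MeasurableSpace C := ⊤
  have h2 : {f : Fin k → ℝ | χ j (∑ i, f i) = 0} =
      (fun f : Fin k → ℝ => (fun i => χ j (f i))) ⁻¹' {c : Fin k → C | ∑ i, c i = 0} := by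
    ext f
    have : χ j (∑ i, f i) = ∑ i, χ j (f i) := map_sum _ _ _
    change χ j (∑ i, f i) = 0 ↔ ∑ i, χ j (f i) = 0
    rw [this]
  rw [h2]
  have h3 : @Measurable (Fin k → ℝ) (Fin k → C) (box (Fin k)) _
      (fun f : Fin k → ℝ => (fun i => χ j (f i))) := by
    refine @measurable_pi_lambda _ _ _ (box (Fin k)) _ _ fun i => ?_
    exact measurable_coord (Fin k) C (χ j) i
  exact h3 (Set.to_countable _).measurableSet

/-- Characterisation of the members of the sigma-algebra generated by the additive subgroups. -/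
theorem mem_iff (Z : Set ℝ) : MeasurableSet[gs] Z ↔ (∀ z ∈ Z, -z ∈ Z) ∧
    ∀ k : ℕ, MeasurableSet[box (Fin k)] {f : Fin k → ℝ | ∑ i, f i ∈ Z} := by
  classical
  constructor
  · intro h
    exact ⟨gs_symm Z h, fun k => sum_measurable k h⟩
  · rintro ⟨hZ, h⟩
    refine core Z hZ fun M q hq => ?_
    let e := (Fintype.equivFin M).symm
    have h1 : MeasurableSet[box M] {f : M → ℝ | ∀ j, f j ∈ ι} := by
      have : {f : M → ℝ | ∀ j, f j ∈ ι} = ⋂ j, (fun f : M → ℝ => f j) ⁻¹' ι := by
        ext f; simp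
      rw [this]
      refine MeasurableSet.iInter fun j => ?_
      exact (@measurable_pi_apply M (fun _ => ℝ) (fun _ => ⊤) j) trivial
    have h2 : MeasurableSet[box M] {f : M → ℝ | Function.Injective f} := by
      have : {f : M → ℝ | Function.Injective f} = ⋂ i, ⋂ j, ({f : M → ℝ | f i = f j}ᶜ ∪
          {f | i = j}) := by
        ext f
        simp only [Set.mem_ofPred_eq, mem_iInter, mem_union, mem_compl_iff]
        constructor
        · intro hf i j
          by_cases hij : i = j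
          · exact Or.inr hij
          · exact Or.inl fun h => hij (hf h)
        · intro hf i j hij
          rcases hf i j with h | h
          · exact absurd hij h
          · exact h
      rw [this]
      refine MeasurableSet.iInter fun i => MeasurableSet.iInter fun j => ?_
      refine MeasurableSet.union (MeasurableSet.compl ?_) (MeasurableSet.const _)
      exact @measurableSet_eq_fun _ _ (box M) _ _ _ _ (measurable_coord M ℝ id i)
        (measurable_coord M ℝ id j)
    have h3 : MeasurableSet[box M] {f : M → ℝ | ∑ j, ((q j : ℚ) : ℝ) * f j ∈ Z} := by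
      have m : @Measurable (M → ℝ) (Fin (Fintype.card M) → ℝ) (box M) (box _)
          (fun f => fun i => ((q (e i) : ℚ) : ℝ) * f (e i)) := by
        refine @measurable_pi_lambda _ _ _ (box M) (fun _ => ⊤) _ fun i => ?_
        exact @measurable_coord M ℝ ⊤ (fun x => ((q (e i) : ℚ) : ℝ) * x) (e i)
      have : {f : M → ℝ | ∑ j, ((q j : ℚ) : ℝ) * f j ∈ Z} =
          (fun f => fun i => ((q (e i) : ℚ) : ℝ) * f (e i)) ⁻¹'
            {g : Fin (Fintype.card M) → ℝ | ∑ i, g i ∈ Z} := by
        ext f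
        simp only [Set.mem_ofPred_eq, mem_preimage]
        rw [← e.sum_comp (fun j => ((q j : ℚ) : ℝ) * f j)]
      rw [this]
      exact m (h _)
    have h4 : {f : M → ℝ | (∀ j, f j ∈ ι) ∧ Function.Injective f ∧
        ∑ j, ((q j : ℚ) : ℝ) * f j ∈ Z} = {f : M → ℝ | ∀ j, f j ∈ ι} ∩
        ({f : M → ℝ | Function.Injective f} ∩ {f : M → ℝ | ∑ j, ((q j : ℚ) : ℝ) * f j ∈ Z}) := by
      ext f; simp
    rw [h4]
    exact h1.inter (h2.inter h3)

lemma box_eq (k : ℕ) : MeasurableSpace.generateFrom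
    {B : Set (Fin k → ℝ) | ∃ A : Fin k → Set ℝ, B = {f | ∀ i, f i ∈ A i}} = box (Fin k) := by
  rw [box, ← @generateFrom_pi (Fin k) (fun _ => ℝ) _ (fun _ => ⊤)]
  congr 1
  ext B
  constructor
  · rintro ⟨A, rfl⟩
    refine ⟨A, by intro i _; exact trivial, ?_⟩
    ext f; simp
  · rintro ⟨A, _, rfl⟩
    refine ⟨A, ?_⟩
    ext f; simp

/-- Every symmetric Borel set is in the sigma-algebra generated by the subgroups. -/
theorem borel_mem (Z : Set ℝ) (hZ : ∀ z ∈ Z, -z ∈ Z) (hB : MeasurableSet Z) :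
    MeasurableSet[gs] Z := by
  rw [mem_iff]
  refine ⟨hZ, fun k => ?_⟩
  have h1 : Measurable (fun f : Fin k → ℝ => ∑ i, f i) := by fun_prop
  have h2 : (MeasurableSpace.pi : MeasurableSpace (Fin k → ℝ)) ≤ box (Fin k) := by
    refine iSup_mono fun i => MeasurableSpace.comap_mono le_top
  exact h2 _ (h1 hB)

end Pool.Agent.Helper85.GroupSigma
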