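import Pool.Agent.Helper85.KTQuantC

/-!
# L3: quantisation of `CP^(d-1)` (for MP_0ce5f1_an, helper75)
-/

set_option linter.unusedSectionVars false

namespace Pool.Agent.Helper75.KT

open Matrix Filter Topology CPd
open scoped Kronecker ComplexOrder Matrix.Norms.L2Operator Nat

namespace Quant

variable {d : ℕ}

/-- the projection from the sphere -/
noncomputable def mkC (d : ℕ) : C(USph d, CPd d) := ⟨mk, continuous_mk⟩

theorem norm_comp_le (f : C(CPd d, ℂ)) : ‖f.comp (mkC d)‖ ≤ ‖f‖ := by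
  rw [ContinuousMap.norm_le _ (norm_nonneg _)]
  intro z
  exact f.norm_coe_le_norm _

theorem comp_mul (f g : C(CPd d, ℂ)) :
    (f * g).comp (mkC d) = f.comp (mkC d) * g.comp (mkC d) := rfl

theorem comp_star (f : C(CPd d, ℂ)) : (star f).comp (mkC d) = star (f.comp (mkC d)) := rfl

theorem comp_taut (i j : Fin d) : (taut d i j).comp (mkC d) = coo i * star (coo j) := by
  ext z
  rfl

section Alg

variable {K : Type*} [TopologicalSpace K] [CompactSpace K]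
  {α : ℕ → Type} [∀ n, Fintype (α n)] [∀ n, DecidableEq (α n)]
  (T : ∀ n, C(K, ℂ) →ₗ[ℂ] Matrix (α n) (α n) ℂ)

/-- the right multiplicative domain -/
def goodSub (h1 : ∀ n, T n 1 = 1) (hT : ∀ n f, ‖T n f‖ ≤ ‖f‖) : Subalgebra ℂ C(K, ℂ) where
  carrier := {g | ∀ f, Tendsto (fun n => ‖T n (f * g) - T n f * T n g‖) atTop (𝓝 0)}
  mul_mem' := by
    intro g h hg hh f
    have e : Tendsto (fun n => ‖T n ((f * g) * h) - T n (f * g) * T n h‖ +
        ‖T n (f * g) - T n f * T n g‖ * ‖h‖ + ‖f‖ * ‖T n (g * h) - T n g * T n h‖) atTop (𝓝 0) := by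
      have := ((hh (f * g)).add ((hg f).mul_const ‖h‖)).add ((hh g).const_mul ‖f‖)
      simpa using this
    refine squeeze_zero (fun n => norm_nonneg _) (fun n => ?_) e
    have e2 : T n (f * (g * h)) - T n f * T n (g * h) =
        (T n ((f * g) * h) - T n (f * g) * T n h) + (T n (f * g) - T n f * T n g) * T n h
          - T n f * (T n (g * h) - T n g * T n h) := by
      rw [Matrix.sub_mul, Matrix.mul_sub, Matrix.mul_assoc, mul_assoc]
      abel
    rw [e2]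
    refine (norm_sub_le _ _).trans (add_le_add ((norm_add_le _ _).trans (add_le_add le_rfl ?_)) ?_)
    · refine (Matrix.l2_opNorm_mul _ _).trans ?_
      gcongr
      exact hT n h
    · refine (Matrix.l2_opNorm_mul _ _).trans ?_
      gcongr
      exact hT n f
  add_mem' := by
    intro g h hg hh f
    have e : Tendsto (fun n => ‖T n (f * g) - T n f * T n g‖ + ‖T n (f * h) - T n f * T n h‖)
        atTop (𝓝 0) := by
      simpa using (hg f).add (hh f)
    refine squeeze_zero (fun n => norm_nonneg _) (fun n => ?_) e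
    have e2 : T n (f * (g + h)) - T n f * T n (g + h) =
        (T n (f * g) - T n f * T n g) + (T n (f * h) - T n f * T n h) := by
      rw [mul_add, map_add, map_add, Matrix.mul_add]
      abel
    rw [e2]
    exact norm_add_le _ _
  algebraMap_mem' := by
    intro r f
    have : ∀ n, T n (f * algebraMap ℂ C(K, ℂ) r) - T n f * T n (algebraMap ℂ C(K, ℂ) r) = 0 := by
      intro n
      rw [Algebra.algebraMap_eq_smul_one, mul_smul_comm, mul_one, map_smul, map_smul, h1,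
        Matrix.mul_smul, Matrix.mul_one, sub_self]
    simp [this]

theorem goodSub_closed (h1 : ∀ n, T n 1 = 1) (hT : ∀ n f, ‖T n f‖ ≤ ‖f‖) (g : C(K, ℂ))
    (hg : g ∈ closure (goodSub T h1 hT : Set C(K, ℂ))) : g ∈ goodSub T h1 hT := by
  intro f
  rw [Metric.tendsto_atTop]
  intro ε hε
  obtain ⟨g', hg', hd⟩ := Metric.mem_closure_iff.1 hg (ε / (4 * (‖f‖ + 1))) (by positivity)
  obtain ⟨N, hN⟩ := Metric.tendsto_atTop.1 (hg' f) (ε / 2) (by positivity)
  refine ⟨N, fun n hn => ?_⟩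
  have h2 := hN n hn
  rw [Real.dist_eq, sub_zero, abs_of_nonneg (norm_nonneg _)] at h2 ⊢
  rw [dist_eq_norm] at hd
  have e2 : T n (f * g) - T n f * T n g =
      (T n (f * g') - T n f * T n g') + (T n (f * (g - g')) - T n f * T n (g - g')) := by
    rw [mul_sub, map_sub, map_sub, Matrix.mul_sub]
    abel
  rw [e2]
  have h3 : ‖T n (f * (g - g')) - T n f * T n (g - g')‖ ≤ 2 * (‖f‖ * ‖g - g'‖) := by
    refine (norm_sub_le _ _).trans ?_
    have a1 : ‖T n (f * (g - g'))‖ ≤ ‖f‖ * ‖g - g'‖ := (hT n _).trans (norm_mul_le _ _)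
    have a2 : ‖T n f * T n (g - g')‖ ≤ ‖f‖ * ‖g - g'‖ := by
      refine (Matrix.l2_opNorm_mul _ _).trans ?_
      gcongr
      · exact hT n f
      · exact hT n _
    linarith
  have h4 : 2 * (‖f‖ * ‖g - g'‖) ≤ ε / 2 := by
    have h5 : ‖f‖ * ‖g - g'‖ ≤ (‖f‖ + 1) * (ε / (4 * (‖f‖ + 1))) := by
      apply mul_le_mul (by linarith) hd.le (norm_nonneg _) (by positivity)
    have h6 : (‖f‖ + 1) * (ε / (4 * (‖f‖ + 1))) = ε / 4 := by
      field_simp
    rw [h6] at h5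
    linarith
  calc _ ≤ _ := norm_add_le _ _
    _ < ε / 2 + ε / 2 := by linarith
    _ = ε := by ring

end Alg

/-- the star subalgebra generated by the entries of `taut` -/
noncomputable def entries (d : ℕ) : StarSubalgebra ℂ C(CPd d, ℂ) :=
  StarAlgebra.adjoin ℂ (Set.range fun x : Fin d × Fin d => taut d x.1 x.2)

theorem star_taut (i j : Fin d) : star (taut d i j) = taut d j i := by
  have h := (taut_pr (d := d)).2
  have := congrFun (congrFun h j) i
  rwa [conjTranspose_apply] at this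

theorem entries_le (B : Subalgebra ℂ C(CPd d, ℂ)) (h : ∀ i j, taut d i j ∈ B) :
    (entries d).toSubalgebra ≤ B := by
  unfold entries
  rw [StarAlgebra.adjoin_toSubalgebra]
  apply Algebra.adjoin_le
  rintro x (⟨y, rfl⟩ | hx)
  · exact h _ _
  · rw [Set.mem_star] at hx
    obtain ⟨y, hy⟩ := hx
    have : x = taut d y.2 y.1 := by
      rw [← star_taut, ← star_star x]
      congr 1
      exact hy.symm
    rw [this]
    exact h _ _

theorem entries_sep : (entries d).SeparatesPoints := by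
  intro x y hxy
  have : ∃ i j, x.1 i j ≠ y.1 i j := by
    by_contra hcon
    push Not at hcon
    apply hxy
    apply Subtype.ext
    ext i j
    exact hcon i j
  obtain ⟨i, j, hij⟩ := this
  refine ⟨taut d i j, ⟨taut d i j, ?_, rfl⟩, hij⟩
  exact StarAlgebra.subset_adjoin ℂ _ ⟨(i, j), rfl⟩

/-- the maps -/
noncomputable def TQ (E : ℕ → C(USph d, ℂ) →ₗ[ℂ] ℂ) (n : ℕ) :
    C(CPd d, ℂ) →ₗ[ℂ] Matrix (Idx d n) (Idx d n) ℂ where
  toFun f := TT (E n) (cf n) (f.comp (mkC d))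
  map_add' f g := TT_add (E n) (cf n) (f.comp (mkC d)) (g.comp (mkC d))
  map_smul' r f := TT_smul (E n) (cf n) r (f.comp (mkC d))

theorem TQ_apply (E : ℕ → C(USph d, ℂ) →ₗ[ℂ] ℂ) (n : ℕ) (f : C(CPd d, ℂ)) :
    TQ E n f = TT (E n) (cf n) (f.comp (mkC d)) := rfl

theorem TQ_taut (hd : 1 ≤ d) (E : ℕ → C(USph d, ℂ) →ₗ[ℂ] ℂ) (hM : ∀ n, Mom d (n + 1) (E n))
    (n : ℕ) (i j : Fin d) :
    TQ E n (taut d i j) = ((n + d : ℝ) : ℂ)⁻¹ • (Lo n i * (Lo n j)ᴴ) := by
  rw [TQ_apply, comp_taut, TT_coo hd le_rfl (hM n)]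

theorem TQ_mul (hd : 1 ≤ d) (E : ℕ → C(USph d, ℂ) →ₗ[ℂ] ℂ) (hE : ∀ n, Pos (E n))
    (hM : ∀ n, Mom d (n + 1) (E n)) (f g : C(CPd d, ℂ)) :
    Tendsto (fun n => ‖TQ E n (f * g) - TQ E n f * TQ E n g‖) atTop (𝓝 0) := by
  have hO : ∀ n, Orth (E n) (cf (d := d) n) := fun n => cf_orth (by omega) (hM n)
  have h1 : ∀ n, TQ E n 1 = 1 := fun n => TT_one _ (hO n)
  have hT : ∀ n f, ‖TQ E n f‖ ≤ ‖f‖ := fun n f =>
    (TT_norm _ (hE n) (hO n) _).trans (norm_comp_le f)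
  have hd1 : (0 : ℝ) ≤ d - 1 := by
    have : (1 : ℝ) ≤ d := by exact_mod_cast hd
    linarith
  have hgen : ∀ i j, taut d i j ∈ goodSub (TQ E) h1 hT := by
    intro i j f
    have hlim : Tendsto (fun n : ℕ => ‖f‖ * Real.sqrt (((d : ℝ) - 1) / (n + d))) atTop (𝓝 0) := by
      have a1 : Tendsto (fun n : ℕ => ((d : ℝ) - 1) / ((n : ℝ) + d)) atTop (𝓝 0) :=
        Tendsto.div_atTop tendsto_const_nhds
          (tendsto_atTop_add_const_right _ _ tendsto_natCast_atTop_atTop)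
      have a2 := (Real.continuous_sqrt.tendsto 0).comp a1
      rw [Real.sqrt_zero] at a2
      simpa using a2.const_mul ‖f‖
    refine squeeze_zero (fun n => norm_nonneg _) (fun n => ?_) hlim
    have a3 := TT_mul_bound (cf (d := d) n) (hE n) (hO n) (f.comp (mkC d))
      (coo i * star (coo j)) (Real.sqrt ((d - 1) / (n + d))) (Real.sqrt_nonneg _)
      (fun v => defect_coo hd le_rfl (hE n) (hM n) i j v)
    have a4 : TQ E n (f * taut d i j) - TQ E n f * TQ E n (taut d i j) =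
        TT (E n) (cf n) (f.comp (mkC d) * (coo i * star (coo j))) -
          TT (E n) (cf n) (f.comp (mkC d)) * TT (E n) (cf n) (coo i * star (coo j)) := by
      rw [TQ_apply, TQ_apply, TQ_apply, comp_mul, comp_taut]
    rw [a4]
    refine a3.trans ?_
    gcongr
    exact norm_comp_le f
  have hle := entries_le (goodSub (TQ E) h1 hT) hgen
  have htop := ContinuousMap.starSubalgebra_topologicalClosure_eq_top_of_separatesPoints
    (entries d) entries_sep
  have hg : g ∈ (entries d).topologicalClosure := by rw [htop]; trivial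
  have hg2 : g ∈ closure ((entries d : StarSubalgebra ℂ C(CPd d, ℂ)) : Set C(CPd d, ℂ)) := hg
  have hg3 : g ∈ closure (goodSub (TQ E) h1 hT : Set C(CPd d, ℂ)) :=
    closure_mono (fun x hx => hle hx) hg2
  exact goodSub_closed (TQ E) h1 hT g hg3 f

theorem rank_aux {β γ : Type*} [Fintype β] [Fintype γ] [DecidableEq β] [DecidableEq γ]
    (R : Matrix β γ ℂ) (t : ℝ) (ht : 0 < t) (h : Rᴴ * R = (t : ℂ) • (1 : Matrix γ γ ℂ)) (r : ℕ)
    (hr : Fintype.card γ = r) :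
    IsPr (((t⁻¹ : ℝ) : ℂ) • (R * Rᴴ)) ∧
      Eqv (((t⁻¹ : ℝ) : ℂ) • (R * Rᴴ)) (1 : Matrix (Fin r) (Fin r) ℂ) ∧ ‖R * Rᴴ‖ ≤ t := by
  have hs : Real.sqrt t⁻¹ * Real.sqrt t⁻¹ = t⁻¹ := Real.mul_self_sqrt (by positivity)
  have ht' : (t : ℂ) ≠ 0 := by exact_mod_cast ht.ne'
  set v : Matrix β γ ℂ := ((Real.sqrt t⁻¹ : ℝ) : ℂ) • R with hv
  have hvT : vᴴ = ((Real.sqrt t⁻¹ : ℝ) : ℂ) • Rᴴ := by
    rw [hv, conjTranspose_smul, Complex.star_def, Complex.conj_ofReal]
  have e1 : v * vᴴ = ((t⁻¹ : ℝ) : ℂ) • (R * Rᴴ) := by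
    rw [hvT, hv, Matrix.smul_mul, Matrix.mul_smul, smul_smul, ← Complex.ofReal_mul, hs]
  have e2 : vᴴ * v = 1 := by
    rw [hvT, hv, Matrix.smul_mul, Matrix.mul_smul, smul_smul, ← Complex.ofReal_mul, hs, h,
      smul_smul, Complex.ofReal_inv, inv_mul_cancel₀ ht', one_smul]
  have hE : Eqv (((t⁻¹ : ℝ) : ℂ) • (R * Rᴴ)) (1 : Matrix γ γ ℂ) :=
    ⟨v, e1, e2, by rw [Matrix.mul_assoc, e2, Matrix.mul_one]⟩
  refine ⟨hE.isPr_left, hE.trans ?_, ?_⟩
  · subst hr
    refine Eqv.of_submatrix IsPr.one (Fintype.equivFin γ).symm ?_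
    rw [Matrix.submatrix_one_equiv]
  · have h3 : ‖Rᴴ * R‖ ≤ t := by
      rw [h, norm_smul, Complex.norm_real, Real.norm_eq_abs, abs_of_pos ht]
      calc t * ‖(1 : Matrix γ γ ℂ)‖ ≤ t * 1 := by gcongr; exact norm_one_le
        _ = t := mul_one t
    have h4 : ‖R * Rᴴ‖ = ‖Rᴴ * R‖ := by
      have a1 := Matrix.l2_opNorm_conjTranspose_mul_self R
      have a2 := Matrix.l2_opNorm_conjTranspose_mul_self Rᴴ
      rw [conjTranspose_conjTranspose, Matrix.l2_opNorm_conjTranspose] at a2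
      rw [a1, a2]
    rw [h4]
    exact h3

/-- entrywise application -/
noncomputable def tcQ (E : ℕ → C(USph d, ℂ) →ₗ[ℂ] ℂ) (n : ℕ)
    (e : Matrix (Fin d) (Fin d) C(CPd d, ℂ)) : Matrix (Fin d × Idx d n) (Fin d × Idx d n) ℂ :=
  fun a b => TQ E n (e a.1 b.1) a.2 b.2

theorem near_taut (hd1 : 1 ≤ d) (E : ℕ → C(USph d, ℂ) →ₗ[ℂ] ℂ)
    (hM : ∀ n, Mom d (n + 1) (E n)) : ∀ ε > (0 : ℝ), ∀ᶠ n in atTop,
      ∃ Eh : Matrix (Fin d × Idx d n) (Fin d × Idx d n) ℂ, IsPr Eh ∧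
        Eqv Eh (1 : Matrix (Fin ((n + d).choose (d - 1))) (Fin ((n + d).choose (d - 1))) ℂ) ∧
        ‖tcQ E n (taut d) - Eh‖ < ε := by
  have hdpos : (0 : ℝ) < d := by exact_mod_cast hd1
  intro ε hε
  have hlim : Tendsto (fun n : ℕ => ((d : ℝ) - 1) / ((n : ℝ) + d)) atTop (𝓝 0) :=
    Tendsto.div_atTop tendsto_const_nhds
      (tendsto_atTop_add_const_right _ _ tendsto_natCast_atTop_atTop)
  filter_upwards [(tendsto_order.1 hlim).2 ε hε] with n hn
  set R : Matrix (Fin d × Idx d n) (Idx d (n + 1)) ℂ := fun x c => Lo n x.1 x.2 c with hR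
  have hRR : Rᴴ * R = (((n + 1 : ℝ)) : ℂ) • (1 : Matrix (Idx d (n + 1)) (Idx d (n + 1)) ℂ) := by
    have h1 := sum_conjT_mul_Lo (d := d) n
    have h2 : Rᴴ * R = ∑ i : Fin d, (Lo n i)ᴴ * Lo n i := by
      ext a b
      rw [Matrix.mul_apply, Matrix.sum_apply, Fintype.sum_prod_type]
      rfl
    rw [h2, h1]
    push_cast
    rfl
  obtain ⟨k1, k2, k3⟩ := rank_aux R (n + 1) (by positivity) hRR ((n + d).choose (d - 1)) (by
    rw [card_idx d (n + 1) hd1]
    congr 1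
    omega)
  refine ⟨_, k1, k2, ?_⟩
  have hnd : (0 : ℝ) < n + d := by positivity
  have e : tcQ E n (taut d) = (((n + d : ℝ)⁻¹ : ℝ) : ℂ) • (R * Rᴴ) := by
    ext ⟨i, a⟩ ⟨j, b⟩
    change TQ E n (taut d i j) a b = _
    rw [TQ_taut hd1 E hM, Matrix.smul_apply, Matrix.smul_apply, Complex.ofReal_inv]
    rfl
  rw [e, ← sub_smul, norm_smul, ← Complex.ofReal_sub, Complex.norm_real, Real.norm_eq_abs]
  have hd1' : (0 : ℝ) ≤ d - 1 := by
    have : (1 : ℝ) ≤ d := by exact_mod_cast hd1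
    linarith
  have habs : |(n + d : ℝ)⁻¹ - (n + 1 : ℝ)⁻¹| = (d - 1) / ((n + d) * (n + 1)) := by
    have : (n + d : ℝ)⁻¹ - (n + 1 : ℝ)⁻¹ = -((d - 1) / ((n + d) * (n + 1))) := by
      field_simp
      ring
    rw [this, abs_neg, abs_of_nonneg]
    positivity
  rw [habs]
  calc (d - 1) / ((n + d) * (n + 1)) * ‖R * Rᴴ‖ ≤ (d - 1) / ((n + d) * (n + 1)) * (n + 1 : ℝ) := by
        gcongr
    _ = (d - 1) / (n + d : ℝ) := by field_simp
    _ < ε := hn

theorem near_tautB (hd1 : 1 ≤ d) (E : ℕ → C(USph d, ℂ) →ₗ[ℂ] ℂ)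
    (hM : ∀ n, Mom d (n + 1) (E n)) : ∀ ε > (0 : ℝ), ∀ᶠ n in atTop,
      ∃ Eh : Matrix (Fin d × Idx d n) (Fin d × Idx d n) ℂ, IsPr Eh ∧
        Eqv Eh (1 : Matrix (Fin ((n + d - 2).choose (d - 1)))
          (Fin ((n + d - 2).choose (d - 1))) ℂ) ∧
        ‖tcQ E n (tautB d) - Eh‖ < ε := by
  have hdpos : (0 : ℝ) < d := by exact_mod_cast hd1
  intro ε hε
  have hlim : Tendsto (fun n : ℕ => (2 : ℝ) / ((n : ℝ) + d)) atTop (𝓝 0) :=
    Tendsto.div_atTop tendsto_const_nhds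
      (tendsto_atTop_add_const_right _ _ tendsto_natCast_atTop_atTop)
  filter_upwards [(tendsto_order.1 hlim).2 ε hε, eventually_ge_atTop 1] with n hn hn1
  obtain ⟨m, rfl⟩ : ∃ m, n = m + 1 := ⟨n - 1, by omega⟩
  set R : Matrix (Fin d × Idx d (m + 1)) (Idx d m) ℂ := fun x c => (Lo m x.1)ᴴ x.2 c with hR
  have hRR : Rᴴ * R = (((m + d : ℝ)) : ℂ) • (1 : Matrix (Idx d m) (Idx d m) ℂ) := by
    have h1 := sum_Lo_mul_conjT (d := d) m
    have h2 : Rᴴ * R = ∑ i : Fin d, Lo m i * (Lo m i)ᴴ := by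
      ext a b
      rw [Matrix.mul_apply, Matrix.sum_apply, Fintype.sum_prod_type]
      apply Finset.sum_congr rfl
      intro i _
      rw [Matrix.mul_apply]
      apply Finset.sum_congr rfl
      intro c _
      rw [conjTranspose_apply, hR]
      simp only [conjTranspose_apply, star_star]
    rw [h2, h1]
    push_cast
    rfl
  have hmd : (0 : ℝ) < m + d := by positivity
  obtain ⟨k1, k2, k3⟩ := rank_aux R (m + d) hmd hRR ((m + 1 + d - 2).choose (d - 1)) (by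
    rw [card_idx d m hd1]
    congr 1
    omega)
  refine ⟨_, k1, k2, ?_⟩
  have e : tcQ E (m + 1) (tautB d) = (((m + 1 + d : ℝ)⁻¹ : ℝ) : ℂ) • (R * Rᴴ + 1) := by
    ext ⟨i, a⟩ ⟨j, b⟩
    change TQ E (m + 1) (taut d j i) a b = _
    rw [TQ_taut hd1 E hM, ccr, Matrix.smul_apply, Matrix.smul_apply, Complex.ofReal_inv]
    have e1 : (((m + 1 : ℕ) + d : ℝ) : ℂ) = ((m + 1 + d : ℝ) : ℂ) := by push_cast; rfl
    rw [e1]
    congr 1
    rw [Matrix.add_apply, Matrix.add_apply]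
    congr 1
    · rw [Matrix.mul_apply, Matrix.mul_apply]
      apply Finset.sum_congr rfl
      intro c _
      rw [conjTranspose_apply R, hR]
      simp only [conjTranspose_apply, star_star]
    · by_cases hij : i = j
      · subst hij
        simp [Matrix.one_apply]
      · simp [hij]
  have e2 : (((m + 1 + d : ℝ)⁻¹ : ℝ) : ℂ) • (R * Rᴴ + 1) - (((m + d : ℝ)⁻¹ : ℝ) : ℂ) • (R * Rᴴ) =
      (((m + 1 + d : ℝ)⁻¹ - (m + d : ℝ)⁻¹ : ℝ) : ℂ) • (R * Rᴴ) +
        (((m + 1 + d : ℝ)⁻¹ : ℝ) : ℂ) •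
          (1 : Matrix (Fin d × Idx d (m + 1)) (Fin d × Idx d (m + 1)) ℂ) := by
    rw [smul_add, Complex.ofReal_sub, sub_smul]
    abel
  rw [e, e2]
  refine lt_of_le_of_lt (norm_add_le _ _) ?_
  rw [norm_smul, norm_smul, Complex.norm_real, Complex.norm_real, Real.norm_eq_abs,
    Real.norm_eq_abs]
  have habs : |(m + 1 + d : ℝ)⁻¹ - (m + d : ℝ)⁻¹| = 1 / ((m + 1 + d) * (m + d)) := by
    have : (m + 1 + d : ℝ)⁻¹ - (m + d : ℝ)⁻¹ = -(1 / ((m + 1 + d) * (m + d))) := by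
      field_simp
      ring
    rw [this, abs_neg, abs_of_nonneg (by positivity)]
  rw [habs, abs_of_nonneg (by positivity : (0 : ℝ) ≤ (m + 1 + d : ℝ)⁻¹)]
  have hn' : (2 : ℝ) / (m + 1 + d) < ε := by
    have := hn
    push_cast at this
    exact this
  have h1le : ‖(1 : Matrix (Fin d × Idx d (m + 1)) (Fin d × Idx d (m + 1)) ℂ)‖ ≤ 1 := norm_one_le
  calc 1 / ((m + 1 + d) * (m + d)) * ‖R * Rᴴ‖ + (m + 1 + d : ℝ)⁻¹ *
        ‖(1 : Matrix (Fin d × Idx d (m + 1)) (Fin d × Idx d (m + 1)) ℂ)‖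
      ≤ 1 / ((m + 1 + d) * (m + d)) * (m + d : ℝ) + (m + 1 + d : ℝ)⁻¹ * 1 := by
        gcongr
    _ = 2 / (m + 1 + d : ℝ) := by field_simp; ring
    _ < ε := hn'

/-- the quantisation -/
noncomputable def mkA (hd : 1 ≤ d) (E : ℕ → C(USph d, ℂ) →ₗ[ℂ] ℂ) (hE : ∀ n, Pos (E n))
    (hM : ∀ n, Mom d (n + 1) (E n)) : AQ (CPd d) where
  α n := Idx d n
  T := TQ E
  T_star n f := TT_star (cf n) (hE n) (f.comp (mkC d))
  T_norm n f := (TT_norm (cf n) (hE n) (cf_orth (by omega) (hM n)) (f.comp (mkC d))).trans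
    (norm_comp_le f)
  T_mul f g := TQ_mul hd E hE hM f g

end Quant

open Quant

theorem exists_quant (d : ℕ) (hd : 2 ≤ d) : ∃ A : AQ (CPd d), (∀ n, A.T n 1 = 1) ∧
    (∀ n, Fintype.card (A.α n) = (n + d - 1).choose (d - 1)) ∧
    A.NearRank (taut d) (fun n => (n + d).choose (d - 1)) ∧
    A.NearRank (tautB d) (fun n => (n + d - 2).choose (d - 1)) := by
  have hd1 : 1 ≤ d := by omega
  choose E hE hM using fun n => exists_E d hd1 (n + 1)
  have hO : ∀ n, Orth (E n) (cf (d := d) n) := fun n => cf_orth (by omega) (hM n)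
  refine ⟨mkA hd1 E hE hM, fun n => TT_one (cf n) (hO n), fun n => card_idx d n hd1,
    near_taut hd1 E hM, near_tautB hd1 E hM⟩

end Pool.Agent.Helper75.KT
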