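import Pool.Agent.Helper75.KT.CP

/-!
# Positive functionals and compressions of multiplication operators (part of L3)
-/

set_option linter.unusedSectionVars false

namespace Pool.Agent.Helper75.KT

open Matrix Filter Topology
open scoped Kronecker ComplexOrder Matrix.Norms.L2Operator

namespace Quant

section Norm

variable {α : Type*} [Fintype α] [DecidableEq α]

theorem nsq_re (v : α → ℂ) : (star v ⬝ᵥ v).re = ‖WithLp.toLp 2 v‖ ^ 2 := by
  rw [EuclideanSpace.norm_sq_eq, dotProduct, Complex.re_sum]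
  apply Finset.sum_congr rfl
  intro i _
  rw [Pi.star_apply, Complex.star_def, ← Complex.normSq_eq_conj_mul_self, Complex.ofReal_re,
    Complex.normSq_eq_norm_sq]

theorem nsq_im (v : α → ℂ) : (star v ⬝ᵥ v).im = 0 := by
  rw [dotProduct, Complex.im_sum]
  apply Finset.sum_eq_zero
  intro i _
  rw [Pi.star_apply, Complex.star_def, ← Complex.normSq_eq_conj_mul_self, Complex.ofReal_im]

theorem nsq_nonneg (v : α → ℂ) : 0 ≤ (star v ⬝ᵥ v).re := by
  rw [nsq_re]; positivity

theorem norm_le_of_bilin (M : Matrix α α ℂ) (C : ℝ) (hC : 0 ≤ C)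
    (h : ∀ u v : α → ℂ, ‖star u ⬝ᵥ (M *ᵥ v)‖ ^ 2 ≤
      C ^ 2 * (star u ⬝ᵥ u).re * (star v ⬝ᵥ v).re) : ‖M‖ ≤ C := by
  rw [Matrix.l2_opNorm_def]
  refine ContinuousLinearMap.opNorm_le_bound _ hC fun x => ?_
  have e : ((toEuclideanLin (𝕜 := ℂ) (m := α) (n := α)).trans LinearMap.toContinuousLinearMap M) x
      = WithLp.toLp 2 (M *ᵥ x.ofLp) := rfl
  rw [e]
  set w := M *ᵥ x.ofLp with hw
  have h1 := h w x.ofLp
  rw [← hw] at h1
  have h2 : ‖star w ⬝ᵥ w‖ = ‖WithLp.toLp 2 w‖ ^ 2 := by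
    have : star w ⬝ᵥ w = ((‖WithLp.toLp 2 w‖ ^ 2 : ℝ) : ℂ) := by
      apply Complex.ext
      · rw [nsq_re, Complex.ofReal_re]
      · rw [nsq_im, Complex.ofReal_im]
    rw [this, Complex.norm_real, Real.norm_eq_abs, abs_of_nonneg (by positivity)]
  rw [h2, nsq_re, nsq_re] at h1
  have h3 : ‖WithLp.toLp 2 x.ofLp‖ = ‖x‖ := rfl
  rw [h3] at h1
  set s := ‖WithLp.toLp 2 w‖ with hs
  have hs0 : 0 ≤ s := norm_nonneg _
  by_contra hcon
  push Not at hcon
  have hpos : 0 < s := lt_of_le_of_lt (by positivity) hcon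
  have h4 : (C * ‖x‖) ^ 2 < s ^ 2 := by
    apply pow_lt_pow_left₀ hcon (by positivity) (by norm_num)
  have h5 : C ^ 2 * s ^ 2 * ‖x‖ ^ 2 < s ^ 2 * s ^ 2 := by
    calc C ^ 2 * s ^ 2 * ‖x‖ ^ 2 = (C * ‖x‖) ^ 2 * s ^ 2 := by ring
      _ < s ^ 2 * s ^ 2 := mul_lt_mul_of_pos_right h4 (by positivity)
  nlinarith

end Norm

section Pos

variable {S : Type*} [TopologicalSpace S] [CompactSpace S] {E : C(S, ℂ) →ₗ[ℂ] ℂ}

/-- positivity of a functional -/
def Pos (E : C(S, ℂ) →ₗ[ℂ] ℂ) : Prop := ∀ f : C(S, ℂ), (∀ z, 0 ≤ f z) → 0 ≤ E f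

theorem Pos.real (hE : Pos E) (g : C(S, ℂ)) (hg : ∀ z, (g z).im = 0) : (E g).im = 0 := by
  have h1 : 0 ≤ E (g + algebraMap ℂ C(S, ℂ) (‖g‖ : ℂ)) := by
    apply hE
    intro z
    rw [Complex.nonneg_iff]
    constructor
    · have h := g.norm_coe_le_norm z
      have h2 := Complex.abs_re_le_norm (g z)
      have h3 := (abs_le.1 (h2.trans h)).1
      simp
      linarith
    · simp [hg z]
  have h2 : 0 ≤ E (algebraMap ℂ C(S, ℂ) (‖g‖ : ℂ)) := by
    apply hE
    intro z
    rw [Complex.nonneg_iff]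
    constructor
    · simp
    · simp
  rw [map_add] at h1
  have h3 := (Complex.nonneg_iff.1 h1).2
  have h4 := (Complex.nonneg_iff.1 h2).2
  rw [Complex.add_im, ← h4, add_zero] at h3
  exact h3.symm

theorem Pos.conj (hE : Pos E) (f : C(S, ℂ)) : E (star f) = star (E f) := by
  have ha : (E (f + star f)).im = 0 := hE.real _ (fun z => by simp)
  have hb : (E (Complex.I • (f - star f))).im = 0 := hE.real _ (fun z => by
    simp)
  rw [map_add] at ha
  rw [map_smul, map_sub] at hb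
  apply Complex.ext
  · simp at hb ⊢
    linarith
  · simp at ha ⊢
    linarith

/-- the semi inner product of a positive functional -/
@[reducible] noncomputable def Pos.core (hE : Pos E) : PreInnerProductSpace.Core ℂ C(S, ℂ) where
  inner f g := E (Star.star f * g)
  conj_inner_symm f g := by
    change Star.star (E (Star.star g * f)) = _
    rw [← hE.conj, star_mul', star_star, mul_comm]
  re_inner_nonneg f := by
    have : 0 ≤ E (Star.star f * f) := hE _ (fun z => by
      change 0 ≤ Star.star (f z) * f z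
      exact star_mul_self_nonneg _)
    exact (Complex.nonneg_iff.1 this).1
  add_left f g h := by
    change E (Star.star (f + g) * h) = E _ + E _
    rw [star_add, add_mul, map_add]
  smul_left f g r := by
    change E (Star.star (r • f) * g) = _
    rw [star_smul, smul_mul_assoc, map_smul]
    rfl

theorem Pos.cs (hE : Pos E) (f g : C(S, ℂ)) :
    ‖E (Star.star f * g)‖ ^ 2 ≤ (E (Star.star f * f)).re * (E (Star.star g * g)).re := by
  have h := @InnerProductSpace.Core.inner_mul_inner_self_le ℂ C(S, ℂ) _ _ _ hE.core f g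
  have e : ‖E (Star.star g * f)‖ = ‖E (Star.star f * g)‖ := by
    have : E (Star.star g * f) = Star.star (E (Star.star f * g)) := by
      rw [← hE.conj, star_mul', star_star, mul_comm]
    rw [this, norm_star]
  have h' : ‖E (Star.star f * g)‖ * ‖E (Star.star g * f)‖ ≤
    (E (Star.star f * f)).re * (E (Star.star g * g)).re := h
  rw [e, ← pow_two] at h'
  exact h'

theorem Pos.sq_nonneg (hE : Pos E) (f : C(S, ℂ)) : 0 ≤ (E (Star.star f * f)).re :=
  hE.core.re_inner_nonneg f

theorem Pos.sq_mul_le (hE : Pos E) (f g : C(S, ℂ)) :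
    (E (Star.star (f * g) * (f * g))).re ≤ ‖f‖ ^ 2 * (E (Star.star g * g)).re := by
  have h : 0 ≤ E (((‖f‖ ^ 2 : ℝ) : ℂ) • (Star.star g * g) - Star.star (f * g) * (f * g)) := by
    apply hE
    intro z
    have h1 : ‖f z‖ ≤ ‖f‖ := f.norm_coe_le_norm z
    have e : (((‖f‖ ^ 2 : ℝ) : ℂ) • (Star.star g * g) - Star.star (f * g) * (f * g)) z
        = (((‖f‖ ^ 2 - ‖f z‖ ^ 2) * ‖g z‖ ^ 2 : ℝ) : ℂ) := by
      have e1 : Star.star (f z) * f z = ((‖f z‖ ^ 2 : ℝ) : ℂ) := by
        rw [Complex.star_def, ← Complex.normSq_eq_conj_mul_self, Complex.normSq_eq_norm_sq]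
      have e2 : Star.star (g z) * g z = ((‖g z‖ ^ 2 : ℝ) : ℂ) := by
        rw [Complex.star_def, ← Complex.normSq_eq_conj_mul_self, Complex.normSq_eq_norm_sq]
      change ((‖f‖ ^ 2 : ℝ) : ℂ) * (Star.star (g z) * g z)
        - Star.star (f z * g z) * (f z * g z) = _
      rw [star_mul']
      have : Star.star (f z) * Star.star (g z) * (f z * g z)
        = (Star.star (f z) * f z) * (Star.star (g z) * g z) := by ring
      rw [this, e1, e2]
      push_cast
      ring
    rw [e]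
    rw [Complex.zero_le_real]
    apply mul_nonneg
    · have := pow_le_pow_left₀ (norm_nonneg _) h1 2
      linarith
    · positivity
  rw [map_sub, map_smul] at h
  have h2 := (Complex.nonneg_iff.1 h).1
  rw [Complex.sub_re, smul_eq_mul, Complex.re_ofReal_mul] at h2
  linarith

end Pos

section Toep

variable {S : Type*} [TopologicalSpace S] [CompactSpace S] {E : C(S, ℂ) →ₗ[ℂ] ℂ}
variable {α : Type*} [Fintype α] [DecidableEq α] (c : α → C(S, ℂ))

/-- orthonormality of the conjugates of the functions `c a` -/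
def Orth (E : C(S, ℂ) →ₗ[ℂ] ℂ) (c : α → C(S, ℂ)) : Prop :=
  ∀ a b, E (c a * star (c b)) = if a = b then 1 else 0

/-- the element of the Hardy space with coefficient vector `v` -/
noncomputable def GG (v : α → ℂ) : C(S, ℂ) := ∑ b, v b • star (c b)

/-- the Toeplitz matrix of `f` -/
noncomputable def TT (E : C(S, ℂ) →ₗ[ℂ] ℂ) (c : α → C(S, ℂ)) (f : C(S, ℂ)) : Matrix α α ℂ :=
  Matrix.of fun a b => E (f * c a * star (c b))

theorem E_GG (u v : α → ℂ) (f : C(S, ℂ)) :
    E (f * star (GG c u) * GG c v) = star u ⬝ᵥ (TT E c f *ᵥ v) := by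
  have h1 : star (GG c u) = ∑ a, star (u a) • c a := by
    rw [GG, star_sum]
    apply Finset.sum_congr rfl
    intro a _
    rw [star_smul, star_star]
  rw [h1, GG, mul_assoc, Finset.sum_mul, Finset.mul_sum, map_sum, dotProduct]
  apply Finset.sum_congr rfl
  intro a _
  rw [Finset.mul_sum, Finset.mul_sum, map_sum, mulVec, dotProduct, Finset.mul_sum]
  apply Finset.sum_congr rfl
  intro b _
  rw [smul_mul_assoc, mul_smul_comm, mul_smul_comm, mul_smul_comm, map_smul, map_smul, smul_eq_mul,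
    smul_eq_mul, Pi.star_apply, TT, Matrix.of_apply, ← mul_assoc f]
  ring

theorem TT_one (h : Orth E c) : TT E c 1 = 1 := by
  ext a b
  rw [TT, Matrix.of_apply, one_mul, h, Matrix.one_apply]

theorem E_GG_one (h : Orth E c) (u v : α → ℂ) :
    E (star (GG c u) * GG c v) = star u ⬝ᵥ v := by
  have := E_GG (E := E) c u v 1
  rw [one_mul, TT_one c h, Matrix.one_mulVec] at this
  exact this

theorem TT_star (hE : Pos E) (f : C(S, ℂ)) : TT E c (star f) = (TT E c f)ᴴ := by
  ext a b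
  rw [conjTranspose_apply, TT, TT, Matrix.of_apply, Matrix.of_apply, ← hE.conj]
  congr 1
  rw [star_mul', star_mul', star_star]
  ring

theorem TT_norm (hE : Pos E) (h : Orth E c) (f : C(S, ℂ)) : ‖TT E c f‖ ≤ ‖f‖ := by
  refine norm_le_of_bilin _ _ (norm_nonneg _) fun u v => ?_
  rw [← E_GG]
  have e : f * star (GG c u) * GG c v = star (star f * GG c u) * GG c v := by
    rw [star_mul', star_star]
  rw [e]
  refine (hE.cs _ _).trans ?_
  rw [E_GG_one c h]
  have h1 := hE.sq_mul_le (star f) (GG c u)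
  rw [E_GG_one c h, norm_star] at h1
  exact mul_le_mul_of_nonneg_right h1 (nsq_nonneg v)

theorem E_defect (hE : Pos E) (h : Orth E c) (g : C(S, ℂ)) (v : α → ℂ) :
    (E (star (g * GG c v - GG c (TT E c g *ᵥ v)) * (g * GG c v - GG c (TT E c g *ᵥ v)))).re =
      (star v ⬝ᵥ (TT E c (star g * g) *ᵥ v)).re -
        (star (TT E c g *ᵥ v) ⬝ᵥ (TT E c g *ᵥ v)).re := by
  set w := TT E c g *ᵥ v with hw
  have e1 : star (g * GG c v - GG c w) * (g * GG c v - GG c w) =
      (star g * g) * star (GG c v) * GG c v - g * star (GG c w) * GG c v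
        - star (g * star (GG c w) * GG c v) + star (GG c w) * GG c w := by
    rw [star_sub, star_mul', star_mul', star_mul', star_star]
    ring
  rw [e1, map_add, map_sub, map_sub, hE.conj, E_GG, E_GG, E_GG_one c h, ← hw]
  simp only [Complex.add_re, Complex.sub_re, Complex.star_def, Complex.conj_re]
  ring

theorem TT_mul_bound (hE : Pos E) (h : Orth E c) (f g : C(S, ℂ)) (κ : ℝ) (hκ : 0 ≤ κ)
    (hg : ∀ v : α → ℂ, (star v ⬝ᵥ (TT E c (star g * g) *ᵥ v)).re -
        (star (TT E c g *ᵥ v) ⬝ᵥ (TT E c g *ᵥ v)).re ≤ κ ^ 2 * (star v ⬝ᵥ v).re) :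
    ‖TT E c (f * g) - TT E c f * TT E c g‖ ≤ ‖f‖ * κ := by
  refine norm_le_of_bilin _ _ (by positivity) fun u v => ?_
  have e1 : star u ⬝ᵥ ((TT E c (f * g) - TT E c f * TT E c g) *ᵥ v) =
      E (star (star f * GG c u) * (g * GG c v - GG c (TT E c g *ᵥ v))) := by
    rw [Matrix.sub_mulVec, dotProduct_sub, ← Matrix.mulVec_mulVec, ← E_GG, ← E_GG, ← map_sub,
      star_mul', star_star]
    congr 1
    ring
  rw [e1]
  refine (hE.cs _ _).trans ?_
  rw [E_defect c hE h]
  have h1 := hE.sq_mul_le (star f) (GG c u)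
  rw [E_GG_one c h, norm_star] at h1
  calc _ ≤ (‖f‖ ^ 2 * (star u ⬝ᵥ u).re) * (κ ^ 2 * (star v ⬝ᵥ v).re) := by
        apply mul_le_mul h1 (hg v)
        · rw [← E_defect c hE h]
          exact hE.sq_nonneg _
        · have := nsq_nonneg u
          positivity
    _ = _ := by ring

theorem defect_nonneg (hE : Pos E) (h : Orth E c) (g : C(S, ℂ)) (v : α → ℂ) :
    0 ≤ (star v ⬝ᵥ (TT E c (star g * g) *ᵥ v)).re -
        (star (TT E c g *ᵥ v) ⬝ᵥ (TT E c g *ᵥ v)).re := by
  rw [← E_defect c hE h]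
  exact hE.sq_nonneg _

end Toep

end Quant

end Pool.Agent.Helper75.KT
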