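import Pool.Agent.Helper85.KTQuantA

/-!
# Ladder matrices and the moments (part of L3)
-/

set_option linter.unusedSectionVars false

namespace Pool.Agent.Helper75.KT

open Matrix Filter Topology CPd
open scoped Kronecker ComplexOrder Matrix.Norms.L2Operator Nat

namespace Quant

/-- multi-indices of degree `n` -/
abbrev Idx (d n : ℕ) : Type := {a : Fin d → ℕ // ∑ i, a i = n}

noncomputable instance instFintypeIdx (d n : ℕ) : Fintype (Idx d n) :=
  Fintype.ofEquiv _ (Sym.equivNatSumOfFintype (Fin d) n)

theorem card_idx (d n : ℕ) (hd : 1 ≤ d) : Fintype.card (Idx d n) = (n + d - 1).choose (d - 1) := by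
  rw [Fintype.card_congr (Sym.equivNatSumOfFintype (Fin d) n).symm, Sym.card_sym_eq_choose,
    Fintype.card_fin]
  have h1 : d + n - 1 = n + (d - 1) := by omega
  have h2 : n + d - 1 = n + (d - 1) := by omega
  rw [h1, h2]
  exact Nat.choose_symm_add

variable {d : ℕ}

/-- adding a unit vector -/
def up (a : Fin d → ℕ) (i : Fin d) : Fin d → ℕ := a + Pi.single i 1

theorem up_same (a : Fin d → ℕ) (i : Fin d) : up a i i = a i + 1 := by simp [up]

theorem up_ne (a : Fin d → ℕ) {i j : Fin d} (h : j ≠ i) : up a i j = a j := by simp [up, h]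

theorem up_inj {a b : Fin d → ℕ} {i : Fin d} : up a i = up b i ↔ a = b := by
  simp [up]

theorem sum_up (a : Fin d → ℕ) (i : Fin d) : ∑ j, up a i j = ∑ j, a j + 1 := by
  simp [up, Finset.sum_add_distrib]

/-- adding a unit vector to an index -/
def upI {n : ℕ} (a : Idx d n) (i : Fin d) : Idx d (n + 1) := ⟨up a.1 i, by rw [sum_up, a.2]⟩

theorem exists_down {n : ℕ} (c : Idx d (n + 1)) (i : Fin d) (h : c.1 i ≠ 0) :
    ∃ a : Idx d n, c = upI a i := by
  have h1 : up (c.1 - Pi.single i 1) i = c.1 := by
    funext j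
    by_cases hj : j = i
    · subst hj
      simp [up]
      omega
    · simp [up, hj]
  refine ⟨⟨c.1 - Pi.single i 1, ?_⟩, ?_⟩
  · have h2 := sum_up (c.1 - Pi.single i 1) i
    rw [h1, c.2] at h2
    omega
  · apply Subtype.ext
    exact h1.symm

theorem upI_inj {n : ℕ} {a b : Idx d n} {i : Fin d} : upI a i = upI b i ↔ a = b := by
  rw [Subtype.ext_iff, Subtype.ext_iff]
  exact up_inj

/-- the annihilation operators -/
noncomputable def Lo (n : ℕ) (i : Fin d) : Matrix (Idx d n) (Idx d (n + 1)) ℂ :=
  fun a c => if c = upI a i then ((Real.sqrt (a.1 i + 1) : ℝ) : ℂ) else 0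

theorem Lo_mul_conjT (n : ℕ) (i j : Fin d) (a b : Idx d n) :
    (Lo n i * (Lo n j)ᴴ) a b =
      if upI a i = upI b j then ((Real.sqrt (a.1 i + 1) * Real.sqrt (b.1 j + 1) : ℝ) : ℂ)
      else 0 := by
  rw [Matrix.mul_apply, Finset.sum_eq_single (upI a i)]
  · rw [conjTranspose_apply, Lo, Lo, if_pos rfl]
    split_ifs with h
    · rw [Complex.star_def, Complex.conj_ofReal]
      push_cast
      rfl
    · simp
  · intro c _ hc
    rw [Lo, if_neg hc, zero_mul]
  · simp

theorem conjT_mul_Lo (n : ℕ) (i j : Fin d) (a b : Idx d (n + 1)) :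
    ((Lo n i)ᴴ * Lo n j) a b = ∑ c : Idx d n, if a = upI c i ∧ b = upI c j then
      ((Real.sqrt (c.1 i + 1) * Real.sqrt (c.1 j + 1) : ℝ) : ℂ) else 0 := by
  rw [Matrix.mul_apply]
  apply Finset.sum_congr rfl
  intro c _
  rw [conjTranspose_apply, Lo, Lo]
  by_cases h1 : a = upI c i
  · by_cases h2 : b = upI c j
    · rw [if_pos h1, if_pos h2, if_pos ⟨h1, h2⟩, Complex.star_def, Complex.conj_ofReal]
      push_cast
      rfl
    · rw [if_neg h2, mul_zero, if_neg (fun h => h2 h.2)]
  · rw [if_neg h1, star_zero, zero_mul, if_neg (fun h => h1 h.1)]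

theorem number_aux (n : ℕ) (i : Fin d) (a b : Idx d (n + 1)) :
    ((Lo n i)ᴴ * Lo n i) a b = if a = b then ((a.1 i : ℕ) : ℂ) else 0 := by
  rw [conjT_mul_Lo]
  split_ifs with hab
  · subst hab
    by_cases h0 : a.1 i = 0
    · rw [h0, Nat.cast_zero]
      apply Finset.sum_eq_zero
      intro c _
      rw [if_neg]
      rintro ⟨h, -⟩
      rw [h] at h0
      change up c.1 i i = 0 at h0
      rw [up_same] at h0
      omega
    · obtain ⟨c, hc⟩ := exists_down a i h0
      rw [Finset.sum_eq_single c]
      · rw [if_pos ⟨hc, hc⟩, Real.mul_self_sqrt (by positivity)]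
        rw [hc]
        change _ = ((up c.1 i i : ℕ) : ℂ)
        rw [up_same]
        push_cast
        rfl
      · intro c' _ hc'
        rw [if_neg]
        rintro ⟨h, -⟩
        exact hc' (upI_inj.1 (h.symm.trans hc))
      · simp
  · apply Finset.sum_eq_zero
    intro c _
    rw [if_neg]
    rintro ⟨h1, h2⟩
    exact hab (h1.trans h2.symm)

theorem sum_conjT_mul_Lo (n : ℕ) :
    ∑ i : Fin d, (Lo n i)ᴴ * Lo n i = ((n + 1 : ℕ) : ℂ) • (1 : Matrix (Idx d (n + 1)) _ ℂ) := by
  ext a b
  rw [Matrix.sum_apply, Matrix.smul_apply, Matrix.one_apply]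
  simp only [number_aux]
  by_cases h : a = b
  · subst h
    simp only [if_true]
    rw [← Nat.cast_sum, a.2]
    simp
  · simp [h]

theorem sum_Lo_mul_conjT (n : ℕ) :
    ∑ i : Fin d, Lo n i * (Lo n i)ᴴ = ((n + d : ℕ) : ℂ) • (1 : Matrix (Idx d n) _ ℂ) := by
  ext a b
  rw [Matrix.sum_apply, Matrix.smul_apply, Matrix.one_apply]
  simp only [Lo_mul_conjT, upI_inj]
  by_cases h : a = b
  · subst h
    simp only [if_true]
    have : ∀ i : Fin d, ((Real.sqrt (a.1 i + 1) * Real.sqrt (a.1 i + 1) : ℝ) : ℂ)
        = ((a.1 i : ℕ) : ℂ) + 1 := by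
      intro i
      rw [Real.mul_self_sqrt (by positivity)]
      push_cast
      rfl
    rw [Finset.sum_congr rfl (fun i _ => this i), Finset.sum_add_distrib, ← Nat.cast_sum, a.2]
    simp
  · simp [h]

/-- canonical commutation relations -/
theorem ccr (m : ℕ) (i j : Fin d) :
    Lo (m + 1) j * (Lo (m + 1) i)ᴴ = (Lo m i)ᴴ * Lo m j + if i = j then 1 else 0 := by
  ext a b
  rw [Lo_mul_conjT, Matrix.add_apply]
  by_cases hij : i = j
  · subst hij
    rw [number_aux, if_pos rfl, Matrix.one_apply]
    simp only [upI_inj]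
    by_cases h : a = b
    · subst h
      simp only [if_true]
      rw [Real.mul_self_sqrt (by positivity)]
      push_cast
      rfl
    · simp [h]
  · rw [if_neg hij, Matrix.zero_apply, add_zero, conjT_mul_Lo]
    split_ifs with h
    · have hc := congrArg Subtype.val h
      change up a.1 j = up b.1 i at hc
      have hi : a.1 i = b.1 i + 1 := by
        have := congrFun hc i
        rwa [up_ne _ hij, up_same] at this
      have hj : a.1 j + 1 = b.1 j := by
        have := congrFun hc j
        rwa [up_ne _ (Ne.symm hij), up_same] at this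
      obtain ⟨c, hca⟩ := exists_down a i (by omega)
      have hcb : b = upI c j := by
        apply Subtype.ext
        funext k
        have hk := congrFun hc k
        rw [hca] at hk
        change up (up c.1 i) j k = up b.1 i k at hk
        change b.1 k = up c.1 j k
        by_cases hki : k = i
        · subst hki
          rw [up_same, up_ne _ hij, up_same] at hk
          rw [up_ne _ hij]
          omega
        · rw [up_ne b.1 hki] at hk
          rw [← hk]
          by_cases hkj : k = j
          · subst hkj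
            rw [up_same, up_same, up_ne _ hki]
          · rw [up_ne _ hkj, up_ne _ hkj, up_ne _ hki]
      rw [Finset.sum_eq_single c]
      · rw [if_pos ⟨hca, hcb⟩]
        have e1 : b.1 i = c.1 i := by
          rw [hcb]
          exact up_ne _ hij
        have e2 : a.1 j = c.1 j := by
          rw [hca]
          exact up_ne _ (Ne.symm hij)
        rw [e1, e2, mul_comm]
      · intro c' _ hc'
        rw [if_neg]
        rintro ⟨h1, -⟩
        exact hc' (upI_inj.1 (h1.symm.trans hca))
      · simp
    · symm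
      apply Finset.sum_eq_zero
      intro c _
      rw [if_neg]
      rintro ⟨h1, h2⟩
      apply h
      rw [h1, h2]
      apply Subtype.ext
      change up (up c.1 i) j = up (up c.1 j) i
      simp only [up]
      abel

end Quant

end Pool.Agent.Helper75.KT
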