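import Pool.Agent.Helper85.KTQuantB

/-!
# The quantisation of projective space (part of L3)
-/

set_option linter.unusedSectionVars false

namespace Pool.Agent.Helper75.KT

open Matrix Filter Topology CPd
open scoped Kronecker ComplexOrder Matrix.Norms.L2Operator Nat

namespace Quant

variable {d : ℕ}

/-- `(n + d - 1)! / (d - 1)!` -/
noncomputable def Kr (d n : ℕ) : ℝ := ((n + d - 1)! : ℝ) / ((d - 1)! : ℝ)

/-- `∏ a_i!` -/
noncomputable def Ar (a : Fin d → ℕ) : ℝ := ∏ i, ((a i)! : ℝ)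

theorem Kr_pos (d n : ℕ) : 0 < Kr d n := by
  unfold Kr; positivity

theorem Ar_pos (a : Fin d → ℕ) : 0 < Ar a := by
  unfold Ar
  exact Finset.prod_pos fun i _ => by positivity

theorem Kr_succ (hd : 1 ≤ d) (n : ℕ) : Kr d (n + 1) = (n + d) * Kr d n := by
  unfold Kr
  have e : n + 1 + d - 1 = (n + d - 1) + 1 := by omega
  rw [e, Nat.factorial_succ]
  have e2 : ((n + d - 1 + 1 : ℕ) : ℝ) = n + d := by
    rw [← Nat.cast_add]; congr 1; omega
  rw [Nat.cast_mul, e2]
  ring

theorem Ar_up (a : Fin d → ℕ) (i : Fin d) : Ar (up a i) = Ar a * (a i + 1) := by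
  unfold Ar
  rw [← Finset.mul_prod_erase Finset.univ _ (Finset.mem_univ i),
    ← Finset.mul_prod_erase Finset.univ (fun j => ((a j)! : ℝ)) (Finset.mem_univ i), up_same,
    Nat.factorial_succ]
  have : ∏ j ∈ Finset.univ.erase i, ((up a i j)! : ℝ) = ∏ j ∈ Finset.univ.erase i, ((a j)! : ℝ) := by
    apply Finset.prod_congr rfl
    intro j hj
    rw [up_ne _ (Finset.ne_of_mem_erase hj)]
  rw [this]
  push_cast
  ring

/-- the moments up to degree `N` -/
def Mom (d N : ℕ) (E : C(USph d, ℂ) →ₗ[ℂ] ℂ) : Prop :=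
  ∀ α β : Fin d → ℕ, ∑ i, α i ≤ N → ∑ i, α i = ∑ i, β i →
    E (mono α * star (mono β)) = if α = β then ((Ar α / Kr d (∑ i, α i) : ℝ) : ℂ) else 0

theorem exists_E (d : ℕ) (hd : 1 ≤ d) (N : ℕ) :
    ∃ E : C(USph d, ℂ) →ₗ[ℂ] ℂ, Pos E ∧ Mom d N E := by
  obtain ⟨E, h1, h2⟩ := exists_moment' d hd N
  refine ⟨E, h1, ?_⟩
  intro α β hN hab
  rw [h2 α β hN hab]
  split_ifs with h
  · unfold Ar Kr
    push_cast
    field_simp
  · rfl

/-- the coherent state coefficients -/
noncomputable def cf (n : ℕ) (a : Idx d n) : C(USph d, ℂ) :=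
  ((Real.sqrt (Kr d n / Ar a.1) : ℝ) : ℂ) • mono a.1

theorem cf_orth {N n : ℕ} (hn : n ≤ N) {E : C(USph d, ℂ) →ₗ[ℂ] ℂ} (hM : Mom d N E) :
    Orth E (cf (d := d) n) := by
  intro a b
  unfold cf
  rw [star_smul, smul_mul_assoc, mul_smul_comm, map_smul, map_smul,
    hM a.1 b.1 (by rw [a.2]; exact hn) (by rw [a.2, b.2])]
  by_cases h : a = b
  · subst h
    rw [if_pos rfl, if_pos rfl, a.2]
    have h1 := Ar_pos a.1
    have h2 := Kr_pos d n
    rw [smul_eq_mul, smul_eq_mul, Complex.star_def, Complex.conj_ofReal, ← Complex.ofReal_mul,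
      ← Complex.ofReal_mul, ← mul_assoc, Real.mul_self_sqrt (by positivity)]
    rw [show Kr d n / Ar a.1 * (Ar a.1 / Kr d n) = 1 by field_simp]
    simp
  · rw [if_neg h, if_neg (fun h' => h (Subtype.ext h')), smul_zero, smul_zero]

/-- coordinates -/
noncomputable def coo (i : Fin d) : C(USph d, ℂ) :=
  ⟨fun z => z.1 i, (continuous_apply i).comp continuous_subtype_val⟩

theorem coo_mono (i : Fin d) (a : Fin d → ℕ) : coo i * mono a = mono (up a i) := by
  ext z
  change z.1 i * ∏ j, z.1 j ^ a j = ∏ j, z.1 j ^ up a i j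
  rw [← Finset.mul_prod_erase Finset.univ _ (Finset.mem_univ i),
    ← Finset.mul_prod_erase Finset.univ (fun j => z.1 j ^ up a i j) (Finset.mem_univ i), up_same]
  have : ∏ j ∈ Finset.univ.erase i, z.1 j ^ up a i j = ∏ j ∈ Finset.univ.erase i, z.1 j ^ a j := by
    apply Finset.prod_congr rfl
    intro j hj
    rw [up_ne _ (Finset.ne_of_mem_erase hj)]
  rw [this, pow_succ]
  ring

/-- The Toeplitz matrices of the coordinate functions `z_i conj z_j`. -/
theorem TT_coo (hd : 1 ≤ d) {N n : ℕ} (hn : n + 1 ≤ N) {E : C(USph d, ℂ) →ₗ[ℂ] ℂ}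
    (hM : Mom d N E) (i j : Fin d) :
    TT E (cf n) (coo i * star (coo j)) = ((n + d : ℝ) : ℂ)⁻¹ • (Lo n i * (Lo n j)ᴴ) := by
  ext a b
  rw [TT, Matrix.of_apply, Matrix.smul_apply, Lo_mul_conjT]
  have e1 : coo i * star (coo j) * cf n a * star (cf n b) =
      ((Real.sqrt (Kr d n / Ar a.1) * Real.sqrt (Kr d n / Ar b.1) : ℝ) : ℂ) •
        (mono (up a.1 i) * star (mono (up b.1 j))) := by
    unfold cf
    rw [← coo_mono, ← coo_mono, star_smul, star_mul', Complex.star_def, Complex.conj_ofReal,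
      mul_smul_comm, mul_smul_comm, smul_mul_assoc, smul_smul, Complex.ofReal_mul,
      mul_comm ((Real.sqrt (Kr d n / Ar b.1) : ℝ) : ℂ)]
    congr 1
    ring
  rw [e1, map_smul, hM _ _ (by rw [sum_up, a.2]; exact hn) (by rw [sum_up, sum_up, a.2, b.2])]
  have hiff : upI a i = upI b j ↔ up a.1 i = up b.1 j := Subtype.ext_iff
  by_cases h : up a.1 i = up b.1 j
  · rw [if_pos h, if_pos (hiff.2 h), sum_up, a.2, smul_eq_mul, smul_eq_mul, ← Complex.ofReal_inv,
      ← Complex.ofReal_mul, ← Complex.ofReal_mul]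
    congr 1
    have hA := Ar_pos a.1
    have hB := Ar_pos b.1
    have hK := Kr_pos d n
    have hU1 := Ar_up a.1 i
    have hU2 := Ar_up b.1 j
    rw [← h] at hU2
    have hU := Ar_pos (up a.1 i)
    have hnd : (0 : ℝ) < n + d := by
      have : (0 : ℝ) < d := by exact_mod_cast hd
      positivity
    have hU3 : Ar (up a.1 i) = Real.sqrt (Ar a.1) * Real.sqrt (a.1 i + 1) *
        (Real.sqrt (Ar b.1) * Real.sqrt (b.1 j + 1)) := by
      rw [← Real.sqrt_mul hA.le, ← Real.sqrt_mul hB.le, ← hU1, ← hU2, Real.mul_self_sqrt hU.le]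
    rw [hU3, Kr_succ hd, Real.sqrt_div hK.le, Real.sqrt_div hK.le]
    have hsA : 0 < Real.sqrt (Ar a.1) := Real.sqrt_pos.2 hA
    have hsB : 0 < Real.sqrt (Ar b.1) := Real.sqrt_pos.2 hB
    have hsK : Real.sqrt (Kr d n) * Real.sqrt (Kr d n) = Kr d n := Real.mul_self_sqrt hK.le
    field_simp
    nlinarith [hsK]
  · rw [if_neg h, if_neg (fun h' => h (hiff.1 h')), smul_zero, smul_zero]

theorem TT_add (E : C(USph d, ℂ) →ₗ[ℂ] ℂ) {α : Type*} (c : α → C(USph d, ℂ)) [Fintype α]
    [DecidableEq α] (f g : C(USph d, ℂ)) : TT E c (f + g) = TT E c f + TT E c g := by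
  ext a b
  simp only [TT, Matrix.of_apply, Matrix.add_apply, add_mul, map_add]

theorem TT_smul (E : C(USph d, ℂ) →ₗ[ℂ] ℂ) {α : Type*} (c : α → C(USph d, ℂ)) [Fintype α]
    [DecidableEq α] (r : ℂ) (f : C(USph d, ℂ)) : TT E c (r • f) = r • TT E c f := by
  ext a b
  simp only [TT, Matrix.of_apply, Matrix.smul_apply, smul_mul_assoc, map_smul]

theorem TT_sum (E : C(USph d, ℂ) →ₗ[ℂ] ℂ) {α σ : Type*} (c : α → C(USph d, ℂ)) [Fintype α]
    [DecidableEq α] (s : Finset σ) (f : σ → C(USph d, ℂ)) :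
    TT E c (∑ i ∈ s, f i) = ∑ i ∈ s, TT E c (f i) := by
  ext a b
  simp only [TT, Matrix.of_apply, Matrix.sum_apply, Finset.sum_mul, map_sum]

/-- auxiliary matrix -/
noncomputable def LL (n : ℕ) (i j : Fin d) : Matrix (Idx d n) (Idx d n) ℂ :=
  (Lo n j * ((Lo n i)ᴴ * Lo n i : Matrix (Idx d (n + 1)) (Idx d (n + 1)) ℂ) :
    Matrix (Idx d n) (Idx d (n + 1)) ℂ) * (Lo n j)ᴴ

theorem sum_LL (n : ℕ) (j : Fin d) :
    ∑ i, LL n i j = ((n + 1 : ℕ) : ℂ) • (Lo n j * (Lo n j)ᴴ) := by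
  unfold LL
  rw [← Matrix.sum_mul, ← Matrix.mul_sum, sum_conjT_mul_Lo, Matrix.mul_smul, Matrix.mul_one,
    Matrix.smul_mul]

theorem conjT_mul_LL (n : ℕ) (i j : Fin d) :
    (Lo n i * (Lo n j)ᴴ)ᴴ * (Lo n i * (Lo n j)ᴴ) = LL n i j := by
  unfold LL
  rw [conjTranspose_mul, conjTranspose_conjTranspose]
  simp only [Matrix.mul_assoc]

/-- the defect of the coordinate functions -/
theorem defect_coo (hd : 1 ≤ d) {N n : ℕ} (hn : n + 1 ≤ N) {E : C(USph d, ℂ) →ₗ[ℂ] ℂ}
    (hE : Pos E) (hM : Mom d N E) (i j : Fin d) (v : Idx d n → ℂ) :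
    (star v ⬝ᵥ (TT E (cf n) (star (coo i * star (coo j)) * (coo i * star (coo j))) *ᵥ v)).re -
        (star (TT E (cf n) (coo i * star (coo j)) *ᵥ v) ⬝ᵥ
          (TT E (cf n) (coo i * star (coo j)) *ᵥ v)).re ≤
      (Real.sqrt ((d - 1) / (n + d))) ^ 2 * (star v ⬝ᵥ v).re := by
  have hO : Orth E (cf (d := d) n) := cf_orth (by omega) hM
  have hnd : (0 : ℝ) < n + d := by
    have : (0 : ℝ) < d := by exact_mod_cast hd
    positivity
  have hd1 : (0 : ℝ) ≤ d - 1 := by
    have : (1 : ℝ) ≤ d := by exact_mod_cast hd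
    linarith
  rw [Real.sq_sqrt (by positivity)]
  set D : Fin d → Fin d → ℝ := fun i j =>
    (star v ⬝ᵥ (TT E (cf n) (star (coo i * star (coo j)) * (coo i * star (coo j))) *ᵥ v)).re -
        (star (TT E (cf n) (coo i * star (coo j)) *ᵥ v) ⬝ᵥ
          (TT E (cf n) (coo i * star (coo j)) *ᵥ v)).re with hD
  have hD0 : ∀ i j, 0 ≤ D i j := fun i j => defect_nonneg _ hE hO _ v
  have hsum : ∑ i, ∑ j, D i j = (d - 1) / (n + d) * (star v ⬝ᵥ v).re := by
    have s1 : ∑ i, ∑ j, (star v ⬝ᵥ (TT E (cf n) (star (coo i * star (coo j)) *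
        (coo i * star (coo j))) *ᵥ v)).re = (star v ⬝ᵥ v).re := by
      have h1 : (∑ i : Fin d, ∑ j : Fin d, (star (coo i * star (coo j)) *
          (coo i * star (coo j))) : C(USph d, ℂ)) = 1 := by
        ext z
        have hz : ∑ i, Complex.normSq (z.1 i) = 1 := z.2
        have h2 : ∀ i j : Fin d, (star (coo i * star (coo j)) *
          (coo i * star (coo j)) : C(USph d, ℂ)) z =
            ((Complex.normSq (z.1 i) * Complex.normSq (z.1 j) : ℝ) : ℂ) := by
          intro i j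
          change star (z.1 i * star (z.1 j)) * (z.1 i * star (z.1 j)) = _
          rw [star_mul', star_star, Complex.ofReal_mul, Complex.normSq_eq_conj_mul_self,
            Complex.normSq_eq_conj_mul_self, Complex.star_def]
          ring
        have h2' : (∑ i : Fin d, ∑ j : Fin d, (star (coo i * star (coo j)) *
          (coo i * star (coo j))) : C(USph d, ℂ)) z = ∑ i : Fin d, ∑ j : Fin d,
            ((Complex.normSq (z.1 i) * Complex.normSq (z.1 j) : ℝ) : ℂ) := by
          rw [ContinuousMap.sum_apply]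
          apply Finset.sum_congr rfl
          intro i _
          rw [ContinuousMap.sum_apply]
          apply Finset.sum_congr rfl
          intro j _
          exact h2 i j
        rw [h2', ContinuousMap.one_apply]
        have h3 : ∑ i : Fin d, ∑ j : Fin d, (Complex.normSq (z.1 i) * Complex.normSq (z.1 j)) = 1 := by
          rw [← Finset.sum_mul_sum, hz, one_mul]
        exact_mod_cast h3
      have h4 := TT_one (cf (d := d) n) hO
      rw [← h1, TT_sum] at h4
      have h5 : star v ⬝ᵥ ((1 : Matrix (Idx d n) (Idx d n) ℂ) *ᵥ v) =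
          ∑ i : Fin d, ∑ j : Fin d, (star v ⬝ᵥ (TT E (cf n)
          (star (coo i * star (coo j)) * (coo i * star (coo j))) *ᵥ v)) := by
        rw [← h4, Matrix.sum_mulVec, dotProduct_sum]
        apply Finset.sum_congr rfl
        intro i _
        rw [TT_sum, Matrix.sum_mulVec, dotProduct_sum]
      rw [Matrix.one_mulVec] at h5
      rw [h5, Complex.re_sum]
      apply Finset.sum_congr rfl
      intro i _
      rw [Complex.re_sum]
    have s2 : ∑ i, ∑ j, (star (TT E (cf n) (coo i * star (coo j)) *ᵥ v) ⬝ᵥ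
          (TT E (cf n) (coo i * star (coo j)) *ᵥ v)).re =
          (n + 1) / (n + d) * (star v ⬝ᵥ v).re := by
      have h1 : ∀ i j, (star (TT E (cf n) (coo i * star (coo j)) *ᵥ v) ⬝ᵥ
          (TT E (cf n) (coo i * star (coo j)) *ᵥ v)) =
          ((((n + d : ℝ) ^ 2)⁻¹ : ℝ) : ℂ) * (star v ⬝ᵥ (LL n i j *ᵥ v)) := by
        intro i j
        rw [Matrix.star_mulVec, ← Matrix.dotProduct_mulVec, Matrix.mulVec_mulVec,
          TT_coo hd hn hM, conjTranspose_smul, Matrix.smul_mul, Matrix.mul_smul,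
          conjT_mul_LL, Matrix.smul_mulVec, Matrix.smul_mulVec,
          dotProduct_smul, dotProduct_smul, smul_smul, smul_eq_mul]
        congr 1
        rw [star_inv₀, Complex.star_def, Complex.conj_ofReal]
        push_cast
        rw [pow_two, mul_inv]
      have h2 : ∑ i, ∑ j, (star (TT E (cf n) (coo i * star (coo j)) *ᵥ v) ⬝ᵥ
          (TT E (cf n) (coo i * star (coo j)) *ᵥ v)) =
          ((((n + 1) / (n + d) : ℝ)) : ℂ) * (star v ⬝ᵥ v) := by
        simp only [h1]
        have h3 : ∀ j : Fin d, ∑ i, (star v ⬝ᵥ (LL n i j *ᵥ v))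
            = ((n + 1 : ℕ) : ℂ) * (star v ⬝ᵥ ((Lo n j * (Lo n j)ᴴ) *ᵥ v)) := by
          intro j
          rw [← dotProduct_sum, ← Matrix.sum_mulVec, sum_LL,
            Matrix.smul_mulVec, dotProduct_smul, smul_eq_mul]
        have h4 : ∑ j, (star v ⬝ᵥ ((Lo n j * (Lo n j)ᴴ) *ᵥ v)) =
            ((n + d : ℕ) : ℂ) * (star v ⬝ᵥ v) := by
          rw [← dotProduct_sum, ← Matrix.sum_mulVec, sum_Lo_mul_conjT,
            Matrix.smul_mulVec, dotProduct_smul, Matrix.one_mulVec, smul_eq_mul]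
        rw [Finset.sum_comm]
        simp only [← Finset.mul_sum]
        simp only [h3]
        rw [← Finset.mul_sum, h4]
        have hnd' : ((n : ℂ) + d) ≠ 0 := by exact_mod_cast hnd.ne'
        push_cast
        field_simp
      have h5 := congrArg Complex.re h2
      rw [Complex.re_ofReal_mul, Complex.re_sum] at h5
      simp only [Complex.re_sum] at h5
      exact h5
    have : ∑ i, ∑ j, D i j = ∑ i, ∑ j, (star v ⬝ᵥ (TT E (cf n) (star (coo i * star (coo j)) *
        (coo i * star (coo j))) *ᵥ v)).re - ∑ i, ∑ j, (star (TT E (cf n) (coo i * star (coo j)) *ᵥ v) ⬝ᵥ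
          (TT E (cf n) (coo i * star (coo j)) *ᵥ v)).re := by
      rw [← Finset.sum_sub_distrib]
      apply Finset.sum_congr rfl
      intro i _
      rw [← Finset.sum_sub_distrib]
    rw [this, s1, s2]
    field_simp
    ring
  calc D i j ≤ ∑ j, D i j := Finset.single_le_sum (f := fun j => D i j) (fun j _ => hD0 i j)
        (Finset.mem_univ j)
    _ ≤ ∑ i, ∑ j, D i j := Finset.single_le_sum (f := fun i => ∑ j, D i j)
        (fun i _ => Finset.sum_nonneg fun j _ => hD0 i j) (Finset.mem_univ i)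
    _ = _ := hsum

end Quant

end Pool.Agent.Helper75.KT
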