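import Mathlib

set_option autoImplicit false

/-!
# The normalised `p`-Laplacian: envelopes and viscosity solutions

Definitions (any dimension) and a criterion for `C^2` functions in the plane.
-/

namespace Pool.Agent.Helper85.NormPLap

open Filter Topology

/-- Euclidean space of dimension `n`. -/
abbrev Eu (n : ℕ) : Type := EuclideanSpace ℝ (Fin n)

/-- Bilinear forms on Euclidean space. -/
abbrev Bil (n : ℕ) : Type := Eu n →L[ℝ] Eu n →L[ℝ] ℝ

/-- The second derivative of `φ` at `x`, as a bilinear form. -/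
noncomputable def hess {n : ℕ} (φ : Eu n → ℝ) (x : Eu n) : Bil n :=
  fderiv ℝ (fderiv ℝ φ) x

/-- The operator `F_p(η, X) = tr X + (p - 2) |η|^{-2} X(η, η)`, meant for `η ≠ 0`; with `η = Du`
and `X = D²u` it is the normalised `p`-Laplacian of `u`. -/
noncomputable def nplap {n : ℕ} (p : ℝ) (η : Eu n) (X : Bil n) : ℝ :=
  (∑ i, X (EuclideanSpace.single i 1) (EuclideanSpace.single i 1)) +
    (p - 2) * (X η η / ‖η‖ ^ 2)

/-- The upper semicontinuous envelope of `F_p` (defined for `η ≠ 0`): the upper limit of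
`F_p(η', X')` as `(η', X') → (η, X)` with `η' ≠ 0`. -/
noncomputable def upperEnv {n : ℕ} (p : ℝ) (η : Eu n) (X : Bil n) : EReal :=
  limsup (fun z : Eu n × Bil n => ((nplap p z.1 z.2 : ℝ) : EReal)) (𝓝[{z | z.1 ≠ 0}] (η, X))

/-- The lower semicontinuous envelope of `F_p`. -/
noncomputable def lowerEnv {n : ℕ} (p : ℝ) (η : Eu n) (X : Bil n) : EReal :=
  liminf (fun z : Eu n × Bil n => ((nplap p z.1 z.2 : ℝ) : EReal)) (𝓝[{z | z.1 ≠ 0}] (η, X))

/-- `u` is a viscosity subsolution of `Δ_p^N u = f` in the open set `Ω`. -/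
def IsSubsolution {n : ℕ} (p : ℝ) (Ω : Set (Eu n)) (f u : Eu n → ℝ) : Prop :=
  ∀ x ∈ Ω, ∀ φ : Eu n → ℝ, ContDiffAt ℝ 2 φ x → IsLocalMax (fun y => u y - φ y) x →
    (f x : EReal) ≤ upperEnv p (gradient φ x) (hess φ x)

/-- `u` is a viscosity supersolution of `Δ_p^N u = f` in the open set `Ω`. -/
def IsSupersolution {n : ℕ} (p : ℝ) (Ω : Set (Eu n)) (f u : Eu n → ℝ) : Prop :=
  ∀ x ∈ Ω, ∀ φ : Eu n → ℝ, ContDiffAt ℝ 2 φ x → IsLocalMin (fun y => u y - φ y) x →
    lowerEnv p (gradient φ x) (hess φ x) ≤ (f x : EReal)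

/-- `u` is a viscosity solution of the Dirichlet problem `Δ_p^N u = f` in `Ω`, `u = g` on the
boundary of `Ω`. -/
structure IsDirichletSolution {n : ℕ} (p : ℝ) (Ω : Set (Eu n)) (f g u : Eu n → ℝ) : Prop where
  continuousOn : ContinuousOn u (closure Ω)
  sub : IsSubsolution p Ω f u
  super : IsSupersolution p Ω f u
  boundary : ∀ x ∈ frontier Ω, u x = g x

section env

variable {n : ℕ} {p t : ℝ} {e : Eu n} {X : Bil n}

theorem nplap_smul (ht : t ≠ 0) : nplap p (t • e) X = nplap p e X := by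
  unfold nplap
  simp only [map_smul, _root_.smul_apply, smul_eq_mul, norm_smul, Real.norm_eq_abs,
    mul_pow, sq_abs]
  congr 2
  by_cases he : e = 0
  · simp [he]
  · have : ‖e‖ ≠ 0 := norm_ne_zero_iff.mpr he
    field_simp

theorem tendsto_aux (he : e ≠ 0) (ht : 0 ≤ t) :
    Tendsto (fun s : ℝ => (((t + s) • e, X) : Eu n × Bil n)) (𝓝[>] 0)
      (𝓝[{z | z.1 ≠ 0}] (t • e, X)) := by
  refine tendsto_nhdsWithin_iff.mpr ⟨?_, ?_⟩
  · have h1 : Continuous (fun s : ℝ => (((t + s) • e, X) : Eu n × Bil n)) := by fun_prop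
    have h2 := h1.tendsto (0 : ℝ)
    simp only [add_zero] at h2
    exact h2.mono_left nhdsWithin_le_nhds
  · filter_upwards [self_mem_nhdsWithin] with s hs
    have hs' : (0 : ℝ) < s := hs
    have hts : t + s ≠ 0 := by positivity
    exact smul_ne_zero hts he

theorem le_upperEnv (he : e ≠ 0) (ht : 0 ≤ t) :
    ((nplap p e X : ℝ) : EReal) ≤ upperEnv p (t • e) X := by
  unfold upperEnv
  refine le_limsup_of_frequently_le ?_
  refine (tendsto_aux (X := X) he ht).frequently ?_
  refine Eventually.frequently ?_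
  filter_upwards [self_mem_nhdsWithin] with s hs
  have hs' : (0 : ℝ) < s := hs
  have : t + s ≠ 0 := by positivity
  rw [nplap_smul this]

theorem lowerEnv_le (he : e ≠ 0) (ht : 0 ≤ t) :
    lowerEnv p (t • e) X ≤ ((nplap p e X : ℝ) : EReal) := by
  unfold lowerEnv
  refine liminf_le_of_frequently_le ?_
  refine (tendsto_aux (X := X) he ht).frequently ?_
  refine Eventually.frequently ?_
  filter_upwards [self_mem_nhdsWithin] with s hs
  have hs' : (0 : ℝ) < s := hs
  have : t + s ≠ 0 := by positivity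
  rw [nplap_smul this]

end env

section second

variable {n : ℕ}

theorem hasDerivAt_line {φ : Eu n → ℝ} {x : Eu n} (h : DifferentiableAt ℝ φ x) (v : Eu n) :
    HasDerivAt (fun t : ℝ => φ (x + t • v)) (fderiv ℝ φ x v) 0 := by
  have h1 : HasFDerivAt φ (fderiv ℝ φ x) (x + (0 : ℝ) • v) := by simpa using h.hasFDerivAt
  have h2 : HasDerivAt (fun t : ℝ => x + t • v) v 0 := by
    simpa using ((hasDerivAt_id (0 : ℝ)).smul_const v).const_add x
  exact h1.comp_hasDerivAt 0 h2

theorem contDiffAt_fderiv {φ : Eu n → ℝ} {x : Eu n} (h : ContDiffAt ℝ 2 φ x) :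
    ContDiffAt ℝ 1 (fderiv ℝ φ) x := h.fderiv_right (m := 1) (by norm_num)

theorem hasDerivAt_fderiv_line {φ : Eu n → ℝ} {x : Eu n} (h : ContDiffAt ℝ 2 φ x) (v w : Eu n) :
    HasDerivAt (fun t : ℝ => fderiv ℝ φ (x + t • v) w) (hess φ x v w) 0 := by
  have h1 : DifferentiableAt ℝ (fderiv ℝ φ) x := (contDiffAt_fderiv h).differentiableAt (by norm_num)
  have h2 : HasFDerivAt (fderiv ℝ φ) (fderiv ℝ (fderiv ℝ φ) x) (x + (0 : ℝ) • v) := by
    simpa using h1.hasFDerivAt
  have h3 : HasDerivAt (fun t : ℝ => x + t • v) v 0 := by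
    simpa using ((hasDerivAt_id (0 : ℝ)).smul_const v).const_add x
  have h4 := h2.comp_hasDerivAt 0 h3
  exact (h4.clm_apply (hasDerivAt_const (0 : ℝ) w)).congr_deriv (by simp [hess])

/-- Second order necessary condition at a local minimum. -/
theorem hess_nonneg {ψ : Eu n → ℝ} {x : Eu n} (h : ContDiffAt ℝ 2 ψ x) (hmin : IsLocalMin ψ x)
    (e : Eu n) : 0 ≤ hess ψ x e e := by
  by_contra hneg
  push Not at hneg
  set g : ℝ → ℝ := fun t => ψ (x + t • e) with hg
  have hline : Continuous (fun t : ℝ => x + t • e) := by fun_prop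
  have hx0 : x + (0 : ℝ) • e = x := by simp
  have hev : ∀ᶠ y in 𝓝 x, ContDiffAt ℝ 2 ψ y := h.eventually (by norm_num)
  have htend : Tendsto (fun t : ℝ => x + t • e) (𝓝 0) (𝓝 x) := by
    have := hline.tendsto (0 : ℝ)
    rwa [hx0] at this
  have hev' : ∀ᶠ t in 𝓝 (0 : ℝ), ContDiffAt ℝ 2 ψ (x + t • e) := htend.eventually hev
  have hderiv : ∀ᶠ t in 𝓝 (0 : ℝ), deriv g t = fderiv ℝ ψ (x + t • e) e := by
    filter_upwards [hev'] with t ht
    have h1 := hasDerivAt_line (ht.differentiableAt (by norm_num)) e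
    have h3 : HasDerivAt (fun s : ℝ => s - t) 1 t := (hasDerivAt_id t).sub_const t
    have h2 : HasDerivAt (fun s : ℝ => ψ (x + t • e + s • e)) (fderiv ℝ ψ (x + t • e) e)
        ((fun s : ℝ => s - t) t) := by
      simpa using h1
    have h4 := HasDerivAt.comp (h := fun s : ℝ => s - t) t h2 h3
    have h5 : ((fun s : ℝ => ψ (x + t • e + s • e)) ∘ fun s => s - t) = g := by
      funext s
      simp only [Function.comp, hg]
      congr 1
      rw [add_assoc, ← add_smul]
      congr 2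
      ring
    rw [h5] at h4
    simpa using h4.deriv
  have hgmin : IsLocalMin g 0 := by
    have : ∀ᶠ y in 𝓝 x, ψ x ≤ ψ y := hmin
    have h1 := htend.eventually this
    refine h1.mono fun t ht => ?_
    simpa [hg] using ht
  have hd0 : deriv g 0 = 0 := hgmin.deriv_eq_zero
  have hdd : deriv (deriv g) 0 = hess ψ x e e := by
    have hderiv' : deriv g =ᶠ[𝓝 0] fun t => fderiv ℝ ψ (x + t • e) e := hderiv
    rw [hderiv'.deriv_eq]
    exact (hasDerivAt_fderiv_line h e e).deriv
  have hcont : ContinuousAt g 0 := by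
    have : ContinuousAt ψ (x + (0 : ℝ) • e) := by rw [hx0]; exact h.continuousAt
    exact ContinuousAt.comp (f := fun t : ℝ => x + t • e) this hline.continuousAt
  -- the function `-g` has a local minimum as well
  have hneg1 : deriv (fun t => - g t) = fun t => - deriv g t := by
    funext t
    exact deriv.fun_neg
  have hmin' : IsLocalMin (fun t => - g t) 0 := by
    refine isLocalMin_of_deriv_deriv_pos ?_ ?_ hcont.neg
    · rw [hneg1]
      rw [deriv.fun_neg, hdd]
      linarith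
    · rw [hneg1]
      simp [hd0]
  have hconst : ∀ᶠ t in 𝓝 (0 : ℝ), g t = g 0 := by
    have h1 : ∀ᶠ t in 𝓝 (0 : ℝ), g 0 ≤ g t := hgmin
    have h2 : ∀ᶠ t in 𝓝 (0 : ℝ), - g 0 ≤ - g t := hmin'
    filter_upwards [h1, h2] with t ha hb
    linarith
  have hdz : ∀ᶠ t in 𝓝 (0 : ℝ), deriv g t = 0 := by
    have h1 : ∀ᶠ t in 𝓝 (0 : ℝ), g =ᶠ[𝓝 t] fun _ => g 0 := eventually_eventually_nhds.mpr hconst
    filter_upwards [h1] with t ht
    rw [ht.deriv_eq]
    simp
  have hzero : deriv (deriv g) 0 = 0 := by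
    have h1 : deriv g =ᶠ[𝓝 0] fun _ => (0 : ℝ) := hdz
    rw [h1.deriv_eq]
    simp
  rw [hdd] at hzero
  linarith

theorem touch {u φ : Eu n → ℝ} {x : Eu n} (hu : ContDiffAt ℝ 2 u x) (hφ : ContDiffAt ℝ 2 φ x)
    (hmax : IsLocalMax (fun y => u y - φ y) x) :
    gradient φ x = gradient u x ∧ ∀ e, hess u x e e ≤ hess φ x e e := by
  have hmin : IsLocalMin (fun y => φ y - u y) x := by
    refine hmax.mono fun y hy => ?_
    simp only at hy ⊢
    linarith
  have hd : fderiv ℝ (fun y => φ y - u y) x = 0 := hmin.fderiv_eq_zero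
  have hdφ := hφ.differentiableAt (by norm_num : (2 : WithTop ℕ∞) ≠ 0)
  have hdu := hu.differentiableAt (by norm_num : (2 : WithTop ℕ∞) ≠ 0)
  have h1 : fderiv ℝ φ x = fderiv ℝ u x := by
    have h2 : fderiv ℝ (fun y => φ y - u y) x = fderiv ℝ φ x - fderiv ℝ u x :=
      fderiv_fun_sub hdφ hdu
    rw [h2] at hd
    exact sub_eq_zero.mp hd
  refine ⟨by unfold gradient; rw [h1], fun e => ?_⟩
  have h3 := hess_nonneg (hφ.sub hu) hmin e
  have h4 : hess (fun y => φ y - u y) x = hess φ x - hess u x := by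
    unfold hess
    have hevφ : ∀ᶠ y in 𝓝 x, ContDiffAt ℝ 2 φ y := hφ.eventually (by norm_num)
    have hevu : ∀ᶠ y in 𝓝 x, ContDiffAt ℝ 2 u y := hu.eventually (by norm_num)
    have h5 : fderiv ℝ (fun y => φ y - u y) =ᶠ[𝓝 x] fun y => fderiv ℝ φ y - fderiv ℝ u y := by
      filter_upwards [hevφ, hevu] with y ha hb
      exact fderiv_fun_sub (ha.differentiableAt (by norm_num)) (hb.differentiableAt (by norm_num))
    rw [h5.fderiv_eq]
    exact fderiv_fun_sub ((contDiffAt_fderiv hφ).differentiableAt (by norm_num))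
      ((contDiffAt_fderiv hu).differentiableAt (by norm_num))
  have h6 : hess (fun y => φ y - u y) x e e = hess φ x e e - hess u x e e := by
    rw [h4]; rfl
  rw [h6] at h3
  linarith

end second

section plane

/-- Degenerate ellipticity in the plane, for `p ≥ 1`. -/
theorem nplap_mono {p : ℝ} (hp : 1 ≤ p) {e : Eu 2} (he : e ≠ 0) {X Y : Bil 2}
    (h : ∀ v, X v v ≤ Y v v) : nplap p e X ≤ nplap p e Y := by
  have hn : 0 < ‖e‖ ^ 2 := by positivity
  set Z : Bil 2 := Y - X with hZ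
  have hZ' : ∀ v, 0 ≤ Z v v := fun v => by
    have : Z v v = Y v v - X v v := by rw [hZ]; rfl
    rw [this]; linarith [h v]
  have hnorm : ‖e‖ ^ 2 = e 0 ^ 2 + e 1 ^ 2 := by
    rw [EuclideanSpace.norm_sq_eq]
    simp [Fin.sum_univ_two]
  have hexp : ∀ a b : ℝ, ∀ W : Bil 2,
      W (a • EuclideanSpace.single 0 1 + b • EuclideanSpace.single 1 1)
        (a • EuclideanSpace.single 0 1 + b • EuclideanSpace.single 1 1) =
      a ^ 2 * W (EuclideanSpace.single 0 1) (EuclideanSpace.single 0 1) +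
      a * b * (W (EuclideanSpace.single 0 1) (EuclideanSpace.single 1 1) +
        W (EuclideanSpace.single 1 1) (EuclideanSpace.single 0 1)) +
      b ^ 2 * W (EuclideanSpace.single 1 1) (EuclideanSpace.single 1 1) := by
    intro a b W
    simp only [map_add, map_smul, _root_.add_apply, _root_.smul_apply,
      smul_eq_mul]
    ring
  have hE : e = (e 0) • EuclideanSpace.single 0 (1 : ℝ) + (e 1) • EuclideanSpace.single 1 (1 : ℝ) := by
    ext i
    fin_cases i <;> simp
  have h1 := hexp (e 0) (e 1) Z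
  rw [← hE] at h1
  have h2 := hexp (-(e 1)) (e 0) Z
  have h3 := hZ' (-(e 1) • EuclideanSpace.single 0 1 + (e 0) • EuclideanSpace.single 1 1)
  rw [h2] at h3
  have h4 := hZ' e
  have htr : nplap p e Y - nplap p e X = nplap p e Z := by
    have hs : ∀ v w, Z v w = Y v w - X v w := fun v w => by rw [hZ]; rfl
    unfold nplap
    simp only [Fin.sum_univ_two, hs]
    ring
  have hpos : 0 ≤ nplap p e Z := by
    unfold nplap
    simp only [Fin.sum_univ_two]
    have h5 : Z e e / ‖e‖ ^ 2 ≤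
        Z (EuclideanSpace.single 0 1) (EuclideanSpace.single 0 1) +
          Z (EuclideanSpace.single 1 1) (EuclideanSpace.single 1 1) := by
      rw [div_le_iff₀ hn, hnorm, h1]
      nlinarith [h3]
    have h6 : 0 ≤ Z e e / ‖e‖ ^ 2 := div_nonneg h4 hn.le
    nlinarith [h5, h6, hp]
  linarith

/-- If at `x` the function `u` is `C^2`, its gradient is a nonnegative multiple of `e ≠ 0` and
`F_p(e, D²u(x)) = f(x)`, then both viscosity conditions hold at `x`. -/
theorem sub_super_of_dir {p : ℝ} (hp : 1 ≤ p) {u : Eu 2 → ℝ} {x : Eu 2} {c : ℝ}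
    (hu : ContDiffAt ℝ 2 u x) {e : Eu 2} (he : e ≠ 0) {t : ℝ} (ht : 0 ≤ t)
    (hgrad : gradient u x = t • e) (hF : nplap p e (hess u x) = c) :
    (∀ φ : Eu 2 → ℝ, ContDiffAt ℝ 2 φ x → IsLocalMax (fun y => u y - φ y) x →
      (c : EReal) ≤ upperEnv p (gradient φ x) (hess φ x)) ∧
    (∀ φ : Eu 2 → ℝ, ContDiffAt ℝ 2 φ x → IsLocalMin (fun y => u y - φ y) x →
      lowerEnv p (gradient φ x) (hess φ x) ≤ (c : EReal)) := by
  constructor
  · intro φ hφ hmax
    obtain ⟨h1, h2⟩ := touch hu hφ hmax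
    rw [h1, hgrad]
    refine le_trans ?_ (le_upperEnv he ht)
    rw [← hF]
    exact_mod_cast nplap_mono hp he h2
  · intro φ hφ hmin
    have hmax : IsLocalMax (fun y => φ y - u y) x := by
      refine hmin.mono fun y hy => ?_
      simp only at hy ⊢
      linarith
    obtain ⟨h1, h2⟩ := touch hφ hu hmax
    rw [← h1, hgrad]
    refine le_trans (lowerEnv_le he ht) ?_
    rw [← hF]
    exact_mod_cast nplap_mono hp he h2

end plane

end Pool.Agent.Helper85.NormPLap
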