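import Mathlib

set_option autoImplicit false

/-! Pairs of tournaments with the same list of out-neighbourhoods. -/

namespace Pool.Agent.Helper85.TournList

open Function Equiv

variable {V : Type*}

/-- `T` is the arc relation of a tournament: no loops, and for distinct `v, w` exactly one of the
arcs `v → w`, `w → v` is present. -/
def IsTournament (T : V → V → Prop) : Prop :=
  (∀ v, ¬ T v v) ∧ ∀ v w, v ≠ w → (T v w ↔ ¬ T w v)

/-- The list `L` (indexed by `V` itself) is realised by the digraph `T`: up to reordering it is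
the list of out-neighbourhoods of `T`. -/
def Realises (L : V → Set V) (T : V → V → Prop) : Prop :=
  ∃ σ : Perm V, ∀ v, {w | T v w} = L (σ v)

/-- On every cycle of `g` the tournament is the rotational one: the cycle has odd length `k` and
`v → g^j v` holds for `j < k` exactly when `j` is odd. -/
def RotationalOn (T : V → V → Prop) (g : Perm V) : Prop :=
  ∀ v, Odd (minimalPeriod g v) ∧ ∀ j < minimalPeriod g v, (T v ((g ^ j) v) ↔ Odd j)

/-- Between different cycles of `g` the arcs are invariant under `(v, u) ↦ (g v, g⁻¹ u)`. -/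
def Linked (T : V → V → Prop) (g : Perm V) : Prop :=
  ∀ v u, ¬ g.SameCycle v u → (T (g v) (g⁻¹ u) ↔ T v u)

section

variable {T : V → V → Prop} {g : Perm V}

lemma gi (u : V) : g (g⁻¹ u) = u := by
  rw [← Perm.mul_apply, mul_inv_cancel]; rfl

lemma key (hT : IsTournament T) (hT' : IsTournament fun v w => T (g v) w) {v u : V}
    (h1 : u ≠ v) (h2 : u ≠ g v) : T (g v) (g⁻¹ u) ↔ T v u := by
  have hne : v ≠ g⁻¹ u := fun h => h2 (by rw [h, gi])
  have h := hT'.2 v (g⁻¹ u) hne
  simp only [gi] at h
  rw [h, hT.2 v u h1.symm]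

lemma key0 (hT : IsTournament T) (hT' : IsTournament fun v w => T (g v) w) {v : V}
    (h1 : g v ≠ v) : T (g v) (g⁻¹ v) := by
  have hne : v ≠ g⁻¹ v := fun h => h1 (by conv_lhs => rw [h, gi])
  have h := hT'.2 v (g⁻¹ v) hne
  simp only [gi] at h
  exact h.2 (hT.1 v)

lemma zpow_eq_self_iff (v : V) (i : ℤ) :
    (g ^ i) v = v ↔ ((minimalPeriod g v : ℕ) : ℤ) ∣ i := by
  have h := MulAction.zpow_smul_eq_iff_minimalPeriod_dvd (a := g) (b := v) (n := i)
  exact h

lemma zpow_eq_iff (v : V) (i j : ℤ) :
    (g ^ i) v = (g ^ j) v ↔ ((minimalPeriod g v : ℕ) : ℤ) ∣ i - j := by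
  rw [← zpow_eq_self_iff, sub_eq_neg_add, zpow_add, Perm.mul_apply]
  constructor
  · intro h
    rw [h, ← Perm.mul_apply, ← zpow_add]; simp
  · intro h
    have := congrArg (g ^ j) h
    rwa [← Perm.mul_apply, ← zpow_add, add_neg_cancel, zpow_zero, Perm.one_apply] at this

lemma period_pos [Finite V] (v : V) : 0 < minimalPeriod g v := by
  have hp : v ∈ periodicPts g := (g.injective).mem_periodicPts v
  exact minimalPeriod_pos_of_mem_periodicPts hp

lemma period_zpow [Finite V] (v : V) (i : ℤ) :
    minimalPeriod g ((g ^ i) v) = minimalPeriod g v := by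
  apply Nat.dvd_antisymm
  · have h := (zpow_eq_self_iff (g := g) ((g ^ i) v) (minimalPeriod g v : ℤ)).1 (by
      rw [← Perm.mul_apply, ← zpow_add, add_comm, zpow_add, Perm.mul_apply,
        (zpow_eq_self_iff (g := g) v _).2 (dvd_refl _)])
    exact_mod_cast h
  · have h := (zpow_eq_self_iff (g := g) v (minimalPeriod g ((g ^ i) v) : ℤ)).1 (by
      have h1 := (zpow_eq_self_iff (g := g) ((g ^ i) v) (minimalPeriod g ((g ^ i) v) : ℤ)).2
        (dvd_refl _)
      rw [← Perm.mul_apply, ← zpow_add, add_comm, zpow_add, Perm.mul_apply] at h1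
      exact (g ^ i).injective h1)
    exact_mod_cast h

/-- Arcs from `g^c v` at even backward distance. -/
lemma arc_of_even (hT : IsTournament T) (hT' : IsTournament fun v w => T (g v) w) (v : V)
    (s : ℕ) (hs : 1 ≤ s) (h2s : 2 * s ≤ minimalPeriod g v) (c : ℤ)
    (hne : g v ≠ v) : T ((g ^ (c + s)) v) ((g ^ (c - s)) v) := by
  set k := minimalPeriod g v with hk
  induction s, hs using Nat.le_induction with
  | base =>
    have h1 : g ((g ^ c) v) ≠ (g ^ c) v := by
      intro h
      apply hne
      have : (g ^ c) (g v) = (g ^ c) v := by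
        rw [← h, ← Perm.mul_apply, ← Perm.mul_apply]
        congr 1
        rw [← zpow_add_one, ← zpow_one_add, add_comm]
      exact (g ^ c).injective this
    have h := key0 hT hT' h1
    have e1 : g ((g ^ c) v) = (g ^ (c + ((1:ℕ) : ℤ))) v := by
      rw [← Perm.mul_apply, ← zpow_one_add, add_comm]; norm_num
    have e2 : g⁻¹ ((g ^ c) v) = (g ^ (c - ((1:ℕ) : ℤ))) v := by
      rw [← Perm.mul_apply]
      congr 1
      rw [← zpow_neg_one, ← zpow_add, Nat.cast_one]; congr 1; ring
    rwa [e1, e2] at h
  | succ s hs ih =>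
    have ih := ih (by omega)
    have hk0 : (0:ℤ) < k := by
      have : 0 < k := by omega
      exact_mod_cast this
    have n1 : (g ^ (c - s)) v ≠ (g ^ (c + s)) v := by
      intro h
      rw [zpow_eq_iff] at h
      have h3 : (k : ℤ) ∣ 2 * (s : ℤ) := by
        have e : 2 * (s : ℤ) = -((c - s) - (c + s)) := by ring
        rw [e]
        exact (dvd_neg).2 h
      have := Int.le_of_dvd (by omega) h3
      omega
    have n2 : (g ^ (c - s)) v ≠ g ((g ^ (c + s)) v) := by
      intro h
      rw [← Perm.mul_apply, ← zpow_one_add, zpow_eq_iff] at h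
      have h3 : (k : ℤ) ∣ 2 * (s : ℤ) + 1 := by
        have e : 2 * (s : ℤ) + 1 = -((c - s) - (1 + (c + s))) := by ring
        rw [e]
        exact (dvd_neg).2 h
      have := Int.le_of_dvd (by omega) h3
      omega
    have h := (key hT hT' n1 n2).2 ih
    have e1 : g ((g ^ (c + s)) v) = (g ^ (c + ((s + 1 : ℕ) : ℤ))) v := by
      rw [← Perm.mul_apply, ← zpow_one_add]; congr 2; push_cast; ring
    have e2 : g⁻¹ ((g ^ (c - s)) v) = (g ^ (c - ((s + 1 : ℕ) : ℤ))) v := by
      rw [← Perm.mul_apply]
      congr 1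
      rw [← zpow_neg_one, ← zpow_add]; congr 1; push_cast; ring
    rwa [e1, e2] at h

theorem forward [Finite V] (hT : IsTournament T) (hT' : IsTournament fun v w => T (g v) w) :
    RotationalOn T g ∧ Linked T g := by
  constructor
  · intro v
    set k := minimalPeriod g v with hk
    have hk0 : 0 < k := period_pos v
    by_cases hfix : g v = v
    · have h1 : k = 1 := minimalPeriod_eq_one_iff_isFixedPt.2 hfix
      rw [h1]
      refine ⟨odd_one, fun j hj => ?_⟩
      have : j = 0 := by omega
      subst this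
      simp [hT.1 v]
    have hodd : Odd k := by
      by_contra hne
      rw [Nat.not_odd_iff_even] at hne
      obtain ⟨m, hm⟩ := hne
      have hm1 : 1 ≤ m := by omega
      have h := arc_of_even hT hT' v m hm1 (by omega) 0 hfix
      have e : (g ^ ((0:ℤ) + m)) v = (g ^ ((0:ℤ) - m)) v := by
        rw [zpow_eq_iff, ← hk]
        refine ⟨1, ?_⟩
        rw [hm]; push_cast; ring
      rw [e] at h
      exact hT.1 _ h
    refine ⟨hodd, fun j hj => ?_⟩
    obtain ⟨m, hm⟩ := hodd
    rcases Nat.even_or_odd j with hj2 | hj2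
    · -- even
      rw [← Nat.not_even_iff_odd]
      refine iff_of_false ?_ (fun h => h hj2)
      obtain ⟨s, hs⟩ := hj2
      rcases Nat.eq_zero_or_pos s with h0 | h0
      · have : j = 0 := by omega
        subst this
        simpa using hT.1 v
      · have h := arc_of_even hT hT' v s h0 (by omega) s hfix
        have e1 : (g ^ ((s:ℤ) + s)) v = (g ^ j) v := by
          rw [hs, ← zpow_natCast]; push_cast; rfl
        have e2 : (g ^ ((s:ℤ) - s)) v = v := by simp
        rw [e1, e2] at h
        have hne : (g ^ j) v ≠ v := by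
          intro h'
          have := (zpow_eq_self_iff (g := g) v (j:ℤ)).1 (by rw [zpow_natCast]; exact h')
          rw [← hk] at this
          have := Int.le_of_dvd (by omega) this
          omega
        exact (hT.2 _ _ hne).1 h
    · -- odd
      refine iff_of_true ?_ hj2
      obtain ⟨i, hi⟩ := hj2
      -- k - j = 2 s
      have hs1 : 1 ≤ m - i := by omega
      have h := arc_of_even hT hT' v (m - i) hs1 (by omega) (-((m - i : ℕ) : ℤ)) hfix
      have e1 : (g ^ (-((m - i : ℕ) : ℤ) + ((m - i : ℕ) : ℤ))) v = v := by simp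
      have e2 : (g ^ (-((m - i : ℕ) : ℤ) - ((m - i : ℕ) : ℤ))) v = (g ^ j) v := by
        rw [← zpow_natCast, zpow_eq_iff, ← hk]
        refine ⟨-1, ?_⟩
        have : ((m - i : ℕ) : ℤ) = (m : ℤ) - i := by
          rw [Nat.cast_sub (by omega)]
        rw [this, hm, hi]; push_cast; ring
      rwa [e1, e2] at h
  · intro v u h
    refine key hT hT' ?_ ?_
    · intro h'
      exact h (by rw [h'])
    · intro h'
      exact h (by rw [h']; exact (Perm.sameCycle_apply_right).2 (Perm.SameCycle.refl g v))

/-- arcs between powers in one cycle. -/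
lemma arc_zpow [Finite V] (h : RotationalOn T g) (v : V) (i j : ℤ) (r : ℕ)
    (hr : r < minimalPeriod g v) (hij : ((minimalPeriod g v : ℕ) : ℤ) ∣ (j - i) - r) :
    T ((g ^ i) v) ((g ^ j) v) ↔ Odd r := by
  have h1 := (h ((g ^ i) v)).2 r (by rw [period_zpow]; exact hr)
  have e : (g ^ r) ((g ^ i) v) = (g ^ j) v := by
    rw [← zpow_natCast, ← Perm.mul_apply, ← zpow_add, zpow_eq_iff]
    have e : (r : ℤ) + i - j = -((j - i) - r) := by ring
    rw [e]
    exact (dvd_neg).2 hij
  rwa [e] at h1

lemma sameCycle_exists [Finite V] {v w : V} (h : g.SameCycle v w) :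
    ∃ r : ℕ, r < minimalPeriod g v ∧ (g ^ r) v = w := by
  obtain ⟨i, hi⟩ := h
  have hk0 : 0 < minimalPeriod g v := period_pos v
  refine ⟨(i % (minimalPeriod g v : ℤ)).toNat, ?_, ?_⟩
  · have h1 := Int.emod_nonneg i (b := (minimalPeriod g v : ℤ)) (by omega)
    have h2 := Int.emod_lt_of_pos i (b := (minimalPeriod g v : ℤ)) (by omega)
    omega
  · rw [← hi, ← zpow_natCast, zpow_eq_iff, Int.toNat_of_nonneg (Int.emod_nonneg i (by omega))]
    have := Int.dvd_sub_self_of_emod_eq (a := i) (b := (minimalPeriod g v : ℤ)) rfl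
    exact this

theorem backward [Finite V] (hT : IsTournament T) (h : RotationalOn T g) (h' : Linked T g) :
    IsTournament fun v w => T (g v) w := by
  constructor
  · intro v hv
    obtain ⟨hodd, -⟩ := h v
    obtain ⟨m, hm⟩ := hodd
    have h1 := arc_zpow h v 1 0 (2 * m) (by omega) ⟨-1, by rw [hm]; push_cast; ring⟩
    simp only [zpow_one, zpow_zero, Perm.one_apply] at h1
    have := h1.1 hv
    rw [← Nat.not_even_iff_odd] at this
    exact this ⟨m, by ring⟩
  · intro v w hvw
    by_cases hs : g.SameCycle v w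
    · obtain ⟨r, hr, rfl⟩ := sameCycle_exists hs
      obtain ⟨hodd, -⟩ := h v
      obtain ⟨m, hm⟩ := hodd
      have hr0 : r ≠ 0 := by rintro rfl; exact hvw (by simp)
      have h1 := arc_zpow h v 1 r (r - 1) (by omega) ⟨0, by
        rw [Nat.cast_sub (by omega)]; push_cast; ring⟩
      have h2 := arc_zpow h v (r + 1) 0 (2 * m - r) (by omega) ⟨-1, by
        rw [Nat.cast_sub (by omega), hm]; push_cast; ring⟩
      simp only [zpow_one, zpow_zero, Perm.one_apply, zpow_natCast] at h1 h2
      have e : (g ^ ((r : ℤ) + 1)) v = g ((g ^ r) v) := by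
        rw [← Perm.mul_apply, ← pow_succ', ← zpow_natCast]; push_cast; rfl
      rw [e] at h2
      show T (g v) ((g ^ r) v) ↔ ¬ T (g ((g ^ r) v)) v
      rw [h1, h2]
      rw [Nat.not_odd_iff_even, Nat.odd_sub (by omega), Nat.even_sub (by omega)]
      simp only [Nat.odd_iff, Nat.even_iff]
      omega
    · have h1 : ¬ g.SameCycle v (g w) := by
        rw [Perm.sameCycle_apply_right]; exact hs
      have h2 := h' v (g w) h1
      have e : g⁻¹ (g w) = w := by
        rw [← Perm.mul_apply, inv_mul_cancel]; rfl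
      rw [e] at h2
      show T (g v) w ↔ ¬ T (g w) v
      rw [h2]
      refine hT.2 v (g w) ?_
      intro h3
      exact h1 (by rw [← h3])

end

/-- Characterisation of all tournaments with the same list of out-neighbourhoods as `T`. -/
theorem characterisation [Finite V] (T T' : V → V → Prop) (hT : IsTournament T) :
    (IsTournament T' ∧ ∃ L : V → Set V, Realises L T ∧ Realises L T') ↔
      ∃ g : Perm V, (∀ v w, T' v w ↔ T (g v) w) ∧ RotationalOn T g ∧ Linked T g := by
  constructor
  · rintro ⟨hT', L, ⟨σ, hσ⟩, ⟨τ, hτ⟩⟩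
    refine ⟨σ⁻¹ * τ, ?_⟩
    have h1 : ∀ v w, T' v w ↔ T ((σ⁻¹ * τ) v) w := by
      intro v w
      have e1 := hσ ((σ⁻¹ * τ) v)
      have e2 : σ ((σ⁻¹ * τ) v) = τ v := by
        rw [← Perm.mul_apply, ← mul_assoc, mul_inv_cancel, one_mul]
      rw [e2, ← hτ v] at e1
      have := Set.ext_iff.1 e1 w
      exact this.symm
    refine ⟨h1, forward hT ?_⟩
    have : T' = fun v w => T ((σ⁻¹ * τ) v) w := by
      funext v w; exact propext (h1 v w)
    rwa [this] at hT'
  · rintro ⟨g, h1, h2, h3⟩
    have : T' = fun v w => T (g v) w := by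
      funext v w; exact propext (h1 v w)
    refine ⟨by rw [this]; exact backward hT h2 h3, fun v => {w | T v w}, ⟨1, fun v => rfl⟩,
      ⟨g, fun v => ?_⟩⟩
    ext w
    exact h1 v w

section reversal

variable {T : V → V → Prop} {g : Perm V}

/-- The tournament obtained from `T` by reversing all arcs inside the cycles of `g`. -/
def reverseInside (T : V → V → Prop) (g : Perm V) (v w : V) : Prop :=
  (g.SameCycle v w ∧ T w v) ∨ (¬ g.SameCycle v w ∧ T v w)

lemma linked_pow [Finite V] (h' : Linked T g) (m : ℕ) (v u : V) (hs : ¬ g.SameCycle v u) :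
    T ((g ^ m) v) ((g⁻¹ ^ m) u) ↔ T v u := by
  induction m with
  | zero => simp
  | succ m ih =>
    rw [← ih, pow_succ', pow_succ', Perm.mul_apply, Perm.mul_apply]
    refine h' _ _ ?_
    intro h
    apply hs
    have h1 : g.SameCycle v ((g⁻¹ ^ m) u) := (Perm.sameCycle_pow_left).1 h
    have h2 : (g⁻¹ ^ m) = g ^ (-(m:ℤ)) := by rw [zpow_neg, zpow_natCast, inv_pow]
    rw [h2] at h1
    exact (Perm.sameCycle_zpow_right).1 h1

lemma odd_orderOf [Finite V] (h : RotationalOn T g) : Odd (orderOf g) := by
  classical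
  have := Fintype.ofFinite V
  -- `g ^ P = 1` for `P` the product of the periods
  have h1 : g ^ (∏ v : V, minimalPeriod g v) = 1 := by
    ext v
    have h2 : ((minimalPeriod g v : ℕ) : ℤ) ∣ ((∏ v : V, minimalPeriod g v : ℕ) : ℤ) := by
      exact_mod_cast Finset.dvd_prod_of_mem _ (Finset.mem_univ v)
    have h3 := (zpow_eq_self_iff (g := g) v _).2 h2
    rw [zpow_natCast] at h3
    simpa using h3
  have h2 : orderOf g ∣ ∏ v : V, minimalPeriod g v := orderOf_dvd_of_pow_eq_one h1
  have h3 : Odd (∏ v : V, minimalPeriod g v) :=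
    Finset.prod_induction _ Odd (fun _ _ ha hb => ha.mul hb) odd_one (fun v _ => (h v).1)
  exact h3.of_dvd_nat h2

lemma exists_sqrt [Finite V] (h : RotationalOn T g) : ∃ m : ℕ, g ^ (2 * m) = g := by
  obtain ⟨i, hi⟩ := odd_orderOf h
  refine ⟨i + 1, ?_⟩
  have : 2 * (i + 1) = orderOf g + 1 := by omega
  rw [this, pow_succ, pow_orderOf_eq_one, one_mul]

theorem reversal [Finite V] (hT : IsTournament T) (h : RotationalOn T g) (h' : Linked T g) :
    ∃ ρ : Perm V, ρ * ρ = g ∧ ∀ v w, T (g v) w ↔ reverseInside T g (ρ v) (ρ w) := by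
  obtain ⟨m, hm⟩ := exists_sqrt h
  have hsq : g ^ m * g ^ m = g := by rw [← pow_add, ← two_mul, hm]
  refine ⟨g ^ m, hsq, fun v w => ?_⟩
  have hsame : g.SameCycle ((g ^ m) v) ((g ^ m) w) ↔ g.SameCycle v w := by
    rw [Perm.sameCycle_pow_left, Perm.sameCycle_pow_right]
  unfold reverseInside
  rw [hsame]
  by_cases hs : g.SameCycle v w
  · simp only [hs, true_and, not_true, false_and, or_false]
    obtain ⟨r, hr, rfl⟩ := sameCycle_exists hs
    obtain ⟨hodd, -⟩ := h v
    obtain ⟨q, hq⟩ := hodd
    have e0 : (g ^ ((m : ℤ) + r)) v = (g ^ m) ((g ^ r) v) := by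
      rw [← Perm.mul_apply, ← pow_add, ← zpow_natCast]; push_cast; rfl
    have e1 : (g ^ (m : ℤ)) v = (g ^ m) v := by rw [zpow_natCast]
    rcases Nat.eq_zero_or_pos r with h0 | h0
    · subst h0
      have h1 := arc_zpow h v 1 0 (2 * q) (by omega) ⟨-1, by rw [hq]; push_cast; ring⟩
      simp only [zpow_one, zpow_zero, Perm.one_apply] at h1
      have h2 : ¬ T (g v) v := fun h => by
        have := h1.1 h
        rw [← Nat.not_even_iff_odd] at this
        exact this ⟨q, by ring⟩
      simp only [pow_zero, Perm.one_apply]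
      exact iff_of_false h2 (hT.1 _)
    · have h1 := arc_zpow h v 1 r (r - 1) (by omega) ⟨0, by
        rw [Nat.cast_sub (by omega)]; push_cast; ring⟩
      have h2 := arc_zpow h v (m + r) m (2 * q + 1 - r) (by omega) ⟨-1, by
        rw [Nat.cast_sub (by omega), hq]; push_cast; ring⟩
      simp only [zpow_one] at h1
      rw [e0, e1] at h2
      have e2 : (g ^ (r : ℤ)) v = (g ^ r) v := by rw [zpow_natCast]
      rw [e2] at h1
      rw [h1, h2, Nat.odd_sub (by omega), Nat.odd_sub (by omega)]
      simp only [Nat.odd_iff, Nat.even_iff]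
      omega
  · simp only [hs, false_and, not_false_eq_true, true_and, false_or]
    have hs' : ¬ g.SameCycle ((g ^ m) v) ((g ^ m) w) := by rw [hsame]; exact hs
    have h1 := linked_pow h' m _ _ hs'
    rw [← h1]
    have e1 : (g ^ m) ((g ^ m) v) = g v := by rw [← Perm.mul_apply, hsq]
    have e2 : (g⁻¹ ^ m) ((g ^ m) w) = w := by
      rw [← Perm.mul_apply, inv_pow, inv_mul_cancel]; rfl
    rw [e1, e2]

/-- Two tournaments with a common list of out-neighbourhoods differ, up to isomorphism, by
reversing all arcs inside disjoint rotational odd cycles. -/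
theorem reversal_of_realises [Finite V] (T T' : V → V → Prop) (hT : IsTournament T)
    (hT' : IsTournament T') (hL : ∃ L : V → Set V, Realises L T ∧ Realises L T') :
    ∃ g ρ : Perm V, RotationalOn T g ∧ Linked T g ∧ ρ * ρ = g ∧
      ∀ v w, T' v w ↔ reverseInside T g (ρ v) (ρ w) := by
  obtain ⟨g, h1, h2, h3⟩ := (characterisation T T' hT).1 ⟨hT', hL⟩
  obtain ⟨ρ, hρ, h4⟩ := reversal hT h2 h3
  exact ⟨g, ρ, h2, h3, hρ, fun v w => (h1 v w).trans (h4 v w)⟩

end reversal

section switch

open Classical in
/-- The permutation acting as `g` on the classes in `K` and trivially elsewhere. -/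
noncomputable def switch (g : Perm V) (r : Setoid V) (hg : ∀ v, r v (g v))
    (K : Set (Quotient r)) : Perm V where
  toFun v := if (Quotient.mk r v) ∈ K then g v else v
  invFun v := if (Quotient.mk r v) ∈ K then g⁻¹ v else v
  left_inv v := by
    by_cases h : (Quotient.mk r v) ∈ K
    · have h1 : Quotient.mk r (g v) = Quotient.mk r v := Quotient.sound (r.symm (hg v))
      have e : g⁻¹ (g v) = v := by
        rw [← Perm.mul_apply, inv_mul_cancel]; rfl
      simp only [h, if_true, h1, e]
    · simp only [h, if_false]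
  right_inv v := by
    by_cases h : (Quotient.mk r v) ∈ K
    · have h1 : Quotient.mk r (g⁻¹ v) = Quotient.mk r v := by
        refine Quotient.sound ?_
        have := hg (g⁻¹ v)
        rw [gi] at this
        exact this
      simp only [h, if_true, h1, gi]
    · simp only [h, if_false]

theorem switch_tournament (T : V → V → Prop) (g : Perm V) (hT : IsTournament T)
    (hT' : IsTournament fun v w => T (g v) w) (r : Setoid V) (hg : ∀ v, r v (g v))
    (hr : ∀ w u, ¬ r w u → (T w u ↔ T w (g u))) (K : Set (Quotient r)) :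
    IsTournament fun v w => T (switch g r hg K v) w := by
  classical
  have hcase : ∀ v w, (Quotient.mk r v) ∈ K → (Quotient.mk r w) ∉ K →
      (T (g v) w ↔ ¬ T w v) := by
    intro v w hv hw
    have h1 : ¬ r w v := by
      intro h; exact hw (by rw [Quotient.sound h]; exact hv)
    have h2 : g v ≠ w := by
      intro h
      apply hw
      rw [← h, ← Quotient.sound (hg v)]
      exact hv
    rw [hT.2 _ _ h2, ← hr w v h1]
  constructor
  · intro v
    by_cases h : (Quotient.mk r v) ∈ K
    · have : switch g r hg K v = g v := by simp [switch, h]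
      show ¬ T (switch g r hg K v) v
      rw [this]; exact hT'.1 v
    · have : switch g r hg K v = v := by simp [switch, h]
      show ¬ T (switch g r hg K v) v
      rw [this]; exact hT.1 v
  · intro v w hvw
    show T (switch g r hg K v) w ↔ ¬ T (switch g r hg K w) v
    have e1 : ∀ x, (Quotient.mk r x) ∈ K → switch g r hg K x = g x := by
      intro x hx; simp [switch, hx]
    have e2 : ∀ x, (Quotient.mk r x) ∉ K → switch g r hg K x = x := by
      intro x hx; simp [switch, hx]
    by_cases hv : (Quotient.mk r v) ∈ K <;> by_cases hw : (Quotient.mk r w) ∈ K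
    · rw [e1 v hv, e1 w hw]; exact hT'.2 v w hvw
    · rw [e1 v hv, e2 w hw]; exact hcase v w hv hw
    · rw [e2 v hv, e1 w hw, hcase w v hw hv, not_not]
    · rw [e2 v hv, e2 w hw]; exact hT.2 v w hvw

lemma out_injective (T : V → V → Prop) (hT : IsTournament T) {v w : V}
    (h : ∀ x, T v x ↔ T w x) : v = w := by
  by_contra hne
  have h1 := hT.2 v w hne
  have h2 : ¬ T v w := fun h' => hT.1 w ((h w).1 h')
  have h3 : ¬ T w v := fun h' => hT.1 v ((h v).2 h')
  exact h2 (h1.2 h3)

/-- Independent switches: the number of tournaments realising a list is at least two to the number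
of independent parts of the difference of two realisations. -/
theorem switches [Finite V] (L : V → Set V) (T : V → V → Prop) (g : Perm V)
    (hT : IsTournament T) (hL : Realises L T) (hT' : IsTournament fun v w => T (g v) w)
    (r : Setoid V) (hg : ∀ v, r v (g v)) (hr : ∀ w u, ¬ r w u → (T w u ↔ T w (g u))) :
    2 ^ Nat.card {c : Quotient r // ∃ v, Quotient.mk r v = c ∧ g v ≠ v} ≤
      Nat.card {S : V → V → Prop // IsTournament S ∧ Realises L S} := by
  classical
  set Q := {c : Quotient r // ∃ v, Quotient.mk r v = c ∧ g v ≠ v} with hQ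
  have hcard : Nat.card (Set Q) = 2 ^ Nat.card Q := by
    have := Fintype.ofFinite Q
    rw [Nat.card_eq_fintype_card, Nat.card_eq_fintype_card, Fintype.card_set]
  rw [← hcard]
  obtain ⟨σ, hσ⟩ := hL
  let F : Set Q → {S : V → V → Prop // IsTournament S ∧ Realises L S} := fun K =>
    ⟨fun v w => T (switch g r hg (Subtype.val '' K) v) w,
      switch_tournament T g hT hT' r hg hr _,
      ⟨σ * switch g r hg (Subtype.val '' K), fun v => by
        rw [Perm.mul_apply, ← hσ]⟩⟩
  refine Nat.card_le_card_of_injective F ?_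
  intro K K' hKK
  have h1 : ∀ v w, T (switch g r hg (Subtype.val '' K) v) w ↔
      T (switch g r hg (Subtype.val '' K') v) w := by
    intro v w
    have := congrArg (fun x => x.1 v w) hKK
    exact Iff.of_eq this
  have h2 : ∀ v, switch g r hg (Subtype.val '' K) v = switch g r hg (Subtype.val '' K') v :=
    fun v => out_injective T hT (h1 v)
  ext c
  obtain ⟨c, v, rfl, hv⟩ := c
  have h3 := h2 v
  have e : ∀ K : Set Q, (Quotient.mk r v) ∈ (Subtype.val '' K) ↔
      (⟨Quotient.mk r v, v, rfl, hv⟩ : Q) ∈ K := by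
    intro K
    constructor
    · rintro ⟨c, hc, hc'⟩
      have : c = ⟨Quotient.mk r v, v, rfl, hv⟩ := Subtype.ext hc'
      rwa [← this]
    · intro h; exact ⟨_, h, rfl⟩
  simp only [switch, Equiv.coe_fn_mk, e] at h3
  by_cases hk : (⟨Quotient.mk r v, v, rfl, hv⟩ : Q) ∈ K <;>
    by_cases hk' : (⟨Quotient.mk r v, v, rfl, hv⟩ : Q) ∈ K'
  · exact iff_of_true hk hk'
  · simp only [hk, hk', if_true, if_false] at h3; exact absurd h3 hv
  · simp only [hk, hk', if_true, if_false] at h3; exact absurd h3.symm hv
  · exact iff_of_false hk hk'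

end switch

end Pool.Agent.Helper85.TournList
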